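import Mathlib

set_option autoImplicit false

open scoped BigOperators

/-!
Abstract setting for the asymptotic symmetric chain decomposition of the weak order.
A finite graded self-dual poset with non-negative weights on the covers.
-/

namespace Pool.Agent.SCW

/-- A finite graded self-dual set with covering relation and non-negative weights on covers. -/
structure FP (α : Type) [Fintype α] [DecidableEq α] where
  rk : α → ℕ
  N : ℕ
  bar : α → α
  bar_bar : ∀ v, bar (bar v) = v
  rk_bar : ∀ v, rk v + rk (bar v) = N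
  cov : α → α → Prop
  cov_rk : ∀ v w, cov v w → rk w = rk v + 1
  cov_bar : ∀ v w, cov v w → cov (bar w) (bar v)
  f : α → α → ℝ
  f_nonneg : ∀ v w, 0 ≤ f v w
  f_cov : ∀ v w, f v w ≠ 0 → cov v w
  f_bar : ∀ v w, f (bar w) (bar v) = f v w

variable {α : Type} [Fintype α] [DecidableEq α]

/-- Total weight of the covers above `v`. -/
noncomputable def FP.out (P : FP α) (v : α) : ℝ := ∑ w, P.f v w

/-- Total weight of the covers below `v`. -/
noncomputable def FP.inn (P : FP α) (v : α) : ℝ := ∑ u, P.f u v

/-- The elements whose rank lies in `[a,b]`. -/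
def FP.Rg (P : FP α) (a b : ℕ) : Finset α := Finset.univ.filter (fun v => a ≤ P.rk v ∧ P.rk v ≤ b)

/-- The number of elements of rank `r`. -/
def FP.M (P : FP α) (r : ℕ) : ℕ := (Finset.univ.filter (fun v => P.rk v = r)).card

/-- Error functional: non-conservation of the damped flow plus capacity excess. -/
noncomputable def FP.G (P : FP α) (θ : ℕ → ℝ) (Λ ε : ℝ) (v : α) : ℝ :=
  (θ (P.rk v) * |P.out v - Λ| + |P.out v - P.inn v - θ (P.rk v) * Λ|) / Λ
    + 2 * max (|P.out v / Λ - 1| - ε) 0

/-- A family of pairwise disjoint saturated symmetric chains `c i` (chain `i` has exactly one element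
`c i r` of each rank `r` with `s i ≤ r ≤ N - s i`), all starting at rank at least `b`, at least `u` of them
starting exactly at rank `b`, with at least `t` elements altogether. -/
def FP.Fam (P : FP α) (b u t : ℕ) : Prop :=
  ∃ (p : ℕ) (s : Fin p → ℕ) (c : Fin p → ℕ → α),
    (∀ i, b ≤ s i ∧ 2 * s i ≤ P.N) ∧
    (∀ i r, s i ≤ r → r + s i ≤ P.N → P.rk (c i r) = r) ∧
    (∀ i r, s i ≤ r → r + 1 + s i ≤ P.N → P.cov (c i r) (c i (r + 1))) ∧
    (∀ i j r, s i ≤ r → r + s i ≤ P.N → s j ≤ r → r + s j ≤ P.N → c i r = c j r → i = j) ∧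
    u ≤ (Finset.univ.filter (fun i => s i = b)).card ∧
    t ≤ ∑ i, (P.N + 1 - 2 * s i)

end Pool.Agent.SCW
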