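import Mathlib
import Pool.Agent.SCW.Def

set_option autoImplicit false

open scoped BigOperators

namespace Pool.Agent.SCW

/-- From indexed families to lists. -/
theorem conv {α : Type} [Fintype α] [DecidableEq α] (P : FP α) (b u t : ℕ) (hF : P.Fam b u t) :
    ∃ (k : ℕ) (C : Fin k → List α),
      (∀ i j, i ≠ j → ∀ v, v ∈ C i → v ∉ C j) ∧
      (∀ i, (C i).Nodup) ∧
      (∀ i, ∀ j : ℕ, ∀ v w : α, (C i)[j]? = some v → (C i)[j + 1]? = some w → P.cov v w) ∧
      (∀ i, ∃ v w : α, (C i).head? = some v ∧ (C i).getLast? = some w ∧ P.rk v + P.rk w = P.N) ∧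
      t ≤ (Finset.univ.filter (fun v : α => ∃ i, v ∈ C i)).card := by
  classical
  obtain ⟨p, s, c, hs, hrk, hcov, hdis, -, ht⟩ := hF
  have hmem : ∀ i v, v ∈ (List.range (P.N + 1 - 2 * s i)).map (fun j => c i (s i + j)) ↔
      ∃ j, j < P.N + 1 - 2 * s i ∧ c i (s i + j) = v := by
    intro i v; simp [List.mem_map]
  have hrk' : ∀ i j, j < P.N + 1 - 2 * s i → P.rk (c i (s i + j)) = s i + j := by
    intro i j hj
    have := (hs i).2
    exact hrk i (s i + j) (by omega) (by omega)
  have hnd : ∀ i, ((List.range (P.N + 1 - 2 * s i)).map (fun j => c i (s i + j))).Nodup := by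
    intro i
    refine List.Nodup.map_on ?_ List.nodup_range
    intro x hx y hy hxy
    rw [List.mem_range] at hx hy
    have h1 := hrk' i x hx
    have h2 := hrk' i y hy
    rw [hxy] at h1
    omega
  have hdj : ∀ i j, i ≠ j → ∀ v, v ∈ (List.range (P.N + 1 - 2 * s i)).map (fun k => c i (s i + k)) →
      v ∉ (List.range (P.N + 1 - 2 * s j)).map (fun k => c j (s j + k)) := by
    intro i j hij v hv hv'
    rw [hmem] at hv hv'
    obtain ⟨a, ha, hav⟩ := hv
    obtain ⟨a', ha', hav'⟩ := hv'
    have h1 := hrk' i a ha
    have h2 := hrk' j a' ha'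
    rw [hav] at h1
    rw [hav'] at h2
    have hsi := (hs i).2
    have hsj := (hs j).2
    have h3 : s j + a' = s i + a := by omega
    apply hij
    refine hdis i j (s i + a) (by omega) (by omega) (by omega) (by omega) ?_
    rw [hav, ← h3, hav']
  refine ⟨p, fun i => (List.range (P.N + 1 - 2 * s i)).map (fun j => c i (s i + j)), hdj, hnd, ?_, ?_, ?_⟩
  · intro i j v w hv hw
    have hsi := (hs i).2
    have hj1 : j + 1 < P.N + 1 - 2 * s i := by
      by_contra hcon
      rw [List.getElem?_eq_none (by simp; omega)] at hw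
      simp at hw
    simp only [List.getElem?_map, List.getElem?_range (by omega : j < P.N + 1 - 2 * s i),
      Option.map_some, Option.some.injEq] at hv
    simp only [List.getElem?_map, List.getElem?_range hj1,
      Option.map_some, Option.some.injEq] at hw
    rw [← hv, ← hw]
    exact hcov i (s i + j) (by omega) (by omega)
  · intro i
    have hsi := (hs i).2
    refine ⟨c i (s i + 0), c i (s i + (P.N - 2 * s i)), ?_, ?_, ?_⟩
    · rw [List.head?_eq_getElem?]
      simp only [List.getElem?_map, List.getElem?_range (by omega : 0 < P.N + 1 - 2 * s i),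
        Option.map_some]
    · rw [List.getLast?_eq_getElem?]
      simp only [List.length_map, List.length_range, List.getElem?_map]
      rw [show P.N + 1 - 2 * s i - 1 = P.N - 2 * s i by omega,
        List.getElem?_range (by omega : P.N - 2 * s i < P.N + 1 - 2 * s i)]
      simp
    · rw [hrk' i 0 (by omega), hrk' i (P.N - 2 * s i) (by omega)]
      omega
  · refine ht.trans ?_
    have h1 : (Finset.univ.filter (fun v : α => ∃ i, v ∈ (List.range (P.N + 1 - 2 * s i)).map (fun j => c i (s i + j))))
        = Finset.univ.biUnion (fun i : Fin p => ((List.range (P.N + 1 - 2 * s i)).map (fun j => c i (s i + j))).toFinset) := by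
      ext v
      simp only [Finset.mem_filter, Finset.mem_univ, true_and, Finset.mem_biUnion, List.mem_toFinset]
    rw [h1, Finset.card_biUnion]
    · apply le_of_eq
      refine Finset.sum_congr rfl ?_
      intro i _
      rw [List.toFinset_card_of_nodup (hnd i)]
      simp
    · intro i _ j _ hij
      rw [Function.onFun, Finset.disjoint_left]
      intro v hv hv'
      rw [List.mem_toFinset] at hv hv'
      exact hdj i j hij v hv hv'

end Pool.Agent.SCW
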