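import Mathlib
import Pool.Agent.SCW.Def

set_option autoImplicit false

open scoped BigOperators

namespace Pool.Agent.SCW

/-- Number of inversions. -/
def inv {n : ℕ} (σ : Equiv.Perm (Fin n)) : ℕ :=
  (Finset.univ.filter (fun p : Fin n × Fin n => p.1 < p.2 ∧ σ p.2 < σ p.1)).card

/-- Covers of the weak order. -/
def covW {n : ℕ} (a b : Equiv.Perm (Fin n)) : Prop :=
  ∃ x y : Fin n, x.val + 1 = y.val ∧ b = a * Equiv.swap x y ∧ inv b = inv a + 1

/-- Position weight `(i+1)(k-i)`. -/
noncomputable def wt (k : ℕ) (i : Fin k) : ℝ := (((i : ℕ) : ℝ) + 1) * ((k : ℝ) - ((i : ℕ) : ℝ))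

/-- Step of the word at position `i`. -/
noncomputable def stp {k : ℕ} (σ : Equiv.Perm (Fin (k + 1))) (i : Fin k) : ℝ :=
  ((σ i.succ : ℕ) : ℝ) - ((σ i.castSucc : ℕ) : ℝ)

/-- The weight of the cover `a < b`. -/
noncomputable def fW (k : ℕ) (a b : Equiv.Perm (Fin (k + 1))) : ℝ :=
  ∑ i : Fin k, if b = a * Equiv.swap i.castSucc i.succ then wt k i * max (stp a i) 0 else 0

private lemma swap_mono {k : ℕ} (i : Fin k) {x y : Fin (k + 1)} (h : x < y)
    (hne : ¬ (x = i.castSucc ∧ y = i.succ)) :
    Equiv.swap i.castSucc i.succ x < Equiv.swap i.castSucc i.succ y := by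
  rw [Equiv.swap_apply_def, Equiv.swap_apply_def]
  have hx : (x : ℕ) < y := h
  have e1 : (i.castSucc : ℕ) = i := rfl
  have e2 : (i.succ : ℕ) = i + 1 := rfl
  have hne' : ¬ ((x : ℕ) = i ∧ (y : ℕ) = i + 1) := by
    rintro ⟨a, b⟩
    exact hne ⟨Fin.ext a, Fin.ext b⟩
  rw [Fin.lt_def]
  split_ifs with h1 h2 h3 h4 h5 h6 h7 h8 <;> simp only [Fin.ext_iff, e1, e2] at * <;> omega

/-- Adjacent swap at an ascent adds one inversion. -/
theorem inv_adj {k : ℕ} (σ : Equiv.Perm (Fin (k + 1))) (i : Fin k) (h : σ i.castSucc < σ i.succ) :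
    inv (σ * Equiv.swap i.castSucc i.succ) = inv σ + 1 := by
  classical
  set s := Equiv.swap i.castSucc i.succ with hs
  unfold inv
  have hss : ∀ x, s (s x) = x := fun x => Equiv.swap_apply_self _ _ _
  have hsa : s i.castSucc = i.succ := Equiv.swap_apply_left _ _
  have hsb : s i.succ = i.castSucc := Equiv.swap_apply_right _ _
  have hlt : i.castSucc < i.succ := Fin.castSucc_lt_succ
  have heq : (Finset.univ.filter (fun p : Fin (k + 1) × Fin (k + 1) => p.1 < p.2 ∧
      (σ * s) p.2 < (σ * s) p.1)) = insert (i.castSucc, i.succ)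
      ((Finset.univ.filter (fun p : Fin (k + 1) × Fin (k + 1) => p.1 < p.2 ∧
      σ p.2 < σ p.1)).image (fun p => (s p.1, s p.2))) := by
    ext ⟨x, y⟩
    rw [Finset.mem_filter, Finset.mem_insert, Finset.mem_image]
    constructor
    · rintro ⟨-, h1, h2⟩
      by_cases hxy : x = i.castSucc ∧ y = i.succ
      · left
        rw [hxy.1, hxy.2]
      · right
        refine ⟨(s x, s y), ?_, ?_⟩
        · rw [Finset.mem_filter]
          exact ⟨Finset.mem_univ _, swap_mono i h1 hxy, h2⟩
        · simp only [hss]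
    · rintro (h0 | ⟨⟨a, b⟩, h1, h2⟩)
      · rw [h0]
        refine ⟨Finset.mem_univ _, hlt, ?_⟩
        show σ (s i.succ) < σ (s i.castSucc)
        rw [hsa, hsb]
        exact h
      · rw [Finset.mem_filter] at h1
        obtain ⟨-, h1, h3⟩ := h1
        simp only at h1 h3
        rw [← h2]
        refine ⟨Finset.mem_univ _, ?_, ?_⟩
        · refine swap_mono i h1 ?_
          rintro ⟨rfl, rfl⟩
          exact lt_asymm h h3
        · show σ (s (s b)) < σ (s (s a))
          rw [hss, hss]
          exact h3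
  rw [heq, Finset.card_insert_of_notMem, Finset.card_image_of_injective]
  · intro p q hpq
    simp only [Prod.mk.injEq] at hpq
    exact Prod.ext (s.injective hpq.1) (s.injective hpq.2)
  · intro hmem
    rw [Finset.mem_image] at hmem
    obtain ⟨⟨a, b⟩, h1, h2⟩ := hmem
    rw [Finset.mem_filter] at h1
    simp only [Prod.mk.injEq] at h2
    have ha : a = i.succ := by rw [← hss a, h2.1, hsa]
    have hb : b = i.castSucc := by rw [← hss b, h2.2, hsb]
    have := h1.2.1
    simp only at this
    rw [ha, hb] at this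
    exact lt_asymm this hlt

private lemma card_pairs (n : ℕ) :
    (Finset.univ.filter (fun p : Fin n × Fin n => p.1 < p.2)).card = n * (n - 1) / 2 := by
  classical
  have h1 : (Finset.univ.filter (fun p : Fin n × Fin n => p.1 < p.2)).card
      = ∑ y : Fin n, (y : ℕ) := by
    rw [Finset.card_filter, ← Finset.univ_product_univ, Finset.sum_product_right]
    apply Finset.sum_congr rfl
    intro y _
    rw [← Finset.card_filter]
    have : (Finset.univ.filter fun x : Fin n => x < y) = Finset.Iio y := by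
      ext x; simp
    rw [this, Fin.card_Iio]
  rw [h1, Fin.sum_univ_eq_sum_range (fun i => i) n, Finset.sum_range_id]

/-- Reversing the word complements the set of inversions. -/
theorem inv_rev {n : ℕ} (σ : Equiv.Perm (Fin n)) :
    inv σ + inv (σ * Fin.revPerm) = n * (n - 1) / 2 := by
  classical
  unfold inv
  have h1 : (Finset.univ.filter (fun p : Fin n × Fin n => p.1 < p.2 ∧
      (σ * Fin.revPerm : Equiv.Perm (Fin n)) p.2 < (σ * Fin.revPerm : Equiv.Perm (Fin n)) p.1)).card
      = (Finset.univ.filter (fun p : Fin n × Fin n => p.1 < p.2 ∧ σ p.1 < σ p.2)).card := by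
    apply Finset.card_nbij' (fun p => (Fin.rev p.2, Fin.rev p.1))
      (fun p => (Fin.rev p.2, Fin.rev p.1))
    · rintro ⟨x, y⟩ hp
      simp only [Finset.coe_filter, Finset.mem_univ, true_and, Set.mem_setOf_eq,
        Equiv.Perm.mul_apply, Fin.revPerm_apply] at hp ⊢
      exact ⟨Fin.rev_lt_rev.2 hp.1, hp.2⟩
    · rintro ⟨x, y⟩ hp
      simp only [Finset.coe_filter, Finset.mem_univ, true_and, Set.mem_setOf_eq,
        Equiv.Perm.mul_apply, Fin.revPerm_apply, Fin.rev_rev] at hp ⊢
      exact ⟨Fin.rev_lt_rev.2 hp.1, hp.2⟩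
    · rintro ⟨x, y⟩ _
      simp
    · rintro ⟨x, y⟩ _
      simp
  rw [h1, ← card_pairs n]
  rw [← Finset.card_union_of_disjoint]
  · congr 1
    ext ⟨x, y⟩
    simp only [Finset.mem_union, Finset.mem_filter, Finset.mem_univ, true_and]
    constructor
    · rintro (⟨h, -⟩ | ⟨h, -⟩) <;> exact h
    · intro h
      rcases lt_trichotomy (σ x) (σ y) with h2 | h2 | h2
      · exact Or.inr ⟨h, h2⟩
      · exact absurd (σ.injective h2) h.ne
      · exact Or.inl ⟨h, h2⟩
  · rw [Finset.disjoint_filter]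
    rintro ⟨x, y⟩ _ h2 h3
    exact lt_asymm h2.2 h3.2

end Pool.Agent.SCW
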