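import Mathlib
import Pool.Agent.SCW.Def
import Pool.Agent.SCW.Perm0

set_option autoImplicit false

open scoped BigOperators

namespace Pool.Agent.SCW

namespace LipIAux

/-- the increasing pairs meeting `{p, q}` -/
def B {n : ℕ} (p q : Fin n) : Finset (Fin n × Fin n) :=
  (Finset.univ.image fun z : Fin n => if z < p then (z, p) else (p, z)) ∪
    (Finset.univ.image fun z : Fin n => if z < q then (z, q) else (q, z))

theorem B_card {n : ℕ} (p q : Fin n) : (B p q).card ≤ 2 * n := by
  unfold B
  have h1 := Finset.card_union_le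
    (Finset.univ.image fun z : Fin n => if z < p then (z, p) else (p, z))
    (Finset.univ.image fun z : Fin n => if z < q then (z, q) else (q, z))
  have h2 : (Finset.univ.image fun z : Fin n => if z < p then (z, p) else (p, z)).card ≤ n := by
    refine Finset.card_image_le.trans ?_
    rw [Finset.card_univ, Fintype.card_fin]
  have h3 : (Finset.univ.image fun z : Fin n => if z < q then (z, q) else (q, z)).card ≤ n := by
    refine Finset.card_image_le.trans ?_
    rw [Finset.card_univ, Fintype.card_fin]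
  omega

theorem mem_B {n : ℕ} {p q x y : Fin n} (hxy : x < y) (h : (x = p ∨ x = q) ∨ (y = p ∨ y = q)) :
    (x, y) ∈ B p q := by
  unfold B
  rw [Finset.mem_union, Finset.mem_image, Finset.mem_image]
  rcases h with (h | h) | (h | h)
  · left
    refine ⟨y, Finset.mem_univ _, ?_⟩
    subst h
    rw [if_neg (not_lt.2 hxy.le)]
  · right
    refine ⟨y, Finset.mem_univ _, ?_⟩
    subst h
    rw [if_neg (not_lt.2 hxy.le)]
  · left
    refine ⟨x, Finset.mem_univ _, ?_⟩
    subst h
    rw [if_pos hxy]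
  · right
    refine ⟨x, Finset.mem_univ _, ?_⟩
    subst h
    rw [if_pos hxy]

/-- one side -/
theorem le_add {n : ℕ} (σ τ : Equiv.Perm (Fin n)) (p q : Fin n)
    (h : ∀ x, x ≠ p → x ≠ q → σ x = τ x) : inv σ ≤ inv τ + 2 * n := by
  unfold inv
  have hsub : (Finset.univ.filter (fun p : Fin n × Fin n => p.1 < p.2 ∧ σ p.2 < σ p.1)) ⊆
      (Finset.univ.filter (fun p : Fin n × Fin n => p.1 < p.2 ∧ τ p.2 < τ p.1)) ∪ B p q := by
    rintro ⟨x, y⟩ hxy
    have h1 := (Finset.mem_filter.1 hxy).2
    have h2 : x < y := h1.1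
    have h3 : σ y < σ x := h1.2
    rw [Finset.mem_union]
    by_cases hm : (x = p ∨ x = q) ∨ (y = p ∨ y = q)
    · exact Or.inr (mem_B h2 hm)
    · left
      push Not at hm
      obtain ⟨⟨a1, a2⟩, a3, a4⟩ := hm
      refine Finset.mem_filter.2 ⟨Finset.mem_univ _, h2, ?_⟩
      change τ y < τ x
      rw [← h x a1 a2, ← h y a3 a4]
      exact h3
  have h1 := (Finset.card_le_card hsub).trans (Finset.card_union_le _ _)
  have h2 := B_card p q
  omega

end LipIAux

open LipIAux

theorem inv_lip {n : ℕ} (σ : Equiv.Perm (Fin n)) (p q : Fin n) :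
    |(inv (σ * Equiv.swap p q) : ℝ) - (inv σ : ℝ)| ≤ 2 * (n : ℝ) := by
  have h : ∀ x, x ≠ p → x ≠ q → (σ * Equiv.swap p q) x = σ x := by
    intro x h1 h2
    rw [Equiv.Perm.mul_apply, Equiv.swap_apply_of_ne_of_ne h1 h2]
  have h1 := le_add (σ * Equiv.swap p q) σ p q h
  have h2 := le_add σ (σ * Equiv.swap p q) p q fun x a b => (h x a b).symm
  have h3 : (inv (σ * Equiv.swap p q) : ℝ) ≤ (inv σ : ℝ) + 2 * n := by exact_mod_cast h1
  have h4 : (inv σ : ℝ) ≤ (inv (σ * Equiv.swap p q) : ℝ) + 2 * n := by exact_mod_cast h2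
  rw [abs_le]
  constructor <;> linarith

end Pool.Agent.SCW
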