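import Mathlib
import Pool.Agent.SCW.Def
import Pool.Agent.SCW.Perm0

set_option autoImplicit false

open scoped BigOperators

namespace Pool.Agent.SCW

private theorem Perm_rr {n : ℕ} : (Fin.revPerm : Equiv.Perm (Fin n)) * Fin.revPerm = 1 := by
  ext x
  simp

private theorem Perm_conj {n : ℕ} (x y : Fin n) :
    (Fin.revPerm : Equiv.Perm (Fin n)) * Equiv.swap x y * Fin.revPerm =
      Equiv.swap (Fin.rev x) (Fin.rev y) := by
  have h := Equiv.swap_apply_apply (Fin.revPerm : Equiv.Perm (Fin n)) x y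
  have h1 : (Fin.revPerm : Equiv.Perm (Fin n))⁻¹ = Fin.revPerm := by
    rw [inv_eq_iff_mul_eq_one]
    exact Perm_rr
  rw [h1] at h
  rw [← h]
  simp

/-- conjugating by the reversal -/
private theorem Perm_step {n : ℕ} (a b : Equiv.Perm (Fin n)) (x y : Fin n) :
    (a * Fin.revPerm = b * Fin.revPerm * Equiv.swap x y) ↔
      b = a * Equiv.swap (Fin.rev x) (Fin.rev y) := by
  rw [← Perm_conj x y]
  constructor
  · intro h
    calc b = b * (Fin.revPerm * Equiv.swap x y * (Equiv.swap x y * Fin.revPerm)) := by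
          rw [mul_assoc, ← mul_assoc (Equiv.swap x y) (Equiv.swap x y), Equiv.swap_mul_self,
            one_mul, Perm_rr, mul_one]
      _ = (b * Fin.revPerm * Equiv.swap x y) * (Equiv.swap x y * Fin.revPerm) := by
          simp only [mul_assoc]
      _ = (a * Fin.revPerm) * (Equiv.swap x y * Fin.revPerm) := by rw [h]
      _ = a * (Fin.revPerm * Equiv.swap x y * Fin.revPerm) := by simp only [mul_assoc]
  · intro h
    rw [h]
    calc a * Fin.revPerm = a * Fin.revPerm * (Equiv.swap x y * Equiv.swap x y) := by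
          rw [Equiv.swap_mul_self, mul_one]
      _ = a * Fin.revPerm * Equiv.swap x y * (Fin.revPerm * Fin.revPerm) * Equiv.swap x y := by
          rw [Perm_rr]
          simp only [mul_assoc, one_mul]
      _ = _ := by simp only [mul_assoc]

theorem covW_rev {n : ℕ} (a b : Equiv.Perm (Fin n)) (h : covW a b) :
    covW (b * Fin.revPerm) (a * Fin.revPerm) := by
  obtain ⟨x, y, hxy, hb, hi⟩ := h
  refine ⟨Fin.rev y, Fin.rev x, ?_, ?_, ?_⟩
  · have hx := x.isLt
    have hy := y.isLt
    simp only [Fin.val_rev]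
    omega
  · rw [Perm_step, Fin.rev_rev, Fin.rev_rev, Equiv.swap_comm]
    exact hb
  · have h1 := inv_rev a
    have h2 := inv_rev b
    omega

theorem fW_rev {k : ℕ} (a b : Equiv.Perm (Fin (k + 1))) :
    fW k (b * Fin.revPerm) (a * Fin.revPerm) = fW k a b := by
  unfold fW
  rw [← Equiv.sum_comp (Fin.revPerm : Equiv.Perm (Fin k))]
  refine Finset.sum_congr rfl fun i _ => ?_
  have e1 : Fin.rev ((Fin.revPerm i : Fin k).castSucc) = i.succ := by
    simp [Fin.rev_castSucc]
  have e2 : Fin.rev ((Fin.revPerm i : Fin k).succ) = i.castSucc := by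
    simp [Fin.rev_succ]
  have hc : (a * Fin.revPerm = b * Fin.revPerm *
      Equiv.swap (Fin.revPerm i : Fin k).castSucc (Fin.revPerm i : Fin k).succ) ↔
      b = a * Equiv.swap i.castSucc i.succ := by
    rw [Perm_step, e1, e2, Equiv.swap_comm]
  by_cases h : b = a * Equiv.swap i.castSucc i.succ
  · rw [if_pos (hc.2 h), if_pos h]
    have hw : wt k (Fin.revPerm i : Fin k) = wt k i := by
      unfold wt
      have hi : (((Fin.revPerm i : Fin k) : ℕ) : ℝ) = (k : ℝ) - 1 - ((i : ℕ) : ℝ) := by
        have h1 : ((Fin.revPerm i : Fin k) : ℕ) = k - (i + 1) := by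
          simp [Fin.val_rev]
        rw [h1, Nat.cast_sub (by have := i.isLt; omega)]
        push_cast
        ring
      rw [hi]
      ring
    have hs : stp (b * Fin.revPerm) (Fin.revPerm i : Fin k) = stp a i := by
      unfold stp
      have h1 : (b * Fin.revPerm : Equiv.Perm (Fin (k + 1))) (Fin.revPerm i : Fin k).succ = a i.succ := by
        rw [Equiv.Perm.mul_apply, Fin.revPerm_apply, e2, h, Equiv.Perm.mul_apply,
          Equiv.swap_apply_left]
      have h2 : (b * Fin.revPerm : Equiv.Perm (Fin (k + 1))) (Fin.revPerm i : Fin k).castSucc =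
          a i.castSucc := by
        rw [Equiv.Perm.mul_apply, Fin.revPerm_apply, e1, h, Equiv.Perm.mul_apply,
          Equiv.swap_apply_right]
      rw [h1, h2]
    rw [hw, hs]
  · rw [if_neg (fun h' => h (hc.1 h')), if_neg h]

private theorem Perm_wt {k : ℕ} (i : Fin k) : 0 ≤ wt k i := by
  unfold wt
  have h1 : (0 : ℝ) ≤ ((i : ℕ) : ℝ) := Nat.cast_nonneg _
  have h2 : ((i : ℕ) : ℝ) ≤ (k : ℝ) := by
    exact_mod_cast i.isLt.le
  exact mul_nonneg (by linarith) (by linarith)

theorem fW_nonneg {k : ℕ} (a b : Equiv.Perm (Fin (k + 1))) : 0 ≤ fW k a b := by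
  unfold fW
  refine Finset.sum_nonneg fun i _ => ?_
  split_ifs
  · exact mul_nonneg (Perm_wt i) (le_max_right _ _)
  · exact le_rfl

theorem fW_cov {k : ℕ} (a b : Equiv.Perm (Fin (k + 1))) (h : fW k a b ≠ 0) : covW a b := by
  unfold fW at h
  obtain ⟨i, -, hi⟩ := Finset.exists_ne_zero_of_sum_ne_zero h
  have hb : b = a * Equiv.swap i.castSucc i.succ := by
    by_contra hb
    exact hi (if_neg hb)
  rw [if_pos hb] at hi
  have hs : 0 < stp a i := by
    by_contra hs
    exact hi (by rw [max_eq_right (not_lt.1 hs), mul_zero])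
  have hlt : a i.castSucc < a i.succ := by
    unfold stp at hs
    have h1 : ((a i.castSucc : ℕ) : ℝ) < ((a i.succ : ℕ) : ℝ) := by linarith
    exact Fin.lt_def.2 (by exact_mod_cast h1)
  refine ⟨i.castSucc, i.succ, by simp, hb, ?_⟩
  rw [hb]
  exact inv_adj a i hlt

/-- The weak order on `S_{k+1}` with its weights. -/
noncomputable def wP (k : ℕ) : FP (Equiv.Perm (Fin (k + 1))) where
  rk := inv
  N := (k + 1) * (k + 1 - 1) / 2
  bar := fun σ => σ * Fin.revPerm
  bar_bar := by
    intro σ
    ext x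
    simp
  rk_bar := fun σ => inv_rev σ
  cov := covW
  cov_rk := by
    rintro a b ⟨x, y, _, _, h⟩
    exact h
  cov_bar := covW_rev
  f := fW k
  f_nonneg := fW_nonneg
  f_cov := fW_cov
  f_bar := fun a b => fW_rev a b

end Pool.Agent.SCW
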