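import Mathlib
import Pool.Agent.SCW.Def
import Pool.Agent.SCW.Perm

set_option autoImplicit false

open scoped BigOperators

namespace Pool.Agent.SCW

/-- Explicit up-weight. -/
noncomputable def outW {k : ℕ} (σ : Equiv.Perm (Fin (k + 1))) : ℝ :=
  ∑ i : Fin k, wt k i * max (stp σ i) 0

/-- Explicit down-weight. -/
noncomputable def innW {k : ℕ} (σ : Equiv.Perm (Fin (k + 1))) : ℝ :=
  ∑ i : Fin k, wt k i * max (-stp σ i) 0

/-- Spearman statistic. -/
noncomputable def SW {k : ℕ} (σ : Equiv.Perm (Fin (k + 1))) : ℝ :=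
  ∑ j : Fin (k + 1), (2 * ((j : ℕ) : ℝ) - k) * ((σ j : ℕ) : ℝ)

theorem out_eq {k : ℕ} (σ : Equiv.Perm (Fin (k + 1))) : (wP k).out σ = outW σ := by
  unfold FP.out outW
  change ∑ w, fW k σ w = _
  unfold fW
  rw [Finset.sum_comm]
  apply Finset.sum_congr rfl
  intro i _
  rw [Finset.sum_ite_eq' Finset.univ (σ * Equiv.swap i.castSucc i.succ)]
  simp

private theorem OutIn_stp_swap {k : ℕ} (σ : Equiv.Perm (Fin (k + 1))) (i : Fin k) :
    stp (σ * Equiv.swap i.castSucc i.succ) i = -stp σ i := by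
  unfold stp
  rw [Equiv.Perm.mul_apply, Equiv.Perm.mul_apply, Equiv.swap_apply_right, Equiv.swap_apply_left]
  ring

theorem inn_eq {k : ℕ} (σ : Equiv.Perm (Fin (k + 1))) : (wP k).inn σ = innW σ := by
  unfold FP.inn innW
  change ∑ u, fW k u σ = _
  unfold fW
  rw [Finset.sum_comm]
  apply Finset.sum_congr rfl
  intro i _
  rw [Finset.sum_eq_single (σ * Equiv.swap i.castSucc i.succ)]
  · rw [if_pos, OutIn_stp_swap]
    rw [mul_assoc, Equiv.swap_mul_self, mul_one]
  · intro u _ hu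
    rw [if_neg]
    intro h
    apply hu
    rw [h, mul_assoc, Equiv.swap_mul_self, mul_one]
  · intro h
    exact absurd (Finset.mem_univ _) h

theorem outW_sub_innW {k : ℕ} (σ : Equiv.Perm (Fin (k + 1))) : outW σ - innW σ = SW σ := by
  have h1 : outW σ - innW σ = (∑ i : Fin k, wt k i * ((σ i.succ : ℕ) : ℝ)) -
      ∑ i : Fin k, wt k i * ((σ i.castSucc : ℕ) : ℝ) := by
    unfold outW innW
    rw [← Finset.sum_sub_distrib, ← Finset.sum_sub_distrib]
    apply Finset.sum_congr rfl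
    intro i _
    have h2 : max (stp σ i) 0 - max (-stp σ i) 0 = stp σ i := by
      rcases le_total 0 (stp σ i) with h | h
      · rw [max_eq_left h, max_eq_right (by linarith)]
        ring
      · rw [max_eq_right h, max_eq_left (by linarith)]
        ring
    rw [← mul_sub, ← mul_sub, h2]
    rfl
  have h2 : ∑ i : Fin k, wt k i * ((σ i.succ : ℕ) : ℝ) =
      ∑ j : Fin (k + 1), ((j : ℕ) : ℝ) * ((k : ℝ) + 1 - ((j : ℕ) : ℝ)) * ((σ j : ℕ) : ℝ) := by
    rw [Fin.sum_univ_succ (fun j : Fin (k + 1) =>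
      ((j : ℕ) : ℝ) * ((k : ℝ) + 1 - ((j : ℕ) : ℝ)) * ((σ j : ℕ) : ℝ))]
    simp only [Fin.val_zero, Nat.cast_zero, zero_mul, zero_add]
    apply Finset.sum_congr rfl
    intro i _
    unfold wt
    rw [Fin.val_succ]
    push_cast
    ring
  have h3 : ∑ i : Fin k, wt k i * ((σ i.castSucc : ℕ) : ℝ) =
      ∑ j : Fin (k + 1), (((j : ℕ) : ℝ) + 1) * ((k : ℝ) - ((j : ℕ) : ℝ)) * ((σ j : ℕ) : ℝ) := by
    rw [Fin.sum_univ_castSucc (fun j : Fin (k + 1) =>
      (((j : ℕ) : ℝ) + 1) * ((k : ℝ) - ((j : ℕ) : ℝ)) * ((σ j : ℕ) : ℝ))]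
    simp only [Fin.val_last, sub_self, mul_zero, zero_mul, add_zero]
    apply Finset.sum_congr rfl
    intro i _
    unfold wt
    rw [Fin.val_castSucc]
  rw [h1, h2, h3, ← Finset.sum_sub_distrib]
  unfold SW
  apply Finset.sum_congr rfl
  intro j _
  ring

end Pool.Agent.SCW
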