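import Mathlib
import Pool.Agent.SCW.Def
import Pool.Agent.SCW.Perm
import Pool.Agent.SCW.OutIn

set_option autoImplicit false

open scoped BigOperators

namespace Pool.Agent.SCW

private lemma LipO_wt_nonneg {k : ℕ} (i : Fin k) : 0 ≤ wt k i := by
  unfold wt
  have h1 : ((i : ℕ) : ℝ) ≤ k := by exact_mod_cast i.2.le
  have h2 : (0 : ℝ) ≤ ((i : ℕ) : ℝ) := Nat.cast_nonneg _
  exact mul_nonneg (by linarith) (by linarith)

private lemma LipO_wt_le {k : ℕ} (i : Fin k) : wt k i ≤ ((k : ℝ) + 1) ^ 2 / 4 := by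
  unfold wt
  nlinarith [sq_nonneg ((((i : ℕ) : ℝ) + 1) - ((k : ℝ) - ((i : ℕ) : ℝ)))]

private lemma LipO_sum_le {k : ℕ} (g : Fin k → Fin (k + 1)) (hg : Function.Injective g)
    (p : Fin (k + 1)) :
    ∑ i : Fin k, wt k i * (if g i = p then (1 : ℝ) else 0) ≤ ((k : ℝ) + 1) ^ 2 / 4 := by
  by_cases h : ∃ i₀, g i₀ = p
  · obtain ⟨i₀, h0⟩ := h
    rw [Finset.sum_eq_single i₀]
    · rw [if_pos h0, mul_one]
      exact LipO_wt_le i₀
    · intro j _ hj
      rw [if_neg, mul_zero]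
      intro hgj
      exact hj (hg (hgj.trans h0.symm))
    · exact fun h => absurd (Finset.mem_univ i₀) h
  · rw [Finset.sum_eq_zero]
    · positivity
    · intro j _
      rw [if_neg, mul_zero]
      exact fun hgj => h ⟨j, hgj⟩

private lemma LipO_val {k : ℕ} (σ : Equiv.Perm (Fin (k + 1))) (p q x : Fin (k + 1)) :
    |(((σ * Equiv.swap p q) x : ℕ) : ℝ) - ((σ x : ℕ) : ℝ)| ≤
      k * ((if x = p then (1 : ℝ) else 0) + (if x = q then (1 : ℝ) else 0)) := by
  have hd : ∀ a b : Fin (k + 1), |((a : ℕ) : ℝ) - ((b : ℕ) : ℝ)| ≤ k := by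
    intro a b
    have h1 : ((a : ℕ) : ℝ) ≤ k := by exact_mod_cast Nat.lt_succ_iff.1 a.2
    have h2 : ((b : ℕ) : ℝ) ≤ k := by exact_mod_cast Nat.lt_succ_iff.1 b.2
    have h3 : (0 : ℝ) ≤ ((a : ℕ) : ℝ) := Nat.cast_nonneg _
    have h4 : (0 : ℝ) ≤ ((b : ℕ) : ℝ) := Nat.cast_nonneg _
    rw [abs_le]
    constructor <;> linarith
  have hk : (0 : ℝ) ≤ k := Nat.cast_nonneg _
  by_cases hp : x = p
  · refine (hd _ _).trans ?_
    rw [if_pos hp]
    have : (0 : ℝ) ≤ (if x = q then (1 : ℝ) else 0) := by split_ifs <;> norm_num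
    nlinarith
  · by_cases hq : x = q
    · refine (hd _ _).trans ?_
      rw [if_pos hq, if_neg hp]
      linarith
    · rw [Equiv.Perm.mul_apply, Equiv.swap_apply_of_ne_of_ne hp hq, sub_self, abs_zero,
        if_neg hp, if_neg hq]
      simp

private lemma LipO_max (a b : ℝ) : |max a 0 - max b 0| ≤ |a - b| := by
  have := abs_max_sub_max_le_abs a b 0
  exact this

theorem outW_lip {k : ℕ} (σ : Equiv.Perm (Fin (k + 1))) (p q : Fin (k + 1)) :
    |outW (σ * Equiv.swap p q) - outW σ| ≤ ((k : ℝ) + 1) ^ 3 := by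
  unfold outW
  rw [← Finset.sum_sub_distrib]
  have h1 : ∀ i : Fin k, |wt k i * max (stp (σ * Equiv.swap p q) i) 0 - wt k i * max (stp σ i) 0| ≤
      k * (wt k i * (if i.succ = p then (1 : ℝ) else 0) + wt k i * (if i.succ = q then (1 : ℝ) else 0)
        + wt k i * (if i.castSucc = p then (1 : ℝ) else 0)
        + wt k i * (if i.castSucc = q then (1 : ℝ) else 0)) := by
    intro i
    have hw := LipO_wt_nonneg i
    have h2 := LipO_val σ p q i.succ
    have h3 := LipO_val σ p q i.castSucc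
    have h4 : |stp (σ * Equiv.swap p q) i - stp σ i| ≤
        k * ((if i.succ = p then (1 : ℝ) else 0) + (if i.succ = q then (1 : ℝ) else 0)) +
        k * ((if i.castSucc = p then (1 : ℝ) else 0) + (if i.castSucc = q then (1 : ℝ) else 0)) := by
      have h5 : stp (σ * Equiv.swap p q) i - stp σ i =
          ((((σ * Equiv.swap p q) i.succ : ℕ) : ℝ) - ((σ i.succ : ℕ) : ℝ)) -
          ((((σ * Equiv.swap p q) i.castSucc : ℕ) : ℝ) - ((σ i.castSucc : ℕ) : ℝ)) := by
        unfold stp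
        ring
      rw [h5]
      exact (abs_sub _ _).trans (add_le_add h2 h3)
    rw [← mul_sub, abs_mul, abs_of_nonneg hw]
    calc wt k i * |max (stp (σ * Equiv.swap p q) i) 0 - max (stp σ i) 0|
        ≤ wt k i * (k * ((if i.succ = p then (1 : ℝ) else 0) + (if i.succ = q then (1 : ℝ) else 0)) +
          k * ((if i.castSucc = p then (1 : ℝ) else 0) + (if i.castSucc = q then (1 : ℝ) else 0))) :=
          mul_le_mul_of_nonneg_left ((LipO_max _ _).trans h4) hw
      _ = _ := by ring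
  refine (Finset.abs_sum_le_sum_abs _ _).trans ((Finset.sum_le_sum fun i _ => h1 i).trans ?_)
  rw [← Finset.mul_sum, Finset.sum_add_distrib, Finset.sum_add_distrib, Finset.sum_add_distrib]
  have hA := LipO_sum_le (k := k) Fin.succ (Fin.succ_injective k) p
  have hB := LipO_sum_le (k := k) Fin.succ (Fin.succ_injective k) q
  have hC := LipO_sum_le (k := k) Fin.castSucc (Fin.castSucc_injective k) p
  have hD := LipO_sum_le (k := k) Fin.castSucc (Fin.castSucc_injective k) q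
  have hk : (0 : ℝ) ≤ k := Nat.cast_nonneg _
  calc (k : ℝ) * _ ≤ (k : ℝ) * ((k : ℝ) + 1) ^ 2 := by
        apply mul_le_mul_of_nonneg_left _ hk
        linarith
    _ ≤ ((k : ℝ) + 1) ^ 3 := by nlinarith [sq_nonneg ((k : ℝ) + 1)]

end Pool.Agent.SCW
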