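import Mathlib
import Pool.Agent.SCW.Def
import Pool.Agent.SCW.Perm
import Pool.Agent.SCW.OutIn

set_option autoImplicit false

open scoped BigOperators

namespace Pool.Agent.SCW

/-- The mean of `outW`: `n(n-1)(n+1)^2/36` with `n = k+1`. -/
noncomputable def LamW (k : ℕ) : ℝ := (k : ℝ) * ((k : ℝ) + 1) * ((k : ℝ) + 2) ^ 2 / 36

private lemma mean_exists_perm {n : ℕ} {a b a' b' : Fin n} (h : a ≠ b) (h' : a' ≠ b') :
    ∃ π : Equiv.Perm (Fin n), π a' = a ∧ π b' = b := by
  have h1 : (Equiv.swap a' a) a' = a := Equiv.swap_apply_left _ _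
  have h2 : (Equiv.swap a' a) b' ≠ a := by
    intro h3
    apply h'
    exact (Equiv.swap a' a).injective (h1.trans h3.symm)
  refine ⟨Equiv.swap ((Equiv.swap a' a) b') b * Equiv.swap a' a, ?_, ?_⟩
  · rw [Equiv.Perm.mul_apply, h1]
    exact Equiv.swap_apply_of_ne_of_ne h2.symm h
  · rw [Equiv.Perm.mul_apply, Equiv.swap_apply_left]

private lemma mean_indep {n : ℕ} (g : Fin n → Fin n → ℝ) {a b a' b' : Fin n} (h : a ≠ b)
    (h' : a' ≠ b') :
    ∑ σ : Equiv.Perm (Fin n), g (σ a) (σ b) = ∑ σ : Equiv.Perm (Fin n), g (σ a') (σ b') := by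
  obtain ⟨π, h1, h2⟩ := mean_exists_perm h h'
  rw [← Equiv.sum_comp (Equiv.mulRight π) (fun σ : Equiv.Perm (Fin n) => g (σ a') (σ b'))]
  refine Finset.sum_congr rfl fun σ _ => ?_
  simp [h1, h2]

private lemma mean_pair {n : ℕ} (g : Fin n → Fin n → ℝ) (hg : ∀ x, g x x = 0) {a b : Fin n}
    (h : a ≠ b) :
    ((n : ℝ) * n - n) * ∑ σ : Equiv.Perm (Fin n), g (σ a) (σ b) =
      (n.factorial : ℝ) * ∑ x, ∑ y, g x y := by
  set E := ∑ σ : Equiv.Perm (Fin n), g (σ a) (σ b) with hE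
  have h1 : ∑ c : Fin n, ∑ d : Fin n, ∑ σ : Equiv.Perm (Fin n), g (σ c) (σ d) =
      ((n : ℝ) * n - n) * E := by
    have h2 : ∀ c : Fin n, ∑ d : Fin n, ∑ σ : Equiv.Perm (Fin n), g (σ c) (σ d) =
        ((n : ℝ) - 1) * E := by
      intro c
      have h3 : ∀ d : Fin n, ∑ σ : Equiv.Perm (Fin n), g (σ c) (σ d) =
          E - (if c = d then E else 0) := by
        intro d
        by_cases hcd : c = d
        · subst hcd
          simp [hg]
        · rw [if_neg hcd, sub_zero, hE]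
          exact mean_indep g hcd h
      simp only [h3]
      rw [Finset.sum_sub_distrib, Finset.sum_ite_eq]
      simp
      ring
    simp only [h2]
    simp
    ring
  have h4 : ∑ c : Fin n, ∑ d : Fin n, ∑ σ : Equiv.Perm (Fin n), g (σ c) (σ d) =
      (n.factorial : ℝ) * ∑ x, ∑ y, g x y := by
    have h5 : ∑ c : Fin n, ∑ d : Fin n, ∑ σ : Equiv.Perm (Fin n), g (σ c) (σ d) =
        ∑ σ : Equiv.Perm (Fin n), ∑ c : Fin n, ∑ d : Fin n, g (σ c) (σ d) := by
      rw [Finset.sum_comm]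
      simp_rw [Finset.sum_comm (s := (Finset.univ : Finset (Equiv.Perm (Fin n))))]
      rw [Finset.sum_comm]
    rw [h5]
    have h6 : ∀ σ : Equiv.Perm (Fin n), ∑ c : Fin n, ∑ d : Fin n, g (σ c) (σ d) =
        ∑ x, ∑ y, g x y := by
      intro σ
      rw [← Equiv.sum_comp σ (fun x => ∑ y, g x y)]
      refine Finset.sum_congr rfl fun c _ => ?_
      exact Equiv.sum_comp σ (fun y => g (σ c) y)
    simp only [h6]
    rw [Finset.sum_const, Finset.card_univ, Fintype.card_perm, Fintype.card_fin, nsmul_eq_mul]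
  rw [← h1, h4]

private lemma mean_sub (n : ℕ) : ∑ x ∈ Finset.range n, ((n : ℝ) - x) = n * (n + 1) / 2 := by
  induction n with
  | zero => simp
  | succ n ih =>
    rw [Finset.sum_range_succ]
    have : ∑ x ∈ Finset.range n, (((n + 1 : ℕ) : ℝ) - x) =
        ∑ x ∈ Finset.range n, ((n : ℝ) - x) + n := by
      have h : ∀ x ∈ Finset.range n, (((n + 1 : ℕ) : ℝ) - x) = ((n : ℝ) - x) + 1 := by
        intro x _
        push_cast
        ring
      rw [Finset.sum_congr rfl h, Finset.sum_add_distrib]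
      simp
    rw [this, ih]
    push_cast
    ring

private lemma mean_square (n : ℕ) :
    ∑ x ∈ Finset.range n, ∑ y ∈ Finset.range n, max ((y : ℝ) - x) 0 =
      (n : ℝ) * ((n : ℝ) ^ 2 - 1) / 6 := by
  induction n with
  | zero => simp
  | succ n ih =>
    have h1 : ∀ x : ℕ, ∑ y ∈ Finset.range (n + 1), max ((y : ℝ) - x) 0 =
        ∑ y ∈ Finset.range n, max ((y : ℝ) - x) 0 + max ((n : ℝ) - x) 0 := fun x =>
      Finset.sum_range_succ _ _
    simp only [h1]
    rw [Finset.sum_add_distrib, Finset.sum_range_succ, Finset.sum_range_succ, ih]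
    have h2 : ∑ y ∈ Finset.range n, max ((y : ℝ) - n) 0 = 0 := by
      refine Finset.sum_eq_zero fun y hy => ?_
      rw [Finset.mem_range] at hy
      have : (y : ℝ) ≤ n := by exact_mod_cast hy.le
      exact max_eq_right (by linarith)
    have h3 : ∑ x ∈ Finset.range n, max ((n : ℝ) - x) 0 = n * (n + 1) / 2 := by
      rw [← mean_sub n]
      refine Finset.sum_congr rfl fun x hx => ?_
      rw [Finset.mem_range] at hx
      have : (x : ℝ) ≤ n := by exact_mod_cast hx.le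
      exact max_eq_left (by linarith)
    rw [h2, h3]
    simp only [sub_self, max_self]
    push_cast
    ring

private lemma mean_square_fin (n : ℕ) :
    ∑ x : Fin n, ∑ y : Fin n, max (((y : ℕ) : ℝ) - ((x : ℕ) : ℝ)) 0 =
      (n : ℝ) * ((n : ℝ) ^ 2 - 1) / 6 := by
  rw [← mean_square n, ← Fin.sum_univ_eq_sum_range
    (fun x : ℕ => ∑ y ∈ Finset.range n, max ((y : ℝ) - x) 0)]
  refine Finset.sum_congr rfl fun x _ => ?_
  rw [← Fin.sum_univ_eq_sum_range (fun y : ℕ => max ((y : ℝ) - ((x : ℕ) : ℝ)) 0)]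

private lemma mean_wt (k : ℕ) : ∑ i : Fin k, wt k i = (k : ℝ) * (k + 1) * (k + 2) / 6 := by
  have h : ∀ m : ℕ, ∀ K : ℝ, ∑ i ∈ Finset.range m, (((i : ℕ) : ℝ) + 1) * (K - (i : ℕ)) =
      K * (m * (m + 1) / 2) - (m : ℝ) * (m - 1) * (m + 1) / 3 := by
    intro m K
    induction m with
    | zero => simp
    | succ m ih =>
      rw [Finset.sum_range_succ, ih]
      push_cast
      ring
  unfold wt
  rw [Fin.sum_univ_eq_sum_range (fun i : ℕ => ((i : ℝ) + 1) * ((k : ℝ) - (i : ℝ))) k, h k k]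
  ring

theorem outW_mean (k : ℕ) :
    ∑ σ : Equiv.Perm (Fin (k + 1)), outW σ = ((k + 1).factorial : ℝ) * LamW k := by
  have hE : ∀ i : Fin k, ∑ σ : Equiv.Perm (Fin (k + 1)), max (stp σ i) 0 =
      ((k + 1).factorial : ℝ) * ((k + 2) / 6) := by
    intro i
    have hk : 0 < k := lt_of_le_of_lt (Nat.zero_le _) i.isLt
    have hk' : (0 : ℝ) < k := by exact_mod_cast hk
    have hne : i.castSucc ≠ i.succ := (Fin.castSucc_lt_succ).ne
    have h1 := mean_pair (fun x y : Fin (k + 1) => max (((y : ℕ) : ℝ) - ((x : ℕ) : ℝ)) 0)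
      (by intro x; simp) hne
    rw [mean_square_fin] at h1
    have h2 : ∑ σ : Equiv.Perm (Fin (k + 1)), max (stp σ i) 0 =
        ∑ σ : Equiv.Perm (Fin (k + 1)),
          max (((σ i.succ : ℕ) : ℝ) - ((σ i.castSucc : ℕ) : ℝ)) 0 := rfl
    rw [h2]
    have h3 : ((((k + 1 : ℕ) : ℝ)) * ((k + 1 : ℕ) : ℝ) - ((k + 1 : ℕ) : ℝ)) ≠ 0 := by
      push_cast
      have : ((k : ℝ) + 1) * ((k : ℝ) + 1) - ((k : ℝ) + 1) = ((k : ℝ) + 1) * k := by ring
      rw [this]
      positivity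
    apply mul_left_cancel₀ h3
    rw [h1]
    push_cast
    ring
  unfold outW
  rw [Finset.sum_comm]
  have h : ∀ i : Fin k, ∑ σ : Equiv.Perm (Fin (k + 1)), wt k i * max (stp σ i) 0 =
      wt k i * (((k + 1).factorial : ℝ) * ((k + 2) / 6)) := by
    intro i
    rw [← Finset.mul_sum, hE]
  rw [Finset.sum_congr rfl fun i _ => h i, ← Finset.sum_mul, mean_wt]
  unfold LamW
  ring

end Pool.Agent.SCW
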