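import Mathlib

set_option autoImplicit false

open scoped BigOperators

namespace Pool.Agent.SCW

private theorem SubG_exp_le (x : ℝ) : Real.exp x ≤ x + Real.exp (x ^ 2) := by
  have h0 := Real.add_one_le_exp (x ^ 2)
  rcases le_or_gt |x| 1 with h | h
  · have h1 := abs_le.mp (Real.abs_exp_sub_one_sub_id_le h)
    linarith [h1.2]
  · rcases lt_or_ge x 0 with hx | hx
    · rw [abs_of_neg hx] at h
      have h1 : Real.exp x ≤ 1 := Real.exp_le_one_iff.mpr hx.le
      nlinarith
    · rw [abs_of_nonneg hx] at h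
      have h1 : Real.exp x ≤ Real.exp (x ^ 2) := Real.exp_le_exp.mpr (by nlinarith)
      linarith

private theorem SubG_dec_mul {n : ℕ} (p : Fin (n + 1)) (s : Equiv.Perm (Fin n)) (a b : Fin n) :
    Equiv.Perm.decomposeFin.symm (p, s * Equiv.swap a b) =
      Equiv.Perm.decomposeFin.symm (p, s) * Equiv.swap a.succ b.succ := by
  ext x
  refine Fin.cases ?_ (fun y => ?_) x
  · rw [Equiv.Perm.mul_apply, Equiv.swap_apply_of_ne_of_ne (Fin.succ_ne_zero a).symm
      (Fin.succ_ne_zero b).symm]
    simp [Equiv.Perm.decomposeFin_symm_apply_zero]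
  · have : Equiv.swap a.succ b.succ y.succ = (Equiv.swap a b y).succ := by
      simp only [Equiv.swap_apply_def, Fin.succ_inj]
      split_ifs <;> rfl
    rw [Equiv.Perm.mul_apply, this, Equiv.Perm.decomposeFin_symm_apply_succ,
      Equiv.Perm.decomposeFin_symm_apply_succ, Equiv.Perm.mul_apply]

private theorem SubG_dec_zero {n : ℕ} (p : Fin (n + 1)) (s : Equiv.Perm (Fin n)) :
    Equiv.Perm.decomposeFin.symm (p, s) =
      Equiv.swap 0 p * Equiv.Perm.decomposeFin.symm (0, s) := by
  ext x
  refine Fin.cases ?_ (fun y => ?_) x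
  · rw [Equiv.Perm.mul_apply]
    simp [Equiv.Perm.decomposeFin_symm_apply_zero]
  · rw [Equiv.Perm.mul_apply, Equiv.Perm.decomposeFin_symm_apply_succ,
      Equiv.Perm.decomposeFin_symm_apply_succ]
    simp

private theorem SubG_left {n : ℕ} {F : Equiv.Perm (Fin n) → ℝ} {c : ℝ}
    (hF : ∀ σ p q, |F (σ * Equiv.swap p q) - F σ| ≤ c) (σ : Equiv.Perm (Fin n)) (x y : Fin n) :
    |F (Equiv.swap x y * σ) - F σ| ≤ c := by
  rw [Equiv.swap_mul_eq_mul_swap]
  exact hF _ _ _

/-- Sub-Gaussian concentration on the symmetric group for functions that are Lipschitz under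
transpositions. -/
theorem subG (n : ℕ) (F : Equiv.Perm (Fin n) → ℝ) (c : ℝ) (hc : 0 ≤ c)
    (hF : ∀ σ p q, |F (σ * Equiv.swap p q) - F σ| ≤ c) (μ : ℝ)
    (hμ : ∑ σ, F σ = (n.factorial : ℝ) * μ) (lam : ℝ) :
    ∑ σ, Real.exp (lam * (F σ - μ)) ≤ (n.factorial : ℝ) * Real.exp (lam ^ 2 * n * (2 * c) ^ 2) := by
  induction n generalizing μ with
  | zero =>
    simp only [Finset.univ_unique, Finset.sum_singleton, Nat.factorial_zero, Nat.cast_one,
      one_mul] at hμ ⊢
    rw [hμ]
    simp
  | succ n ih =>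
    have hsum : ∀ G : Equiv.Perm (Fin (n + 1)) → ℝ, ∑ σ, G σ =
        ∑ p : Fin (n + 1), ∑ s : Equiv.Perm (Fin n), G (Equiv.Perm.decomposeFin.symm (p, s)) := by
      intro G
      rw [← Equiv.sum_comp (Equiv.Perm.decomposeFin (n := n)).symm G, Fintype.sum_prod_type]
    have hfac : (0 : ℝ) < (n.factorial : ℝ) := by exact_mod_cast Nat.factorial_pos n
    set m : Fin (n + 1) → ℝ := fun p =>
      (∑ s : Equiv.Perm (Fin n), F (Equiv.Perm.decomposeFin.symm (p, s))) / (n.factorial : ℝ) with hm
    have hm' : ∀ p, ∑ s : Equiv.Perm (Fin n), F (Equiv.Perm.decomposeFin.symm (p, s)) =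
        (n.factorial : ℝ) * m p := by
      intro p
      simp only [hm]
      field_simp
    have hmsum : ∑ p, m p = ((n : ℝ) + 1) * μ := by
      have h1 := hsum F
      rw [hμ] at h1
      simp_rw [hm'] at h1
      rw [← Finset.mul_sum, Nat.factorial_succ] at h1
      push_cast at h1
      have h2 : (n.factorial : ℝ) * (∑ p, m p) = (n.factorial : ℝ) * (((n : ℝ) + 1) * μ) := by
        rw [← h1]; ring
      exact mul_left_cancel₀ hfac.ne' h2
    have hpq0 : ∀ p s, |F (Equiv.Perm.decomposeFin.symm (p, s)) -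
        F (Equiv.Perm.decomposeFin.symm (0, s))| ≤ c := by
      intro p s
      rw [SubG_dec_zero p s]
      exact SubG_left hF _ _ _
    have hpq : ∀ p q, |m p - m q| ≤ 2 * c := by
      intro p q
      have h1 : m p - m q = (∑ s : Equiv.Perm (Fin n),
          (F (Equiv.Perm.decomposeFin.symm (p, s)) - F (Equiv.Perm.decomposeFin.symm (q, s)))) /
          (n.factorial : ℝ) := by
        simp only [hm, Finset.sum_sub_distrib, sub_div]
      rw [h1, abs_div, abs_of_pos hfac, div_le_iff₀ hfac]
      calc |∑ s : Equiv.Perm (Fin n), (F (Equiv.Perm.decomposeFin.symm (p, s)) -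
            F (Equiv.Perm.decomposeFin.symm (q, s)))|
          ≤ ∑ s : Equiv.Perm (Fin n), |F (Equiv.Perm.decomposeFin.symm (p, s)) -
            F (Equiv.Perm.decomposeFin.symm (q, s))| := Finset.abs_sum_le_sum_abs _ _
        _ ≤ ∑ _s : Equiv.Perm (Fin n), 2 * c := by
            refine Finset.sum_le_sum fun s _ => ?_
            have h2 := abs_le.mp (hpq0 p s)
            have h3 := abs_le.mp (hpq0 q s)
            rw [abs_le]
            constructor <;> linarith [h2.1, h2.2, h3.1, h3.2]
        _ = 2 * c * (n.factorial : ℝ) := by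
            rw [Finset.sum_const, Finset.card_univ, Fintype.card_perm, Fintype.card_fin,
              nsmul_eq_mul]
            ring
    have hn1 : (0 : ℝ) < (n : ℝ) + 1 := by positivity
    have hpm : ∀ p, |m p - μ| ≤ 2 * c := by
      intro p
      have h1 : m p - μ = (∑ q, (m p - m q)) / ((n : ℝ) + 1) := by
        rw [Finset.sum_sub_distrib, hmsum, Finset.sum_const, Finset.card_univ, Fintype.card_fin,
          nsmul_eq_mul]
        push_cast
        field_simp
      rw [h1, abs_div, abs_of_pos hn1, div_le_iff₀ hn1]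
      calc |∑ q, (m p - m q)| ≤ ∑ q, |m p - m q| := Finset.abs_sum_le_sum_abs _ _
        _ ≤ ∑ _q : Fin (n + 1), 2 * c := Finset.sum_le_sum fun q _ => hpq p q
        _ = 2 * c * ((n : ℝ) + 1) := by
            rw [Finset.sum_const, Finset.card_univ, Fintype.card_fin, nsmul_eq_mul]
            push_cast
            ring
    have hstep : ∀ p, ∑ s : Equiv.Perm (Fin n),
        Real.exp (lam * (F (Equiv.Perm.decomposeFin.symm (p, s)) - m p)) ≤
        (n.factorial : ℝ) * Real.exp (lam ^ 2 * n * (2 * c) ^ 2) := by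
      intro p
      refine ih (fun s => F (Equiv.Perm.decomposeFin.symm (p, s))) ?_ (m p) (hm' p)
      intro σ a b
      simp only [SubG_dec_mul]
      exact hF _ _ _
    have hsum2 : ∑ p, Real.exp (lam * (m p - μ)) ≤ ((n : ℝ) + 1) * Real.exp (lam ^ 2 * (2 * c) ^ 2) := by
      calc ∑ p, Real.exp (lam * (m p - μ))
          ≤ ∑ p, (lam * (m p - μ) + Real.exp (lam ^ 2 * (2 * c) ^ 2)) := by
            refine Finset.sum_le_sum fun p _ => ?_
            refine (SubG_exp_le _).trans ?_
            have h2 : (m p - μ) ^ 2 ≤ (2 * c) ^ 2 := by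
              rw [← sq_abs (m p - μ)]
              have := hpm p
              gcongr
            have h3 : Real.exp ((lam * (m p - μ)) ^ 2) ≤ Real.exp (lam ^ 2 * (2 * c) ^ 2) := by
              apply Real.exp_le_exp.mpr
              rw [mul_pow]
              gcongr
            linarith
        _ = ((n : ℝ) + 1) * Real.exp (lam ^ 2 * (2 * c) ^ 2) := by
            rw [Finset.sum_add_distrib, ← Finset.mul_sum, Finset.sum_sub_distrib, hmsum,
              Finset.sum_const, Finset.sum_const, Finset.card_univ, Fintype.card_fin,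
              nsmul_eq_mul, nsmul_eq_mul]
            push_cast
            ring
    calc ∑ σ, Real.exp (lam * (F σ - μ))
        = ∑ p, ∑ s : Equiv.Perm (Fin n),
            Real.exp (lam * (F (Equiv.Perm.decomposeFin.symm (p, s)) - μ)) :=
          hsum (fun σ => Real.exp (lam * (F σ - μ)))
      _ = ∑ p, Real.exp (lam * (m p - μ)) * ∑ s : Equiv.Perm (Fin n),
            Real.exp (lam * (F (Equiv.Perm.decomposeFin.symm (p, s)) - m p)) := by
          refine Finset.sum_congr rfl fun p _ => ?_
          rw [Finset.mul_sum]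
          refine Finset.sum_congr rfl fun s _ => ?_
          rw [← Real.exp_add]
          congr 1
          ring
      _ ≤ ∑ p, Real.exp (lam * (m p - μ)) *
            ((n.factorial : ℝ) * Real.exp (lam ^ 2 * n * (2 * c) ^ 2)) := by
          refine Finset.sum_le_sum fun p _ => ?_
          exact mul_le_mul_of_nonneg_left (hstep p) (Real.exp_pos _).le
      _ = (∑ p, Real.exp (lam * (m p - μ))) *
            ((n.factorial : ℝ) * Real.exp (lam ^ 2 * n * (2 * c) ^ 2)) := by
          rw [Finset.sum_mul]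
      _ ≤ (((n : ℝ) + 1) * Real.exp (lam ^ 2 * (2 * c) ^ 2)) *
            ((n.factorial : ℝ) * Real.exp (lam ^ 2 * n * (2 * c) ^ 2)) := by
          gcongr
      _ = ((n + 1).factorial : ℝ) * Real.exp (lam ^ 2 * ((n + 1 : ℕ) : ℝ) * (2 * c) ^ 2) := by
          rw [Nat.factorial_succ]
          push_cast
          rw [show lam ^ 2 * ((n : ℝ) + 1) * (2 * c) ^ 2 =
            lam ^ 2 * (2 * c) ^ 2 + lam ^ 2 * n * (2 * c) ^ 2 by ring, Real.exp_add]
          ring

end Pool.Agent.SCW
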