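import Mathlib
import Pool.Agent.SCW.Def
import Pool.Agent.SCW.Perm
import Pool.Agent.SCW.OutIn

set_option autoImplicit false

open scoped BigOperators

namespace Pool.Agent.SCW

/-- Remainder of the Spearman statistic after subtracting the inversion statistic. -/
noncomputable def TW {k : ℕ} (σ : Equiv.Perm (Fin (k + 1))) : ℝ :=
  SW σ - (((k : ℝ) + 1) / 2) * (((k : ℝ) + 1) * k / 2 - 2 * (inv σ : ℝ))

/-- The antisymmetric kernel `(y-x) - (n/2) sgn(y-x)`, `n = k+1`. -/
noncomputable def hk (k : ℕ) (x y : Fin (k + 1)) : ℝ :=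
  (((y : ℕ) : ℝ) - ((x : ℕ) : ℝ))
    - (((k : ℝ) + 1) / 2) * (if x < y then 1 else if y < x then -1 else 0)

theorem TSqA_sum_id (k : ℕ) : ∑ j : Fin (k + 1), ((j : ℕ) : ℝ) = ((k : ℝ) + 1) * k / 2 := by
  induction k with
  | zero => simp
  | succ n ih =>
    rw [Fin.sum_univ_castSucc]
    simp only [Fin.val_castSucc, Fin.val_last]
    rw [ih]
    push_cast
    ring

theorem TSqA_cnt_lt {k : ℕ} (y : Fin (k + 1)) :
    ∑ x : Fin (k + 1), (if x < y then (1 : ℝ) else 0) = ((y : ℕ) : ℝ) := by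
  rw [Finset.sum_boole]
  have : (Finset.univ.filter (fun x : Fin (k + 1) => x < y)) = Finset.Iio y := by
    ext x; simp
  rw [this, Fin.card_Iio]

theorem TSqA_cnt_gt {k : ℕ} (x : Fin (k + 1)) :
    ∑ y : Fin (k + 1), (if x < y then (1 : ℝ) else 0) = (k : ℝ) - ((x : ℕ) : ℝ) := by
  rw [Finset.sum_boole]
  have : (Finset.univ.filter (fun y : Fin (k + 1) => x < y)) = Finset.Ioi x := by
    ext y; simp
  rw [this, Fin.card_Ioi]
  have hx : (x : ℕ) ≤ k := by omega
  have : k + 1 - 1 - (x : ℕ) = k - (x : ℕ) := by omega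
  rw [this, Nat.cast_sub hx]

theorem TSqA_part1 {k : ℕ} (g : Fin (k + 1) → ℝ) :
    ∑ x : Fin (k + 1), ∑ y : Fin (k + 1), (if x < y then g y - g x else 0)
      = ∑ j : Fin (k + 1), (2 * ((j : ℕ) : ℝ) - k) * g j := by
  have h1 : ∀ x y : Fin (k + 1), (if x < y then g y - g x else 0)
      = (if x < y then (1 : ℝ) else 0) * g y - (if x < y then (1 : ℝ) else 0) * g x := by
    intro x y
    split_ifs <;> ring
  simp only [h1, Finset.sum_sub_distrib]
  rw [Finset.sum_comm]
  simp only [← Finset.sum_mul, TSqA_cnt_lt, TSqA_cnt_gt]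
  rw [← Finset.sum_sub_distrib]
  refine Finset.sum_congr rfl fun j _ => ?_
  ring

theorem TSqA_part2 {k : ℕ} (σ : Equiv.Perm (Fin (k + 1))) :
    ∑ x : Fin (k + 1), ∑ y : Fin (k + 1), (if x < y then
      (if σ x < σ y then (1 : ℝ) else if σ y < σ x then -1 else 0) else 0)
      = ((k : ℝ) + 1) * k / 2 - 2 * (inv σ : ℝ) := by
  have h1 : ∀ x y : Fin (k + 1), (if x < y then
      (if σ x < σ y then (1 : ℝ) else if σ y < σ x then -1 else 0) else 0)
      = (if x < y then (1 : ℝ) else 0) - 2 * (if x < y ∧ σ y < σ x then (1 : ℝ) else 0) := by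
    intro x y
    by_cases hxy : x < y
    · have hne : σ x ≠ σ y := fun h => hxy.ne (σ.injective h)
      rcases lt_or_gt_of_ne hne with h | h
      · simp [hxy, h, h.not_gt]
      · simp only [hxy, h, h.not_gt, if_true, if_false, and_self]
        norm_num
    · simp [hxy]
  simp only [h1, Finset.sum_sub_distrib, ← Finset.mul_sum]
  have h2 : ∑ x : Fin (k + 1), ∑ y : Fin (k + 1), (if x < y then (1 : ℝ) else 0)
      = ((k : ℝ) + 1) * k / 2 := by
    rw [Finset.sum_comm]
    simp only [TSqA_cnt_lt]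
    exact TSqA_sum_id k
  have h3 : ∑ x : Fin (k + 1), ∑ y : Fin (k + 1), (if x < y ∧ σ y < σ x then (1 : ℝ) else 0)
      = (inv σ : ℝ) := by
    unfold inv
    rw [← Finset.sum_boole, Fintype.sum_prod_type]
  rw [h2, h3]

theorem TW_eq {k : ℕ} (σ : Equiv.Perm (Fin (k + 1))) :
    TW σ = ∑ p : Fin (k + 1) × Fin (k + 1), if p.1 < p.2 then hk k (σ p.1) (σ p.2) else 0 := by
  rw [Fintype.sum_prod_type]
  have h1 : ∀ x y : Fin (k + 1), (if x < y then hk k (σ x) (σ y) else 0)
      = (if x < y then ((σ y : ℕ) : ℝ) - ((σ x : ℕ) : ℝ) else 0)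
        - (((k : ℝ) + 1) / 2) * (if x < y then
      (if σ x < σ y then (1 : ℝ) else if σ y < σ x then -1 else 0) else 0) := by
    intro x y
    unfold hk
    split_ifs <;> ring
  simp only [h1, Finset.sum_sub_distrib, ← Finset.mul_sum]
  have h2 := TSqA_part1 (k := k) (fun j => ((σ j : ℕ) : ℝ))
  rw [h2, TSqA_part2 σ]
  rfl

/-- Exact degeneracy of the kernel. -/
theorem hk_sum (k : ℕ) (x : Fin (k + 1)) : ∑ y : Fin (k + 1), hk k x y = 0 := by
  have h1 : ∀ y : Fin (k + 1), hk k x y = (((y : ℕ) : ℝ) - ((x : ℕ) : ℝ))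
      - (((k : ℝ) + 1) / 2) * ((if x < y then (1 : ℝ) else 0) - (if y < x then (1 : ℝ) else 0)) := by
    intro y
    unfold hk
    by_cases hxy : x < y
    · simp [hxy, hxy.not_gt]
    · by_cases hyx : y < x
      · simp [hyx, hyx.not_gt]
      · simp [hxy, hyx]
  simp only [h1, Finset.sum_sub_distrib, ← Finset.mul_sum, TSqA_cnt_lt, TSqA_cnt_gt, TSqA_sum_id,
    Finset.sum_const, Finset.card_univ, Fintype.card_fin, nsmul_eq_mul]
  push_cast
  ring

end Pool.Agent.SCW
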