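import Mathlib
import Pool.Agent.SCW.Def
import Pool.Agent.SCW.Perm
import Pool.Agent.SCW.OutIn
import Pool.Agent.SCW.TSqA

set_option autoImplicit false

open scoped BigOperators

namespace Pool.Agent.SCW

theorem TSq_anti (k : ℕ) (x y : Fin (k + 1)) : hk k x y = -hk k y x := by
  unfold hk
  rcases lt_trichotomy x y with h | h | h
  · rw [if_pos h, if_neg (not_lt.mpr h.le), if_pos h]; ring
  · subst h; simp
  · rw [if_neg (not_lt.mpr h.le), if_pos h, if_pos h]; ring

theorem TSq_self (k : ℕ) (x : Fin (k + 1)) : hk k x x = 0 := by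
  have := TSq_anti k x x
  linarith

theorem TSq_sq (k : ℕ) (x y : Fin (k + 1)) : (hk k x y) ^ 2 ≤ ((k : ℝ) + 1) ^ 2 := by
  have hx : ((x : ℕ) : ℝ) < (k : ℝ) + 1 := by exact_mod_cast x.isLt
  have hy : ((y : ℕ) : ℝ) < (k : ℝ) + 1 := by exact_mod_cast y.isLt
  have hx0 : (0 : ℝ) ≤ ((x : ℕ) : ℝ) := Nat.cast_nonneg _
  have hy0 : (0 : ℝ) ≤ ((y : ℕ) : ℝ) := Nat.cast_nonneg _
  apply sq_le_sq'
  · unfold hk
    rcases lt_trichotomy x y with h | h | h
    · have h' : ((x : ℕ) : ℝ) < ((y : ℕ) : ℝ) := by exact_mod_cast h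
      rw [if_pos h]; linarith
    · subst h; simp; linarith
    · have h' : ((y : ℕ) : ℝ) < ((x : ℕ) : ℝ) := by exact_mod_cast h
      rw [if_neg (not_lt.mpr h.le), if_pos h]; linarith
  · unfold hk
    rcases lt_trichotomy x y with h | h | h
    · have h' : ((x : ℕ) : ℝ) < ((y : ℕ) : ℝ) := by exact_mod_cast h
      rw [if_pos h]; linarith
    · subst h; simp; linarith
    · have h' : ((y : ℕ) : ℝ) < ((x : ℕ) : ℝ) := by exact_mod_cast h
      rw [if_neg (not_lt.mpr h.le), if_pos h]; linarith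

/-- Reindexing the permutations by a permutation of the positions. -/
theorem TSq_reindex {k : ℕ} (π : Equiv.Perm (Fin (k + 1)))
    (F : Equiv.Perm (Fin (k + 1)) → ℝ) : ∑ σ, F (σ * π) = ∑ σ, F σ :=
  Equiv.sum_comp (Equiv.mulRight π) F

/-- The mixed moment. -/
noncomputable def TSq_E (k : ℕ) (i m j l : Fin (k + 1)) : ℝ :=
  ∑ σ : Equiv.Perm (Fin (k + 1)), hk k (σ i) (σ m) * hk k (σ j) (σ l)

theorem TSq_E_perm {k : ℕ} (π : Equiv.Perm (Fin (k + 1))) (i m j l : Fin (k + 1)) :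
    TSq_E k (π i) (π m) (π j) (π l) = TSq_E k i m j l := by
  unfold TSq_E
  exact TSq_reindex π (fun σ => hk k (σ i) (σ m) * hk k (σ j) (σ l))

theorem TSq_E_anti {k : ℕ} (i m j l : Fin (k + 1)) : TSq_E k m i j l = -TSq_E k i m j l := by
  unfold TSq_E
  rw [← Finset.sum_neg_distrib]
  refine Finset.sum_congr rfl (fun σ _ => ?_)
  rw [TSq_anti k (σ m) (σ i)]
  ring

theorem TSq_E_anti' {k : ℕ} (i m j l : Fin (k + 1)) : TSq_E k i m l j = -TSq_E k i m j l := by
  unfold TSq_E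
  rw [← Finset.sum_neg_distrib]
  refine Finset.sum_congr rfl (fun σ _ => ?_)
  rw [TSq_anti k (σ l) (σ j)]
  ring

theorem TSq_E_disj {k : ℕ} {i m j l : Fin (k + 1)} (h1 : j ≠ i) (h2 : j ≠ m) (h3 : l ≠ i)
    (h4 : l ≠ m) : TSq_E k i m j l = 0 := by
  have h := TSq_E_perm (Equiv.swap i m) i m j l
  rw [Equiv.swap_apply_left, Equiv.swap_apply_right, Equiv.swap_apply_of_ne_of_ne h1 h2,
    Equiv.swap_apply_of_ne_of_ne h3 h4, TSq_E_anti] at h
  linarith

/-- The two terms sharing an index cancel. -/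
theorem TSq_E_cancel {k : ℕ} {i m l : Fin (k + 1)} (h3 : l ≠ i) (h4 : l ≠ m) :
    TSq_E k i m i l + TSq_E k i m m l = 0 := by
  have h := TSq_E_perm (Equiv.swap i m) i m i l
  rw [Equiv.swap_apply_left, Equiv.swap_apply_right,
    Equiv.swap_apply_of_ne_of_ne h3 h4, TSq_E_anti] at h
  linarith

theorem TSq_E_nonpos {k : ℕ} {i m j : Fin (k + 1)} (him : i ≠ m) (hjm : j ≠ m) (hij : j ≠ i) :
    TSq_E k i m j m ≤ 0 := by
  -- all the moments with third index outside `{i, m}` agree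
  have hall : ∀ l, l ≠ m → l ≠ i → TSq_E k i m l m = TSq_E k i m j m := by
    intro l hlm hli
    have h := TSq_E_perm (Equiv.swap l j) i m l m
    rw [Equiv.swap_apply_left, Equiv.swap_apply_of_ne_of_ne hli.symm hij.symm,
      Equiv.swap_apply_of_ne_of_ne hlm.symm hjm.symm] at h
    exact h.symm
  have hsum : ∑ l, TSq_E k i m l m = 0 := by
    unfold TSq_E
    rw [Finset.sum_comm]
    refine Finset.sum_eq_zero (fun σ _ => ?_)
    rw [← Finset.mul_sum]
    have h1 : ∑ l, hk k (σ l) (σ m) = 0 := by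
      rw [Equiv.sum_comp σ (fun y => hk k y (σ m))]
      have h2 : ∀ y, hk k y (σ m) = -hk k (σ m) y := fun y => TSq_anti k y (σ m)
      simp only [h2, Finset.sum_neg_distrib, hk_sum, neg_zero]
    rw [h1, mul_zero]
  have hmm : TSq_E k i m m m = 0 := by
    unfold TSq_E
    refine Finset.sum_eq_zero (fun σ _ => ?_)
    rw [TSq_self, mul_zero]
  have hii : 0 ≤ TSq_E k i m i m := by
    unfold TSq_E
    exact Finset.sum_nonneg (fun σ _ => mul_self_nonneg _)
  by_contra hcon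
  push Not at hcon
  have hpos : 0 < ∑ l, TSq_E k i m l m := by
    refine Finset.sum_pos' (fun l _ => ?_) ⟨j, Finset.mem_univ _, hcon⟩
    by_cases hlm : l = m
    · rw [hlm, hmm]
    · by_cases hli : l = i
      · rw [hli]; exact hii
      · rw [hall l hlm hli]; exact hcon.le
  exact absurd hsum hpos.ne'

theorem TSq_E_diag {k : ℕ} (i m : Fin (k + 1)) :
    TSq_E k i m i m ≤ ((k + 1).factorial : ℝ) * ((k : ℝ) + 1) ^ 2 := by
  unfold TSq_E
  have h1 : ∀ σ ∈ (Finset.univ : Finset (Equiv.Perm (Fin (k + 1)))),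
      hk k (σ i) (σ m) * hk k (σ i) (σ m) ≤ ((k : ℝ) + 1) ^ 2 := by
    intro σ _
    rw [← sq]
    exact TSq_sq k _ _
  refine (Finset.sum_le_card_nsmul _ _ _ h1).trans ?_
  rw [Finset.card_univ, Fintype.card_perm, Fintype.card_fin, nsmul_eq_mul]

/-- The increments. -/
noncomputable def TSq_D {k : ℕ} (m : Fin (k + 1)) (σ : Equiv.Perm (Fin (k + 1))) : ℝ :=
  ∑ i, if i < m then hk k (σ i) (σ m) else 0

theorem TSq_TW {k : ℕ} (σ : Equiv.Perm (Fin (k + 1))) : TW σ = ∑ m, TSq_D m σ := by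
  rw [TW_eq, Fintype.sum_prod_type_right]
  rfl

theorem TSq_DD {k : ℕ} (m l : Fin (k + 1)) :
    ∑ σ, TSq_D m σ * TSq_D l σ =
      ∑ i, if i < m then (∑ j, if j < l then TSq_E k i m j l else 0) else 0 := by
  have h1 : ∀ σ : Equiv.Perm (Fin (k + 1)), TSq_D m σ * TSq_D l σ =
      ∑ i, ∑ j, if i < m then (if j < l then hk k (σ i) (σ m) * hk k (σ j) (σ l) else 0)
        else 0 := by
    intro σ
    unfold TSq_D
    rw [Finset.sum_mul_sum]
    refine Finset.sum_congr rfl (fun i _ => Finset.sum_congr rfl (fun j _ => ?_))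
    split_ifs <;> simp
  simp only [h1]
  rw [Finset.sum_comm]
  refine Finset.sum_congr rfl (fun i _ => ?_)
  rw [Finset.sum_comm]
  split_ifs with hi
  · refine Finset.sum_congr rfl (fun j _ => ?_)
    split_ifs with hj
    · rfl
    · simp
  · simp

theorem TSq_cross {k : ℕ} {m l : Fin (k + 1)} (h : m < l) :
    ∑ σ, TSq_D m σ * TSq_D l σ = 0 := by
  rw [TSq_DD]
  refine Finset.sum_eq_zero (fun i _ => ?_)
  split_ifs with hi
  · have hil : i < l := hi.trans h
    rw [Fintype.sum_eq_add i m hi.ne]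
    · rw [if_pos hil, if_pos h]
      exact TSq_E_cancel hil.ne' h.ne'
    · rintro j ⟨hji, hjm⟩
      split_ifs with hj
      · exact TSq_E_disj hji hjm hil.ne' h.ne'
      · rfl
  · rfl

theorem TSq_diag {k : ℕ} (m : Fin (k + 1)) :
    ∑ σ, TSq_D m σ * TSq_D m σ ≤
      ((k : ℝ) + 1) * (((k + 1).factorial : ℝ) * ((k : ℝ) + 1) ^ 2) := by
  rw [TSq_DD]
  have h0 : (0 : ℝ) ≤ ((k + 1).factorial : ℝ) * ((k : ℝ) + 1) ^ 2 := by positivity
  have h1 : ∀ i ∈ (Finset.univ : Finset (Fin (k + 1))),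
      (if i < m then (∑ j, if j < m then TSq_E k i m j m else 0) else 0) ≤
        ((k + 1).factorial : ℝ) * ((k : ℝ) + 1) ^ 2 := by
    intro i _
    split_ifs with hi
    · have h2 : ∀ j ∈ (Finset.univ : Finset (Fin (k + 1))),
          (if j < m then TSq_E k i m j m else 0) ≤
            (if j = i then ((k + 1).factorial : ℝ) * ((k : ℝ) + 1) ^ 2 else 0) := by
        intro j _
        by_cases hji : j = i
        · subst hji
          rw [if_pos hi, if_pos rfl]
          exact TSq_E_diag j m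
        · rw [if_neg hji]
          split_ifs with hj
          · exact TSq_E_nonpos hi.ne hj.ne hji
          · exact le_rfl
      refine (Finset.sum_le_sum h2).trans ?_
      rw [Finset.sum_ite_eq' Finset.univ i]
      simp
    · exact h0
  refine (Finset.sum_le_card_nsmul _ _ _ h1).trans ?_
  rw [Finset.card_univ, Fintype.card_fin, nsmul_eq_mul]
  push_cast
  exact le_rfl

theorem TW_sq (k : ℕ) :
    ∑ σ : Equiv.Perm (Fin (k + 1)), (TW σ) ^ 2 ≤ ((k + 1).factorial : ℝ) * ((k : ℝ) + 1) ^ 4 := by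
  have h1 : ∀ σ : Equiv.Perm (Fin (k + 1)), (TW σ) ^ 2 = ∑ m, ∑ l, TSq_D m σ * TSq_D l σ := by
    intro σ
    rw [TSq_TW, sq, Finset.sum_mul_sum]
  simp only [h1]
  rw [Finset.sum_comm]
  have h2 : ∀ m ∈ (Finset.univ : Finset (Fin (k + 1))),
      ∑ σ : Equiv.Perm (Fin (k + 1)), ∑ l, TSq_D m σ * TSq_D l σ ≤
        ((k : ℝ) + 1) * (((k + 1).factorial : ℝ) * ((k : ℝ) + 1) ^ 2) := by
    intro m _
    rw [Finset.sum_comm, Finset.sum_eq_single m]
    · exact TSq_diag m
    · intro l _ hl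
      rcases lt_or_gt_of_ne hl with h | h
      · have := TSq_cross h
        rw [← this]
        refine Finset.sum_congr rfl (fun σ _ => ?_)
        ring
      · exact TSq_cross h
    · intro h
      exact absurd (Finset.mem_univ _) h
  refine (Finset.sum_le_card_nsmul _ _ _ h2).trans ?_
  rw [Finset.card_univ, Fintype.card_fin, nsmul_eq_mul]
  push_cast
  apply le_of_eq
  ring

end Pool.Agent.SCW
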