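import Mathlib
import Pool.Agent.SCW.Def
import Pool.Agent.SCW.Perm
import Pool.Agent.SCW.OutIn
import Pool.Agent.SCW.TSq
import Pool.Agent.SCW.LipO
import Pool.Agent.SCW.LipI
import Pool.Agent.SCW.Mean
import Pool.Agent.SCW.SubG

set_option autoImplicit false

open scoped BigOperators

namespace Pool.Agent.SCW

theorem LamW_ge (k : ℕ) (hk : 1 ≤ k) : ((k : ℝ) + 1) ^ 4 / 36 ≤ LamW k := by
  unfold LamW
  have h1 : (1 : ℝ) ≤ k := by exact_mod_cast hk
  have h2 : ((k : ℝ) + 1) ^ 4 ≤ (k : ℝ) * ((k : ℝ) + 1) * ((k : ℝ) + 2) ^ 2 := by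
    have h3 : 0 ≤ ((k : ℝ) + 1) * ((k : ℝ) ^ 2 + k - 1) := by
      apply mul_nonneg (by linarith)
      nlinarith only [h1]
    nlinarith only [h3]
  linarith

/-- two-sided exponential moment -/
theorem Conc_exp2 {ι : Type*} (s : Finset ι) (x : ι → ℝ) (lam B : ℝ)
    (h1 : ∑ i ∈ s, Real.exp (lam * x i) ≤ B) (h2 : ∑ i ∈ s, Real.exp (-lam * x i) ≤ B) :
    ∑ i ∈ s, Real.exp (lam * |x i|) ≤ 2 * B := by
  have h3 : ∀ i ∈ s, Real.exp (lam * |x i|) ≤ Real.exp (lam * x i) + Real.exp (-lam * x i) := by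
    intro i _
    rcases abs_cases (x i) with ⟨h, _⟩ | ⟨h, _⟩
    · rw [h]
      linarith [Real.exp_pos (-lam * x i)]
    · rw [h]
      have : lam * -x i = -lam * x i := by ring
      rw [this]
      linarith [Real.exp_pos (lam * x i)]
  have h4 := Finset.sum_le_sum h3
  rw [Finset.sum_add_distrib] at h4
  linarith

theorem Conc_outexp (k : ℕ) (lam : ℝ) :
    ∑ σ : Equiv.Perm (Fin (k + 1)), Real.exp (lam * |outW σ - LamW k|) ≤
      2 * (((k + 1).factorial : ℝ) * Real.exp (4 * ((k : ℝ) + 1) ^ 7 * lam ^ 2)) := by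
  have hc : (0 : ℝ) ≤ ((k : ℝ) + 1) ^ 3 := by positivity
  have key : ∀ l : ℝ, l ^ 2 = lam ^ 2 →
      ∑ σ : Equiv.Perm (Fin (k + 1)), Real.exp (l * (outW σ - LamW k)) ≤
        ((k + 1).factorial : ℝ) * Real.exp (4 * ((k : ℝ) + 1) ^ 7 * lam ^ 2) := by
    intro l hl
    have h := subG (k + 1) (fun σ => outW σ) (((k : ℝ) + 1) ^ 3) hc (fun σ p q => outW_lip σ p q) (LamW k)
      (outW_mean k) l
    refine h.trans (le_of_eq ?_)
    congr 2
    rw [hl]
    push_cast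
    ring
  exact Conc_exp2 Finset.univ (fun σ => outW σ - LamW k) lam _ (key lam rfl) (key (-lam) (by ring))

theorem out_L1 (k : ℕ) :
    ∑ σ : Equiv.Perm (Fin (k + 1)), |outW σ - LamW k| ≤
      ((k + 1).factorial : ℝ) * (11 * ((k : ℝ) + 1) ^ ((7 : ℝ) / 2)) := by
  have hn : (0 : ℝ) < (k : ℝ) + 1 := by positivity
  set r : ℝ := ((k : ℝ) + 1) ^ ((7 : ℝ) / 2) with hr
  have hr0 : 0 < r := Real.rpow_pos_of_pos hn _
  have hr2 : r ^ 2 = ((k : ℝ) + 1) ^ 7 := by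
    rw [hr, ← Real.rpow_natCast, ← Real.rpow_mul hn.le, ← Real.rpow_natCast]
    norm_num
  have h := Conc_outexp k (1 / (2 * r))
  have he : 4 * ((k : ℝ) + 1) ^ 7 * (1 / (2 * r)) ^ 2 = 1 := by
    rw [← hr2]
    field_simp
    norm_num
  rw [he] at h
  have h1 : ∀ σ : Equiv.Perm (Fin (k + 1)), |outW σ - LamW k| ≤
      (2 * r) * Real.exp (1 / (2 * r) * |outW σ - LamW k|) := by
    intro σ
    have h2 := Real.add_one_le_exp (1 / (2 * r) * |outW σ - LamW k|)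
    have h3 : |outW σ - LamW k| = (2 * r) * (1 / (2 * r) * |outW σ - LamW k|) := by
      field_simp
    calc |outW σ - LamW k| = (2 * r) * (1 / (2 * r) * |outW σ - LamW k|) := h3
      _ ≤ (2 * r) * Real.exp (1 / (2 * r) * |outW σ - LamW k|) := by
        apply mul_le_mul_of_nonneg_left _ (by positivity)
        linarith
  have h4 : ∑ σ : Equiv.Perm (Fin (k + 1)), |outW σ - LamW k| ≤
      (2 * r) * ∑ σ : Equiv.Perm (Fin (k + 1)), Real.exp (1 / (2 * r) * |outW σ - LamW k|) := by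
    rw [Finset.mul_sum]
    exact Finset.sum_le_sum fun σ _ => h1 σ
  have hexp : Real.exp 1 < 2.75 := lt_trans Real.exp_one_lt_d9 (by norm_num)
  have hf : (0 : ℝ) < ((k + 1).factorial : ℝ) := by exact_mod_cast Nat.factorial_pos _
  calc ∑ σ : Equiv.Perm (Fin (k + 1)), |outW σ - LamW k|
      ≤ (2 * r) * (2 * (((k + 1).factorial : ℝ) * Real.exp 1)) :=
        h4.trans (mul_le_mul_of_nonneg_left h (by positivity))
    _ = ((k + 1).factorial : ℝ) * (4 * Real.exp 1 * r) := by ring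
    _ ≤ ((k + 1).factorial : ℝ) * (11 * r) := by
      apply mul_le_mul_of_nonneg_left _ hf.le
      apply mul_le_mul_of_nonneg_right _ hr0.le
      linarith

theorem out_tail (k : ℕ) (hk : 1 ≤ k) (ε : ℝ) (hε : 0 < ε) :
    ∑ σ : Equiv.Perm (Fin (k + 1)), max (|outW σ / LamW k - 1| - ε) 0 ≤
      ((k + 1).factorial : ℝ) * (41472 / (ε * ((k : ℝ) + 1))
        * Real.exp (-(ε ^ 2 * ((k : ℝ) + 1) / 20736))) := by
  have hn : (0 : ℝ) < (k : ℝ) + 1 := by positivity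
  set n : ℝ := (k : ℝ) + 1 with hnd
  have hL := LamW_ge k hk
  rw [← hnd] at hL
  have hn4 : 0 < n ^ 4 / 36 := by positivity
  have hL0 : 0 < LamW k := lt_of_lt_of_le hn4 hL
  set Λ : ℝ := LamW k with hΛ
  have hf : (0 : ℝ) < ((k + 1).factorial : ℝ) := by exact_mod_cast Nat.factorial_pos _
  set lam : ℝ := ε * Λ / (8 * n ^ 7) with hlam
  have hlam0 : 0 < lam := by positivity
  have h := Conc_outexp k lam
  rw [← hnd, ← hΛ] at h
  have h1 : ∀ σ : Equiv.Perm (Fin (k + 1)), max (|outW σ / Λ - 1| - ε) 0 ≤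
      (1 / (Λ * lam) * Real.exp (-(lam * (ε * Λ)))) * Real.exp (lam * |outW σ - Λ|) := by
    intro σ
    have hx : |outW σ / Λ - 1| = |outW σ - Λ| / Λ := by
      rw [← abs_of_pos hL0, ← abs_div, abs_of_pos hL0, sub_div, div_self hL0.ne']
    rw [mul_assoc, ← Real.exp_add]
    have hpos : 0 ≤ 1 / (Λ * lam) * Real.exp (-(lam * (ε * Λ)) + lam * |outW σ - Λ|) := by positivity
    refine max_le ?_ hpos
    rw [hx]
    have h2 := Real.add_one_le_exp (-(lam * (ε * Λ)) + lam * |outW σ - Λ|)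
    have h3 : |outW σ - Λ| / Λ - ε = 1 / (Λ * lam) * (-(lam * (ε * Λ)) + lam * |outW σ - Λ|) := by
      field_simp
      ring
    rw [h3]
    apply mul_le_mul_of_nonneg_left _ (by positivity)
    linarith
  have h4 : ∑ σ : Equiv.Perm (Fin (k + 1)), max (|outW σ / Λ - 1| - ε) 0 ≤
      (1 / (Λ * lam) * Real.exp (-(lam * (ε * Λ)))) *
        ∑ σ : Equiv.Perm (Fin (k + 1)), Real.exp (lam * |outW σ - Λ|) := by
    rw [Finset.mul_sum]
    exact Finset.sum_le_sum fun σ _ => h1 σ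
  have h5 : (1 / (Λ * lam) * Real.exp (-(lam * (ε * Λ)))) *
        ∑ σ : Equiv.Perm (Fin (k + 1)), Real.exp (lam * |outW σ - Λ|) ≤
      (1 / (Λ * lam) * Real.exp (-(lam * (ε * Λ)))) *
        (2 * (((k + 1).factorial : ℝ) * Real.exp (4 * n ^ 7 * lam ^ 2))) :=
    mul_le_mul_of_nonneg_left h (by positivity)
  have h6 : (1 / (Λ * lam) * Real.exp (-(lam * (ε * Λ)))) *
        (2 * (((k + 1).factorial : ℝ) * Real.exp (4 * n ^ 7 * lam ^ 2))) =
      ((k + 1).factorial : ℝ) * (2 / (Λ * lam) * Real.exp (-(ε ^ 2 * Λ ^ 2 / (16 * n ^ 7)))) := by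
    have e1 : -(ε ^ 2 * Λ ^ 2 / (16 * n ^ 7)) = -(lam * (ε * Λ)) + 4 * n ^ 7 * lam ^ 2 := by
      rw [hlam]
      field_simp
      ring
    rw [e1, Real.exp_add]
    ring
  have hΛ2 : n ^ 8 / 1296 ≤ Λ ^ 2 := by
    have := mul_self_le_mul_self hn4.le hL
    have e : n ^ 4 / 36 * (n ^ 4 / 36) = n ^ 8 / 1296 := by ring
    rw [e] at this
    rw [pow_two]
    exact this
  have h7 : Real.exp (-(ε ^ 2 * Λ ^ 2 / (16 * n ^ 7))) ≤ Real.exp (-(ε ^ 2 * n / 20736)) := by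
    apply Real.exp_le_exp.2
    apply neg_le_neg
    have e : ε ^ 2 * n / 20736 = ε ^ 2 * (n ^ 8 / 1296) / (16 * n ^ 7) := by
      field_simp
      norm_num
    rw [e]
    apply div_le_div_of_nonneg_right _ (by positivity)
    exact mul_le_mul_of_nonneg_left hΛ2 (by positivity)
  have h8 : 2 / (Λ * lam) ≤ 41472 / (ε * n) := by
    have e : 2 / (Λ * lam) = 16 * n ^ 7 / (ε * Λ ^ 2) := by
      rw [hlam]
      field_simp
      ring
    rw [e, div_le_div_iff₀ (by positivity) (by positivity)]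
    have h9 : 0 ≤ ε * (Λ ^ 2 - n ^ 8 / 1296) := mul_nonneg hε.le (by linarith)
    have h10 : 0 ≤ ε * n ^ 8 := by positivity
    nlinarith only [h9, h10]
  calc ∑ σ : Equiv.Perm (Fin (k + 1)), max (|outW σ / Λ - 1| - ε) 0
      ≤ ((k + 1).factorial : ℝ) * (2 / (Λ * lam) * Real.exp (-(ε ^ 2 * Λ ^ 2 / (16 * n ^ 7)))) :=
        h4.trans (h5.trans (le_of_eq h6))
    _ ≤ ((k + 1).factorial : ℝ) * (41472 / (ε * n) * Real.exp (-(ε ^ 2 * n / 20736))) := by
      apply mul_le_mul_of_nonneg_left _ hf.le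
      exact mul_le_mul h8 h7 (Real.exp_pos _).le (by positivity)

theorem TW_L1 (k : ℕ) :
    ∑ σ : Equiv.Perm (Fin (k + 1)), |TW σ| ≤ ((k + 1).factorial : ℝ) * ((k : ℝ) + 1) ^ 2 := by
  have h1 := sq_sum_le_card_mul_sum_sq (s := (Finset.univ : Finset (Equiv.Perm (Fin (k + 1)))))
    (f := fun σ => |TW σ|)
  have h2 : ((Finset.univ : Finset (Equiv.Perm (Fin (k + 1)))).card : ℝ) = ((k + 1).factorial : ℝ) := by
    rw [Finset.card_univ, Fintype.card_perm, Fintype.card_fin]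
  rw [h2] at h1
  simp only [sq_abs] at h1
  have h3 := TW_sq k
  have hf : (0 : ℝ) < ((k + 1).factorial : ℝ) := by exact_mod_cast Nat.factorial_pos _
  have h4 : (∑ σ : Equiv.Perm (Fin (k + 1)), |TW σ|) ^ 2 ≤
      (((k + 1).factorial : ℝ) * ((k : ℝ) + 1) ^ 2) ^ 2 := by
    refine h1.trans ((mul_le_mul_of_nonneg_left h3 hf.le).trans (le_of_eq ?_))
    ring
  exact le_of_sq_le_sq h4 (by positivity)

theorem Conc_inv_sum (k : ℕ) :
    ∑ σ : Equiv.Perm (Fin (k + 1)), (((k : ℝ) + 1) * k / 2 - 2 * (inv σ : ℝ)) = 0 := by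
  have h1 : ∑ σ : Equiv.Perm (Fin (k + 1)), (inv σ : ℝ) =
      ∑ σ : Equiv.Perm (Fin (k + 1)), (inv (σ * Fin.revPerm) : ℝ) :=
    (Equiv.sum_comp (Equiv.mulRight (Fin.revPerm : Equiv.Perm (Fin (k + 1)))) (fun σ => (inv σ : ℝ))).symm
  have h2 : ∀ σ : Equiv.Perm (Fin (k + 1)), (inv σ : ℝ) + (inv (σ * Fin.revPerm) : ℝ) =
      ((k : ℝ) + 1) * k / 2 := by
    intro σ
    have h3 := inv_rev σ
    have h4 : (k + 1) * (k + 1 - 1) / 2 * 2 = (k + 1) * k := by
      rw [Nat.add_sub_cancel]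
      exact Nat.div_mul_cancel (by
        have := Nat.even_mul_succ_self k
        rw [mul_comm]
        exact this.two_dvd)
    have h5 : (inv σ + inv (σ * Fin.revPerm)) * 2 = (k + 1) * k := by rw [h3, h4]
    have h6 : (((inv σ + inv (σ * Fin.revPerm)) * 2 : ℕ) : ℝ) = (((k + 1) * k : ℕ) : ℝ) := by rw [h5]
    push_cast at h6
    linarith
  have h3 : ∑ σ : Equiv.Perm (Fin (k + 1)), (((k : ℝ) + 1) * k / 2 - 2 * (inv σ : ℝ)) =
      ∑ σ : Equiv.Perm (Fin (k + 1)), ((inv (σ * Fin.revPerm) : ℝ) - (inv σ : ℝ)) := by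
    refine Finset.sum_congr rfl fun σ _ => ?_
    rw [← h2 σ]
    ring
  rw [h3, Finset.sum_sub_distrib, h1, sub_self]

theorem inv_tail (k : ℕ) (R : ℝ) (hR : 0 ≤ R) :
    ((Finset.univ.filter (fun σ : Equiv.Perm (Fin (k + 1)) =>
      R ≤ |((k : ℝ) + 1) * k / 2 - 2 * (inv σ : ℝ)|)).card : ℝ) ≤
      ((k + 1).factorial : ℝ) * (2 * Real.exp (-(R ^ 2 / (256 * ((k : ℝ) + 1) ^ 3)))) := by
  have hn : (0 : ℝ) < (k : ℝ) + 1 := by positivity
  set n : ℝ := (k : ℝ) + 1 with hnd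
  set F : Equiv.Perm (Fin (k + 1)) → ℝ := fun σ => n * k / 2 - 2 * (inv σ : ℝ) with hF
  have hlip : ∀ (σ : Equiv.Perm (Fin (k + 1))) (p q : Fin (k + 1)),
      |F (σ * Equiv.swap p q) - F σ| ≤ 4 * n := by
    intro σ p q
    have h := inv_lip σ p q
    have e : F (σ * Equiv.swap p q) - F σ = -(2 * ((inv (σ * Equiv.swap p q) : ℝ) - (inv σ : ℝ))) := by
      simp only [hF]
      ring
    rw [e, abs_neg, abs_mul, abs_of_pos (by norm_num : (0 : ℝ) < 2)]
    push_cast at h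
    rw [hnd]
    linarith
  have hmean : ∑ σ, F σ = ((k + 1).factorial : ℝ) * 0 := by
    rw [mul_zero]
    exact Conc_inv_sum k
  set lam : ℝ := R / (128 * n ^ 3) with hlam
  have hlam0 : 0 ≤ lam := by positivity
  have key : ∀ l : ℝ, l ^ 2 = lam ^ 2 →
      ∑ σ : Equiv.Perm (Fin (k + 1)), Real.exp (l * F σ) ≤
        ((k + 1).factorial : ℝ) * Real.exp (64 * n ^ 3 * lam ^ 2) := by
    intro l hl
    have h := subG (k + 1) F (4 * n) (by positivity) hlip 0 hmean l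
    simp only [sub_zero] at h
    refine h.trans (le_of_eq ?_)
    congr 2
    rw [hl]
    push_cast
    rw [← hnd]
    ring
  have h := Conc_exp2 Finset.univ F lam _ (key lam rfl) (key (-lam) (by ring))
  have h1 : ((Finset.univ.filter (fun σ : Equiv.Perm (Fin (k + 1)) =>
      R ≤ |n * k / 2 - 2 * (inv σ : ℝ)|)).card : ℝ) * Real.exp (lam * R) ≤
      ∑ σ : Equiv.Perm (Fin (k + 1)), Real.exp (lam * |F σ|) := by
    rw [← nsmul_eq_mul, ← Finset.sum_const]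
    refine (Finset.sum_le_sum fun σ hσ => ?_).trans
      (Finset.sum_le_sum_of_subset_of_nonneg (Finset.filter_subset _ _) fun σ _ _ => (Real.exp_pos _).le)
    exact Real.exp_le_exp.2 (mul_le_mul_of_nonneg_left (Finset.mem_filter.1 hσ).2 hlam0)
  have h2 := h1.trans h
  have h3 : 2 * (((k + 1).factorial : ℝ) * Real.exp (64 * n ^ 3 * lam ^ 2)) =
      (((k + 1).factorial : ℝ) * (2 * Real.exp (-(R ^ 2 / (256 * n ^ 3))))) * Real.exp (lam * R) := by
    have e : 64 * n ^ 3 * lam ^ 2 = -(R ^ 2 / (256 * n ^ 3)) + lam * R := by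
      rw [hlam]
      field_simp
      ring
    rw [e, Real.exp_add]
    ring
  rw [h3] at h2
  exact le_of_mul_le_mul_right h2 (Real.exp_pos _)

end Pool.Agent.SCW
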