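import Mathlib
import Pool.Agent.SCW.Def
import Pool.Agent.SCW.Perm
import Pool.Agent.SCW.OutIn
import Pool.Agent.SCW.TSq
import Pool.Agent.SCW.Mean
import Pool.Agent.SCW.Conc

set_option autoImplicit false

open scoped BigOperators

namespace Pool.Agent.SCW

/-- Relative growth rate of the rank sizes at rank `r`. -/
noncomputable def thW (k : ℕ) (r : ℕ) : ℝ :=
  (((k : ℝ) + 1) / 2) * (((k : ℝ) + 1) * k / 2 - 2 * (r : ℝ)) / LamW k

private lemma GSum_N (k : ℕ) : (((wP k).N : ℕ) : ℝ) = ((k : ℝ) + 1) * k / 2 := by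
  have h2 : 2 * (wP k).N = (k + 1) * k := by
    change 2 * ((k + 1) * (k + 1 - 1) / 2) = (k + 1) * k
    rw [Nat.add_sub_cancel, mul_comm (k + 1) k]
    exact Nat.mul_div_cancel' (Nat.even_mul_succ_self k).two_dvd
  have h3 : (2 : ℝ) * ((wP k).N : ℝ) = ((k : ℝ) + 1) * k := by exact_mod_cast h2
  linarith

private lemma GSum_Lam_pos (k : ℕ) (hk : 1 ≤ k) : 0 < LamW k :=
  lt_of_lt_of_le (by positivity) (LamW_ge k hk)

theorem thW_bd (k : ℕ) (hk : 1 ≤ k) (h r : ℕ) (h1 : (wP k).N / 2 - h ≤ r) (h2 : r ≤ (wP k).N / 2) :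
    0 ≤ thW k r ∧ thW k r ≤ 18 * (2 * (h : ℝ) + 1) / ((k : ℝ) + 1) ^ 3 := by
  have hN := GSum_N k
  have hL := GSum_Lam_pos k hk
  have hLge := LamW_ge k hk
  have hK : (0 : ℝ) < (k : ℝ) + 1 := by positivity
  have a1 : 2 * r ≤ (wP k).N := by omega
  have a2 : (wP k).N ≤ 2 * r + (2 * h + 1) := by omega
  have b1 : (2 : ℝ) * r ≤ ((wP k).N : ℝ) := by exact_mod_cast a1
  have b2 : ((wP k).N : ℝ) ≤ 2 * r + (2 * h + 1) := by exact_mod_cast a2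
  rw [hN] at b1 b2
  constructor
  · unfold thW
    apply div_nonneg _ hL.le
    apply mul_nonneg (by positivity)
    linarith
  · unfold thW
    have hX0 : 0 ≤ ((k : ℝ) + 1) * k / 2 - 2 * (r : ℝ) := by linarith
    have hX1 : ((k : ℝ) + 1) * k / 2 - 2 * (r : ℝ) ≤ 2 * (h : ℝ) + 1 := by linarith
    calc (((k : ℝ) + 1) / 2) * (((k : ℝ) + 1) * k / 2 - 2 * (r : ℝ)) / LamW k
        ≤ (((k : ℝ) + 1) / 2) * (2 * (h : ℝ) + 1) / (((k : ℝ) + 1) ^ 4 / 36) := by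
          gcongr
      _ = 18 * (2 * (h : ℝ) + 1) / ((k : ℝ) + 1) ^ 3 := by
          field_simp
          ring

private lemma GSum_diff (k : ℕ) (hk : 1 ≤ k) (v : Equiv.Perm (Fin (k + 1))) :
    (wP k).out v - (wP k).inn v - thW k ((wP k).rk v) * LamW k = TW v := by
  have hL := (GSum_Lam_pos k hk).ne'
  rw [out_eq, inn_eq, outW_sub_innW]
  unfold TW thW
  rw [div_mul_cancel₀ _ hL]
  rfl

private lemma GSum_pt (k : ℕ) (hk : 1 ≤ k) (h : ℕ) (ε : ℝ) (v : Equiv.Perm (Fin (k + 1)))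
    (hv : v ∈ (wP k).Rg ((wP k).N / 2 - h) ((wP k).N / 2)) :
    (wP k).G (thW k) (LamW k) ε v ≤
      (18 * (2 * (h : ℝ) + 1) / ((k : ℝ) + 1) ^ 3 * |outW v - LamW k| + |TW v|)
        * (36 / ((k : ℝ) + 1) ^ 4) + 2 * max (|outW v / LamW k - 1| - ε) 0 := by
  have hv' : (wP k).N / 2 - h ≤ (wP k).rk v ∧ (wP k).rk v ≤ (wP k).N / 2 := by
    simpa [FP.Rg] using hv
  obtain ⟨t0, t1⟩ := thW_bd k hk h _ hv'.1 hv'.2
  have hL := GSum_Lam_pos k hk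
  have hLge := LamW_ge k hk
  have hK : (0 : ℝ) < (k : ℝ) + 1 := by positivity
  unfold FP.G
  rw [GSum_diff k hk v, out_eq]
  have hnum : 0 ≤ 18 * (2 * (h : ℝ) + 1) / ((k : ℝ) + 1) ^ 3 * |outW v - LamW k| + |TW v| := by
    positivity
  have e1 : thW k ((wP k).rk v) * |outW v - LamW k| + |TW v| ≤
      18 * (2 * (h : ℝ) + 1) / ((k : ℝ) + 1) ^ 3 * |outW v - LamW k| + |TW v| := by
    have := mul_le_mul_of_nonneg_right t1 (abs_nonneg (outW v - LamW k))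
    linarith
  have e2 : (thW k ((wP k).rk v) * |outW v - LamW k| + |TW v|) / LamW k ≤
      (18 * (2 * (h : ℝ) + 1) / ((k : ℝ) + 1) ^ 3 * |outW v - LamW k| + |TW v|)
        * (36 / ((k : ℝ) + 1) ^ 4) := by
    calc (thW k ((wP k).rk v) * |outW v - LamW k| + |TW v|) / LamW k
        ≤ (18 * (2 * (h : ℝ) + 1) / ((k : ℝ) + 1) ^ 3 * |outW v - LamW k| + |TW v|) / LamW k :=
          div_le_div_of_nonneg_right e1 hL.le
      _ ≤ (18 * (2 * (h : ℝ) + 1) / ((k : ℝ) + 1) ^ 3 * |outW v - LamW k| + |TW v|)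
          / (((k : ℝ) + 1) ^ 4 / 36) :=
          div_le_div_of_nonneg_left hnum (by positivity) hLge
      _ = _ := by rw [div_eq_mul_inv, inv_div]
  linarith

theorem gsum (k : ℕ) (hk : 1 ≤ k) (h : ℕ) (ε : ℝ) (hε : 0 < ε) :
    ∑ v ∈ (wP k).Rg ((wP k).N / 2 - h) ((wP k).N / 2), (wP k).G (thW k) (LamW k) ε v ≤
      ((k + 1).factorial : ℝ) * (7128 * (2 * (h : ℝ) + 1) / ((k : ℝ) + 1) ^ ((7 : ℝ) / 2)
        + 36 / ((k : ℝ) + 1) ^ 2
        + 82944 / (ε * ((k : ℝ) + 1)) * Real.exp (-(ε ^ 2 * ((k : ℝ) + 1) / 20736))) := by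
  have hK : (0 : ℝ) < (k : ℝ) + 1 := by positivity
  set B : ℝ := 18 * (2 * (h : ℝ) + 1) / ((k : ℝ) + 1) ^ 3 with hB
  have hB0 : 0 ≤ B := by positivity
  have s1 : ∑ v ∈ (wP k).Rg ((wP k).N / 2 - h) ((wP k).N / 2), (wP k).G (thW k) (LamW k) ε v ≤
      ∑ v : Equiv.Perm (Fin (k + 1)), ((B * |outW v - LamW k| + |TW v|)
        * (36 / ((k : ℝ) + 1) ^ 4) + 2 * max (|outW v / LamW k - 1| - ε) 0) := by
    refine (Finset.sum_le_sum (fun v hv => GSum_pt k hk h ε v hv)).trans ?_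
    refine Finset.sum_le_sum_of_subset_of_nonneg (Finset.subset_univ _) (fun v _ _ => ?_)
    have : 0 ≤ max (|outW v / LamW k - 1| - ε) 0 := le_max_right _ _
    positivity
  have s2 : ∑ v : Equiv.Perm (Fin (k + 1)), ((B * |outW v - LamW k| + |TW v|)
        * (36 / ((k : ℝ) + 1) ^ 4) + 2 * max (|outW v / LamW k - 1| - ε) 0)
      = (B * ∑ v : Equiv.Perm (Fin (k + 1)), |outW v - LamW k|
          + ∑ v : Equiv.Perm (Fin (k + 1)), |TW v|) * (36 / ((k : ℝ) + 1) ^ 4)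
        + 2 * ∑ v : Equiv.Perm (Fin (k + 1)), max (|outW v / LamW k - 1| - ε) 0 := by
    rw [Finset.sum_add_distrib, ← Finset.sum_mul, Finset.sum_add_distrib, ← Finset.mul_sum,
      ← Finset.mul_sum]
  have hpow : ((k : ℝ) + 1) ^ ((7 : ℝ) / 2) * ((k : ℝ) + 1) ^ ((7 : ℝ) / 2) = ((k : ℝ) + 1) ^ 7 := by
    rw [← Real.rpow_add hK, ← Real.rpow_natCast]
    norm_num
  have hp0 : 0 < ((k : ℝ) + 1) ^ ((7 : ℝ) / 2) := Real.rpow_pos_of_pos hK _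
  have a1 := out_L1 k
  have a2 := TW_L1 k
  have a3 := out_tail k hk ε hε
  have t1 : B * ∑ v : Equiv.Perm (Fin (k + 1)), |outW v - LamW k| ≤
      B * (((k + 1).factorial : ℝ) * (11 * ((k : ℝ) + 1) ^ ((7 : ℝ) / 2))) :=
    mul_le_mul_of_nonneg_left a1 hB0
  have t2 : (B * ∑ v : Equiv.Perm (Fin (k + 1)), |outW v - LamW k|
          + ∑ v : Equiv.Perm (Fin (k + 1)), |TW v|) * (36 / ((k : ℝ) + 1) ^ 4) ≤
      (B * (((k + 1).factorial : ℝ) * (11 * ((k : ℝ) + 1) ^ ((7 : ℝ) / 2)))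
        + ((k + 1).factorial : ℝ) * ((k : ℝ) + 1) ^ 2) * (36 / ((k : ℝ) + 1) ^ 4) := by
    refine mul_le_mul_of_nonneg_right (by linarith) (by positivity)
  have t3 : B * (11 * ((k : ℝ) + 1) ^ ((7 : ℝ) / 2)) * (36 / ((k : ℝ) + 1) ^ 4)
      = 7128 * (2 * (h : ℝ) + 1) / ((k : ℝ) + 1) ^ ((7 : ℝ) / 2) := by
    rw [hB, eq_div_iff hp0.ne']
    have : 18 * (2 * (h : ℝ) + 1) / ((k : ℝ) + 1) ^ 3 * (11 * ((k : ℝ) + 1) ^ ((7 : ℝ) / 2))
        * (36 / ((k : ℝ) + 1) ^ 4) * ((k : ℝ) + 1) ^ ((7 : ℝ) / 2)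
        = 7128 * (2 * (h : ℝ) + 1)
          * (((k : ℝ) + 1) ^ ((7 : ℝ) / 2) * ((k : ℝ) + 1) ^ ((7 : ℝ) / 2)) / ((k : ℝ) + 1) ^ 7 := by
      field_simp
      ring
    rw [this, hpow]
    field_simp
  have t4 : (B * (((k + 1).factorial : ℝ) * (11 * ((k : ℝ) + 1) ^ ((7 : ℝ) / 2)))
        + ((k + 1).factorial : ℝ) * ((k : ℝ) + 1) ^ 2) * (36 / ((k : ℝ) + 1) ^ 4)
      = ((k + 1).factorial : ℝ) * (7128 * (2 * (h : ℝ) + 1) / ((k : ℝ) + 1) ^ ((7 : ℝ) / 2)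
        + 36 / ((k : ℝ) + 1) ^ 2) := by
    rw [← t3]
    field_simp
  rw [s2] at s1
  have t5 : 2 * ∑ v : Equiv.Perm (Fin (k + 1)), max (|outW v / LamW k - 1| - ε) 0 ≤
      ((k + 1).factorial : ℝ) * (82944 / (ε * ((k : ℝ) + 1))
        * Real.exp (-(ε ^ 2 * ((k : ℝ) + 1) / 20736))) := by
    calc 2 * ∑ v : Equiv.Perm (Fin (k + 1)), max (|outW v / LamW k - 1| - ε) 0
        ≤ 2 * (((k + 1).factorial : ℝ) * (41472 / (ε * ((k : ℝ) + 1))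
        * Real.exp (-(ε ^ 2 * ((k : ℝ) + 1) / 20736)))) := by linarith
      _ = _ := by ring
  rw [t4] at t2
  calc _ ≤ _ := s1
    _ ≤ _ := add_le_add t2 t5
    _ = _ := by ring

end Pool.Agent.SCW
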