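import Mathlib

set_option autoImplicit false

open scoped BigOperators

namespace Pool.Agent.SCW

/-- Hall's theorem with deficiency from an approximate fractional matching: the total violation of
row sums at least 1 and column sums at most 1 bounds the number of extra right vertices needed. -/
theorem hall_def {ι β : Type} [Fintype ι] [Fintype β] [DecidableEq ι] [DecidableEq β]
    (R : ι → β → Prop) (x : ι → β → ℝ) (hx0 : ∀ i b, 0 ≤ x i b) (hxR : ∀ i b, x i b ≠ 0 → R i b)
    (d : ℕ)
    (hd : (∑ i, max (1 - ∑ b, x i b) 0) + ∑ b, max ((∑ i, x i b) - 1) 0 < (d : ℝ) + 1) :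
    ∃ M : ι → β ⊕ Fin d, Function.Injective M ∧ ∀ i b, M i = Sum.inl b → R i b := by
  classical
  obtain ⟨M, hM1, hM2⟩ := (Finset.all_card_le_biUnion_card_iff_exists_injective
    (fun i : ι => (Finset.univ.filter (R i)).image (Sum.inl : β → β ⊕ Fin d) ∪
      Finset.univ.image (Sum.inr : Fin d → β ⊕ Fin d))).1 (by
      intro A
      rcases A.eq_empty_or_nonempty with rfl | ⟨i0, hi0⟩
      · simp
      obtain ⟨N, hN⟩ : ∃ N : Finset β, N = Finset.univ.filter (fun b => ∃ i ∈ A, R i b) :=
        ⟨_, rfl⟩
      have hNm : ∀ b, b ∈ N ↔ ∃ i ∈ A, R i b := by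
        intro b
        rw [hN, Finset.mem_filter]
        exact ⟨fun h => h.2, fun h => ⟨Finset.mem_univ _, h⟩⟩
      have h1 : N.image (Sum.inl : β → β ⊕ Fin d) ∪
          Finset.univ.image (Sum.inr : Fin d → β ⊕ Fin d) ⊆
          A.biUnion (fun i : ι => (Finset.univ.filter (R i)).image (Sum.inl : β → β ⊕ Fin d) ∪
            Finset.univ.image (Sum.inr : Fin d → β ⊕ Fin d)) := by
        intro y hy
        rw [Finset.mem_biUnion]
        rcases Finset.mem_union.1 hy with h | h
        · obtain ⟨b, hb, rfl⟩ := Finset.mem_image.1 h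
          obtain ⟨i, hi, hR⟩ := (hNm b).1 hb
          exact ⟨i, hi, Finset.mem_union_left _ (Finset.mem_image_of_mem _
            (Finset.mem_filter.2 ⟨Finset.mem_univ _, hR⟩))⟩
        · exact ⟨i0, hi0, Finset.mem_union_right _ h⟩
      have h2 : (N.image (Sum.inl : β → β ⊕ Fin d) ∪
          Finset.univ.image (Sum.inr : Fin d → β ⊕ Fin d)).card = N.card + d := by
        rw [Finset.card_union_of_disjoint, Finset.card_image_of_injective _ Sum.inl_injective,
          Finset.card_image_of_injective _ Sum.inr_injective, Finset.card_univ, Fintype.card_fin]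
        rw [Finset.disjoint_left]
        intro y hy hy'
        obtain ⟨b, -, rfl⟩ := Finset.mem_image.1 hy
        obtain ⟨c, -, hc⟩ := Finset.mem_image.1 hy'
        exact absurd hc (by simp)
      refine le_trans ?_ (h2 ▸ Finset.card_le_card h1)
      by_contra hcon
      push Not at hcon
      have hcon' : ((N.card : ℝ) + d) + 1 ≤ (A.card : ℝ) := by exact_mod_cast hcon
      have e1 : ∑ i ∈ A, (1 - ∑ b, x i b) ≤ ∑ i, max (1 - ∑ b, x i b) 0 := by
        refine (Finset.sum_le_sum fun i _ => le_max_left _ (0 : ℝ)).trans ?_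
        exact Finset.sum_le_sum_of_subset_of_nonneg (Finset.subset_univ _)
          fun i _ _ => le_max_right _ _
      have e2 : ∑ b ∈ N, ((∑ i, x i b) - 1) ≤ ∑ b, max ((∑ i, x i b) - 1) 0 := by
        refine (Finset.sum_le_sum fun b _ => le_max_left _ (0 : ℝ)).trans ?_
        exact Finset.sum_le_sum_of_subset_of_nonneg (Finset.subset_univ _)
          fun b _ _ => le_max_right _ _
      have e3 : ∑ i ∈ A, ∑ b, x i b = ∑ i ∈ A, ∑ b ∈ N, x i b := by
        refine Finset.sum_congr rfl fun i hi => ?_
        refine (Finset.sum_subset (Finset.subset_univ _) ?_).symm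
        intro b _ hb
        by_contra hne
        exact hb ((hNm b).2 ⟨i, hi, hxR i b hne⟩)
      have e4 : ∑ i ∈ A, ∑ b ∈ N, x i b ≤ ∑ b ∈ N, ∑ i, x i b := by
        rw [Finset.sum_comm]
        refine Finset.sum_le_sum fun b _ => ?_
        exact Finset.sum_le_sum_of_subset_of_nonneg (Finset.subset_univ _)
          fun i _ _ => hx0 i b
      rw [Finset.sum_sub_distrib, Finset.sum_const, nsmul_eq_mul, mul_one] at e1 e2
      linarith)
  refine ⟨M, hM1, fun i b h => ?_⟩
  have h1 := hM2 i
  rw [h] at h1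
  rcases Finset.mem_union.1 h1 with h2 | h2
  · obtain ⟨b', hb', hbb⟩ := Finset.mem_image.1 h2
    have h3 : b' = b := Sum.inl_injective hbb
    rw [← h3]
    exact (Finset.mem_filter.1 hb').2
  · obtain ⟨c, -, hc⟩ := Finset.mem_image.1 h2
    exact absurd hc (by simp)

end Pool.Agent.SCW
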