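import Mathlib
import Pool.Agent.SCW.Def
import Pool.Agent.SCW.Hall

set_option autoImplicit false

open scoped BigOperators

namespace Pool.Agent.SCW

/-- A family of chains of length one or two in the middle. -/
theorem base_fam {α : Type} [Fintype α] [DecidableEq α] (P : FP α)
    (m p : ℕ) (h1 : 2 * m ≤ P.N) (h2 : P.N ≤ 2 * m + 1) (e g : Fin p → α)
    (he : ∀ i, P.rk (e i) = m) (hei : Function.Injective e)
    (hg : P.N = 2 * m + 1 → (∀ i, P.rk (g i) = m + 1) ∧ (∀ i, P.cov (e i) (g i)) ∧
      Function.Injective g) :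
    P.Fam m p ((P.N + 1 - 2 * m) * p) := by
  refine ⟨p, fun _ => m, fun i r => if r = m then e i else g i, fun i => ⟨le_rfl, h1⟩, ?_, ?_, ?_,
    ?_, ?_⟩
  · intro i r hr1 hr2
    beta_reduce at hr1 hr2
    by_cases hr : r = m
    · simp [hr, he]
    · have h3 : P.N = 2 * m + 1 := by omega
      have h4 : r = m + 1 := by omega
      simp [(hg h3).1 i, h4]
  · intro i r hr1 hr2
    beta_reduce at hr1 hr2
    have h3 : P.N = 2 * m + 1 := by omega
    have h4 : r = m := by omega
    subst h4
    simp [(hg h3).2.1 i]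
  · intro i j r hr1 hr2 _ _ hc
    beta_reduce at hr1 hr2
    by_cases hr : r = m
    · simp only [hr, if_true] at hc
      exact hei hc
    · have h3 : P.N = 2 * m + 1 := by omega
      simp only [hr, if_false] at hc
      exact (hg h3).2.2 hc
  · simp
  · simp [mul_comm]

theorem base_G_nonneg {α : Type} [Fintype α] [DecidableEq α] (P : FP α)
    (m : ℕ) (θ : ℕ → ℝ) (Λ ε : ℝ) (hΛ : 0 < Λ) (hθ : 0 ≤ θ m) (v : α) (hv : P.rk v = m) :
    2 * max (|P.out v / Λ - 1| - ε) 0 ≤ P.G θ Λ ε v := by
  unfold FP.G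
  rw [hv]
  have h1 : 0 ≤ (θ m * |P.out v - Λ| + |P.out v - P.inn v - θ m * Λ|) / Λ := by positivity
  linarith

theorem base_inn {α : Type} [Fintype α] [DecidableEq α] (P : FP α) (w : α) :
    P.inn w = P.out (P.bar w) := by
  unfold FP.inn FP.out
  have hb : Function.Bijective P.bar :=
    Function.Involutive.bijective P.bar_bar
  rw [← Function.Bijective.sum_comp hb (fun u => P.f (P.bar w) u)]
  exact Finset.sum_congr rfl fun u _ => (P.f_bar u w).symm

theorem base_card {ι β : Type} [Fintype ι] [Fintype β] [DecidableEq ι] [DecidableEq β] (d : ℕ)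
    (M : ι → β ⊕ Fin d) (hM : Function.Injective M) :
    Fintype.card ι ≤ Fintype.card {v : ι // ∃ w, M v = Sum.inl w} + d := by
  have h1 : Fintype.card ι = Fintype.card {v : ι // ∃ w, M v = Sum.inl w} +
      Fintype.card {v : ι // ¬ ∃ w, M v = Sum.inl w} := by
    rw [← Fintype.card_sum]
    exact Fintype.card_congr (Equiv.sumCompl _).symm
  have h2 : ∀ v : {v : ι // ¬ ∃ w, M v = Sum.inl w}, ∃ j : Fin d, M v.1 = Sum.inr j := by
    intro v
    rcases h : M v.1 with w | j
    · exact absurd ⟨w, h⟩ v.2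
    · exact ⟨j, rfl⟩
  choose j hj using h2
  have h3 : Fintype.card {v : ι // ¬ ∃ w, M v = Sum.inl w} ≤ Fintype.card (Fin d) := by
    refine Fintype.card_le_of_injective j fun a b hab => ?_
    apply Subtype.ext
    apply hM
    rw [hj a, hj b, hab]
  rw [Fintype.card_fin] at h3
  omega

/-- The middle: singletons (N even) or a near-perfect matching of the two middle ranks (N odd). -/
theorem base {α : Type} [Fintype α] [DecidableEq α] (P : FP α)
    (m : ℕ) (hm : 2 * m = P.N ∨ 2 * m + 1 = P.N)
    (θ : ℕ → ℝ) (Λ ε : ℝ) (hΛ : 0 < Λ) (hε : 0 < ε) (hθ : 0 ≤ θ m) :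
    ∃ u : ℕ, P.Fam m u ((P.N + 1 - 2 * m) * u) ∧
      (P.M m : ℝ) - u ≤ 2 * ε * P.M m + ∑ v ∈ P.Rg m m, P.G θ Λ ε v := by
  classical
  have hE : ∀ v, 0 ≤ max (|P.out v / Λ - 1| - ε) 0 := fun v => le_max_right _ _
  have hRg : ∀ v ∈ P.Rg m m, P.rk v = m := by
    intro v hv
    unfold FP.Rg at hv
    rw [Finset.mem_filter] at hv
    omega
  have hGs : 2 * ∑ v ∈ P.Rg m m, max (|P.out v / Λ - 1| - ε) 0 ≤ ∑ v ∈ P.Rg m m, P.G θ Λ ε v := by
    rw [Finset.mul_sum]
    exact Finset.sum_le_sum fun v hv => base_G_nonneg P m θ Λ ε hΛ hθ v (hRg v hv)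
  have hG0 : 0 ≤ ∑ v ∈ P.Rg m m, P.G θ Λ ε v :=
    le_trans (by have := Finset.sum_nonneg (s := P.Rg m m) (fun v _ => hE v); linarith) hGs
  have hMcard : P.M m = Fintype.card {v : α // P.rk v = m} := by
    unfold FP.M
    rw [Fintype.card_subtype]
  rcases hm with hm | hm
  · refine ⟨P.M m, ?_, ?_⟩
    · rw [hMcard]
      let e := (Fintype.equivFin {v : α // P.rk v = m}).symm
      refine base_fam P m _ (by omega) (by omega) (fun i => (e i).1) (fun i => (e i).1)
        (fun i => (e i).2) (fun i j hij => e.injective (Subtype.ext hij)) (fun h => ?_)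
      omega
    · have : 0 ≤ 2 * ε * (P.M m : ℝ) := by positivity
      linarith
  · -- odd case
    have hΛ' : 0 < (1 + ε) * Λ := by positivity
    let x : {v : α // P.rk v = m} → {w : α // P.rk w = m + 1} → ℝ :=
      fun v w => P.f v.1 w.1 / ((1 + ε) * Λ)
    have hx0 : ∀ i b, 0 ≤ x i b := fun i b => div_nonneg (P.f_nonneg _ _) hΛ'.le
    have hxR : ∀ i b, x i b ≠ 0 → P.cov i.1 b.1 := by
      intro i b h
      apply P.f_cov
      intro h0
      apply h
      simp only [x, h0, zero_div]
    have hrow : ∀ v : {v : α // P.rk v = m}, ∑ w, x v w = P.out v.1 / ((1 + ε) * Λ) := by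
      intro v
      simp only [x]
      rw [← Finset.sum_div]
      congr 1
      unfold FP.out
      rw [← Finset.sum_subtype (Finset.univ.filter (fun w => P.rk w = m + 1)) (by simp)
        (fun w => P.f v.1 w)]
      apply Finset.sum_subset (Finset.filter_subset _ _)
      intro w _ hw
      by_contra h
      apply hw
      rw [Finset.mem_filter]
      refine ⟨Finset.mem_univ _, ?_⟩
      rw [P.cov_rk _ _ (P.f_cov _ _ h), v.2]
    have hcol : ∀ w : {w : α // P.rk w = m + 1},
        ∑ v, x v w = P.out (P.bar w.1) / ((1 + ε) * Λ) := by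
      intro w
      simp only [x]
      rw [← Finset.sum_div, ← base_inn]
      congr 1
      unfold FP.inn
      rw [← Finset.sum_subtype (Finset.univ.filter (fun v => P.rk v = m)) (by simp)
        (fun v => P.f v w.1)]
      apply Finset.sum_subset (Finset.filter_subset _ _)
      intro v _ hv
      by_contra h
      apply hv
      rw [Finset.mem_filter]
      refine ⟨Finset.mem_univ _, ?_⟩
      have := P.cov_rk _ _ (P.f_cov _ _ h)
      have := w.2
      omega
    have key : ∀ v, |P.out v / Λ - 1| ≤ ε + max (|P.out v / Λ - 1| - ε) 0 := by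
      intro v
      have := le_max_left (|P.out v / Λ - 1| - ε) 0
      linarith
    have hdiv : ∀ v, P.out v / ((1 + ε) * Λ) = P.out v / Λ / (1 + ε) := by
      intro v
      field_simp
    have hrow2 : ∀ v : {v : α // P.rk v = m}, max (1 - ∑ w, x v w) 0 ≤
        2 * ε + max (|P.out v.1 / Λ - 1| - ε) 0 := by
      intro v
      rw [hrow, hdiv]
      have h1 := key v.1
      have h2 := hE v.1
      generalize max (|P.out v.1 / Λ - 1| - ε) 0 = E at h1 h2 ⊢
      generalize P.out v.1 / Λ = o at h1 ⊢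
      have h3 := (abs_le.mp h1).1
      refine max_le ?_ (by linarith)
      have h4 : 1 - o / (1 + ε) = (1 + ε - o) / (1 + ε) := by field_simp
      rw [h4, div_le_iff₀ (by linarith)]
      nlinarith
    have hcol2 : ∀ w : {w : α // P.rk w = m + 1}, max ((∑ v, x v w) - 1) 0 ≤
        max (|P.out (P.bar w.1) / Λ - 1| - ε) 0 := by
      intro w
      rw [hcol, hdiv]
      have h1 := key (P.bar w.1)
      have h2 := hE (P.bar w.1)
      generalize max (|P.out (P.bar w.1) / Λ - 1| - ε) 0 = E at h1 h2 ⊢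
      generalize P.out (P.bar w.1) / Λ = o at h1 ⊢
      have h3 := (abs_le.mp h1).2
      refine max_le ?_ h2
      have h4 : o / (1 + ε) - 1 = (o - (1 + ε)) / (1 + ε) := by field_simp
      rw [h4, div_le_iff₀ (by linarith)]
      nlinarith
    -- totals
    have hsumrow : ∑ v : {v : α // P.rk v = m}, max (|P.out v.1 / Λ - 1| - ε) 0 =
        ∑ v ∈ P.Rg m m, max (|P.out v / Λ - 1| - ε) 0 := by
      rw [← Finset.sum_subtype (P.Rg m m) (by
        intro v
        unfold FP.Rg
        rw [Finset.mem_filter]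
        constructor
        · rintro ⟨-, h⟩
          omega
        · intro h
          exact ⟨Finset.mem_univ _, by omega⟩) (fun v => max (|P.out v / Λ - 1| - ε) 0)]
    have hsumcol : ∑ w : {w : α // P.rk w = m + 1}, max (|P.out (P.bar w.1) / Λ - 1| - ε) 0 =
        ∑ v : {v : α // P.rk v = m}, max (|P.out v.1 / Λ - 1| - ε) 0 := by
      refine Fintype.sum_equiv
        { toFun := fun w => ⟨P.bar w.1, by have := P.rk_bar w.1; have := w.2; omega⟩
          invFun := fun v => ⟨P.bar v.1, by have := P.rk_bar v.1; have := v.2; omega⟩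
          left_inv := fun w => Subtype.ext (P.bar_bar _)
          right_inv := fun w => Subtype.ext (P.bar_bar _) } _ _ (fun w => rfl)
    set S : ℝ := (∑ v, max (1 - ∑ w, x v w) 0) + ∑ w, max ((∑ v, x v w) - 1) 0 with hS
    have hS1 : S ≤ 2 * ε * P.M m + ∑ v ∈ P.Rg m m, P.G θ Λ ε v := by
      have h1 : (∑ v, max (1 - ∑ w, x v w) 0) ≤
          ∑ v : {v : α // P.rk v = m}, (2 * ε + max (|P.out v.1 / Λ - 1| - ε) 0) :=
        Finset.sum_le_sum fun v _ => hrow2 v
      have h2 : (∑ w, max ((∑ v, x v w) - 1) 0) ≤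
          ∑ w : {w : α // P.rk w = m + 1}, max (|P.out (P.bar w.1) / Λ - 1| - ε) 0 :=
        Finset.sum_le_sum fun w _ => hcol2 w
      rw [Finset.sum_add_distrib, Finset.sum_const, Finset.card_univ, ← hMcard, nsmul_eq_mul,
        hsumrow] at h1
      rw [hsumcol, hsumrow] at h2
      linarith
    have hS0 : 0 ≤ S := by
      apply add_nonneg <;> exact Finset.sum_nonneg fun _ _ => le_max_right _ _
    obtain ⟨M, hMi, hMR⟩ := hall_def (fun (i : {v : α // P.rk v = m})
      (b : {w : α // P.rk w = m + 1}) => P.cov i.1 b.1) x hx0 hxR ⌊S⌋₊ (Nat.lt_floor_add_one S)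
    let V := {v : {v : α // P.rk v = m} // ∃ w, M v = Sum.inl w}
    have hV := base_card ⌊S⌋₊ M hMi
    rw [← hMcard] at hV
    refine ⟨Fintype.card V, ?_, ?_⟩
    · let e := (Fintype.equivFin V).symm
      refine base_fam P m _ (by omega) (by omega) (fun i => (e i).1.1)
        (fun i => (Classical.choose (e i).2).1)
        (fun i => (e i).1.2) (fun i j hij => e.injective (Subtype.ext (Subtype.ext hij)))
        (fun _ => ⟨fun i => (Classical.choose (e i).2).2, fun i => ?_, fun i j hij => ?_⟩)
      · exact hMR _ _ (Classical.choose_spec (e i).2)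
      · apply e.injective
        apply Subtype.ext
        apply hMi
        rw [Classical.choose_spec (e i).2, Classical.choose_spec (e j).2]
        exact congrArg _ (Subtype.ext hij)
    · have h1 : (P.M m : ℝ) ≤ (Fintype.card V : ℝ) + (⌊S⌋₊ : ℝ) := by exact_mod_cast hV
      have h2 := Nat.floor_le hS0
      linarith

end Pool.Agent.SCW
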