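import Mathlib
import Pool.Agent.SCW.Hall

set_option autoImplicit false

open scoped BigOperators

namespace Pool.Agent.SCW

/-- Approximate Menger theorem in a layered digraph: an approximately conserved flow of small violation
gives disjoint paths from all but `d` of the vertices of layer `0` to layer `m`. -/
theorem menger {X : Type} [Fintype X] [DecidableEq X] (ℓ : X → ℕ) (m : ℕ) (hm : 1 ≤ m)
    (E : X → X → Prop) (hE : ∀ u v, E u v → ℓ v = ℓ u + 1)
    (x : X → X → ℝ) (hx0 : ∀ u v, 0 ≤ x u v) (hxE : ∀ u v, x u v ≠ 0 → E u v)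
    (idle : X → ℝ) (hidle : ∀ u, 0 ≤ idle u) (d : ℕ)
    (hd : (∑ u ∈ Finset.univ.filter (fun u => ℓ u = 0), max (1 - ∑ v, x u v) 0)
        + (∑ u ∈ Finset.univ.filter (fun u => 0 < ℓ u ∧ ℓ u < m), max (1 - idle u - ∑ v, x u v) 0)
        + (∑ v ∈ Finset.univ.filter (fun v => 0 < ℓ v ∧ ℓ v < m), max (idle v + (∑ u, x u v) - 1) 0)
        + (∑ v ∈ Finset.univ.filter (fun v => ℓ v = m), max ((∑ u, x u v) - 1) 0) < (d : ℝ) + 1) :
    ∃ (S : Finset X) (p : X → ℕ → X),
      (∀ s ∈ S, ℓ s = 0) ∧
      (Finset.univ.filter (fun u => ℓ u = 0)).card ≤ S.card + d ∧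
      (∀ s ∈ S, p s 0 = s) ∧
      (∀ s ∈ S, ∀ t, t < m → E (p s t) (p s (t + 1))) ∧
      (∀ s ∈ S, ∀ s' ∈ S, ∀ t, t ≤ m → p s t = p s' t → s = s') := by
  classical
  -- the two sides
  have hrow : ∀ u : X, ℓ u < m → (∑ b : {v : X // 0 < ℓ v ∧ ℓ v ≤ m}, x u b.1) = ∑ v, x u v := by
    intro u hu
    rw [← Finset.sum_subtype (Finset.univ.filter (fun v => 0 < ℓ v ∧ ℓ v ≤ m)) (by simp) (fun v => x u v)]
    apply Finset.sum_subset (Finset.filter_subset _ _)
    intro v _ hv
    by_contra hne
    have h1 := hE u v (hxE u v hne)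
    apply hv
    simp only [Finset.mem_filter, Finset.mem_univ, true_and]
    omega
  have hcol : ∀ v : X, 0 < ℓ v ∧ ℓ v ≤ m → (∑ i : {u : X // ℓ u < m}, x i.1 v) = ∑ u, x u v := by
    intro v hv
    rw [← Finset.sum_subtype (Finset.univ.filter (fun u => ℓ u < m)) (by simp) (fun u => x u v)]
    apply Finset.sum_subset (Finset.filter_subset _ _)
    intro u _ hu
    by_contra hne
    have h1 := hE u v (hxE u v hne)
    apply hu
    simp only [Finset.mem_filter, Finset.mem_univ, true_and]
    omega
  have hidrow : ∀ u : X, ℓ u < m → (∑ b : {v : X // 0 < ℓ v ∧ ℓ v ≤ m}, (if u = b.1 then idle u else 0))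
      = if 0 < ℓ u then idle u else 0 := by
    intro u hu
    rw [← Finset.sum_subtype (Finset.univ.filter (fun v => 0 < ℓ v ∧ ℓ v ≤ m)) (by simp)
      (fun v => if u = v then idle u else 0)]
    rw [Finset.sum_ite_eq]
    simp only [Finset.mem_filter, Finset.mem_univ, true_and]
    by_cases h : 0 < ℓ u
    · rw [if_pos ⟨h, hu.le⟩, if_pos h]
    · rw [if_neg (fun h' => h h'.1), if_neg h]
  have hidcol : ∀ v : X, 0 < ℓ v ∧ ℓ v ≤ m → (∑ i : {u : X // ℓ u < m}, (if i.1 = v then idle i.1 else 0))
      = if ℓ v < m then idle v else 0 := by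
    intro v hv
    rw [← Finset.sum_subtype (Finset.univ.filter (fun u => ℓ u < m)) (by simp)
      (fun u => if u = v then idle u else 0)]
    rw [Finset.sum_ite_eq']
    simp only [Finset.mem_filter, Finset.mem_univ, true_and]
  have hH : ∃ M : {u : X // ℓ u < m} → {v : X // 0 < ℓ v ∧ ℓ v ≤ m} ⊕ Fin d, Function.Injective M ∧
      ∀ i b, M i = Sum.inl b → (i.1 = b.1 ∨ E i.1 b.1) := by
    refine hall_def (fun (i : {u : X // ℓ u < m}) (b : {v : X // 0 < ℓ v ∧ ℓ v ≤ m}) => i.1 = b.1 ∨ E i.1 b.1)
      (fun i b => x i.1 b.1 + (if i.1 = b.1 then idle i.1 else 0)) ?_ ?_ d ?_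
    · intro i b
      have h1 := hx0 i.1 b.1
      have h2 := hidle i.1
      show 0 ≤ x i.1 b.1 + (if i.1 = b.1 then idle i.1 else 0)
      split_ifs <;> linarith
    · intro i b hne
      by_cases h : i.1 = b.1
      · exact Or.inl h
      · right
        apply hxE
        intro h0
        apply hne
        show x i.1 b.1 + (if i.1 = b.1 then idle i.1 else 0) = 0
        rw [if_neg h, h0, add_zero]
    · have e1 : (∑ i : {u : X // ℓ u < m}, max (1 - ∑ b : {v : X // 0 < ℓ v ∧ ℓ v ≤ m},
            (x i.1 b.1 + (if i.1 = b.1 then idle i.1 else 0))) 0)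
          = (∑ u ∈ Finset.univ.filter (fun u => ℓ u = 0), max (1 - ∑ v, x u v) 0)
            + (∑ u ∈ Finset.univ.filter (fun u => 0 < ℓ u ∧ ℓ u < m), max (1 - idle u - ∑ v, x u v) 0) := by
        have e2 : ∀ i : {u : X // ℓ u < m}, max (1 - ∑ b : {v : X // 0 < ℓ v ∧ ℓ v ≤ m},
            (x i.1 b.1 + (if i.1 = b.1 then idle i.1 else 0))) 0
            = (fun u : X => max (1 - ((∑ v, x u v) + (if 0 < ℓ u then idle u else 0))) 0) i.1 := by
          intro i
          show _ = max (1 - ((∑ v, x i.1 v) + (if 0 < ℓ i.1 then idle i.1 else 0))) 0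
          rw [Finset.sum_add_distrib, hrow i.1 i.2, hidrow i.1 i.2]
        rw [Finset.sum_congr rfl (fun i _ => e2 i)]
        rw [← Finset.sum_subtype (Finset.univ.filter (fun u => ℓ u < m)) (by simp)
          (fun u : X => max (1 - ((∑ v, x u v) + (if 0 < ℓ u then idle u else 0))) 0)]
        have e3 : (Finset.univ.filter (fun u => ℓ u < m))
            = (Finset.univ.filter (fun u => ℓ u = 0)) ∪ (Finset.univ.filter (fun u => 0 < ℓ u ∧ ℓ u < m)) := by
          ext u
          simp only [Finset.mem_filter, Finset.mem_univ, true_and, Finset.mem_union]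
          omega
        rw [e3, Finset.sum_union]
        · congr 1
          · apply Finset.sum_congr rfl
            intro u hu
            simp only [Finset.mem_filter, Finset.mem_univ, true_and] at hu
            rw [if_neg (by omega), add_zero]
          · apply Finset.sum_congr rfl
            intro u hu
            simp only [Finset.mem_filter, Finset.mem_univ, true_and] at hu
            rw [if_pos hu.1]
            congr 1
            ring
        · rw [Finset.disjoint_left]
          intro u hu hu'
          simp only [Finset.mem_filter, Finset.mem_univ, true_and] at hu hu'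
          omega
      have f1 : (∑ b : {v : X // 0 < ℓ v ∧ ℓ v ≤ m}, max ((∑ i : {u : X // ℓ u < m},
            (x i.1 b.1 + (if i.1 = b.1 then idle i.1 else 0))) - 1) 0)
          = (∑ v ∈ Finset.univ.filter (fun v => 0 < ℓ v ∧ ℓ v < m), max (idle v + (∑ u, x u v) - 1) 0)
            + (∑ v ∈ Finset.univ.filter (fun v => ℓ v = m), max ((∑ u, x u v) - 1) 0) := by
        have f2 : ∀ b : {v : X // 0 < ℓ v ∧ ℓ v ≤ m}, max ((∑ i : {u : X // ℓ u < m},
            (x i.1 b.1 + (if i.1 = b.1 then idle i.1 else 0))) - 1) 0
            = (fun v : X => max ((∑ u, x u v) + (if ℓ v < m then idle v else 0) - 1) 0) b.1 := by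
          intro b
          show _ = max ((∑ u, x u b.1) + (if ℓ b.1 < m then idle b.1 else 0) - 1) 0
          rw [Finset.sum_add_distrib, hcol b.1 b.2, hidcol b.1 b.2]
        rw [Finset.sum_congr rfl (fun b _ => f2 b)]
        rw [← Finset.sum_subtype (Finset.univ.filter (fun v => 0 < ℓ v ∧ ℓ v ≤ m)) (by simp)
          (fun v : X => max ((∑ u, x u v) + (if ℓ v < m then idle v else 0) - 1) 0)]
        have f3 : (Finset.univ.filter (fun v => 0 < ℓ v ∧ ℓ v ≤ m))
            = (Finset.univ.filter (fun v => 0 < ℓ v ∧ ℓ v < m)) ∪ (Finset.univ.filter (fun v => ℓ v = m)) := by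
          ext u
          simp only [Finset.mem_filter, Finset.mem_univ, true_and, Finset.mem_union]
          omega
        rw [f3, Finset.sum_union]
        · congr 1
          · apply Finset.sum_congr rfl
            intro u hu
            simp only [Finset.mem_filter, Finset.mem_univ, true_and] at hu
            rw [if_pos hu.2]
            congr 1
            ring
          · apply Finset.sum_congr rfl
            intro u hu
            simp only [Finset.mem_filter, Finset.mem_univ, true_and] at hu
            rw [if_neg (by omega), add_zero]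
        · rw [Finset.disjoint_left]
          intro u hu hu'
          simp only [Finset.mem_filter, Finset.mem_univ, true_and] at hu hu'
          omega
      show (∑ i : {u : X // ℓ u < m}, max (1 - ∑ b : {v : X // 0 < ℓ v ∧ ℓ v ≤ m},
            (x i.1 b.1 + (if i.1 = b.1 then idle i.1 else 0))) 0)
          + (∑ b : {v : X // 0 < ℓ v ∧ ℓ v ≤ m}, max ((∑ i : {u : X // ℓ u < m},
            (x i.1 b.1 + (if i.1 = b.1 then idle i.1 else 0))) - 1) 0) < (d : ℝ) + 1
      rw [e1, f1]
      linarith
  obtain ⟨M, hMinj, hMR⟩ := hH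
  -- the successor relation
  obtain ⟨nx, hnx1, hnx2⟩ : ∃ nx : X → Option X,
      (∀ u v, nx u = some v → ∃ (hu : ℓ u < m) (hv : 0 < ℓ v ∧ ℓ v ≤ m), M ⟨u, hu⟩ = Sum.inl ⟨v, hv⟩) ∧
      (∀ u (hu : ℓ u < m), nx u = none → ∃ j : Fin d, M ⟨u, hu⟩ = Sum.inr j) := by
    refine ⟨fun u => if hu : ℓ u < m then Sum.elim (fun b => some b.1) (fun _ => none) (M ⟨u, hu⟩) else none,
      ?_, ?_⟩
    · intro u v huv
      by_cases hu : ℓ u < m
      · simp only [dif_pos hu] at huv
        rcases hM : M ⟨u, hu⟩ with b | j
        · rw [hM] at huv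
          simp only [Sum.elim_inl, Option.some.injEq] at huv
          subst huv
          exact ⟨hu, b.2, hM⟩
        · rw [hM] at huv
          simp at huv
      · simp only [dif_neg hu] at huv
        exact absurd huv (by simp)
    · intro u hu h0
      simp only [dif_pos hu] at h0
      rcases hM : M ⟨u, hu⟩ with b | j
      · rw [hM] at h0
        simp at h0
      · exact ⟨j, rfl⟩
  have hnxinj : ∀ u u' v, nx u = some v → nx u' = some v → u = u' := by
    intro u u' v h h'
    obtain ⟨hu, hv, e⟩ := hnx1 u v h
    obtain ⟨hu', hv', e'⟩ := hnx1 u' v h'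
    have := hMinj (e.trans e'.symm)
    exact congrArg Subtype.val this
  have hnxE : ∀ u v, nx u = some v → u = v ∨ E u v := by
    intro u v h
    obtain ⟨hu, hv, e⟩ := hnx1 u v h
    exact hMR _ _ e
  obtain ⟨W, hW0, hWs⟩ : ∃ W : X → ℕ → Option X, (∀ s, W s 0 = some s) ∧
      (∀ s t, W s (t + 1) = (W s t).bind nx) :=
    ⟨fun s t => Nat.rec (motive := fun _ => Option X) (some s) (fun _ o => o.bind nx) t,
      fun s => rfl, fun s t => rfl⟩
  have hWstep : ∀ s t v, W s (t + 1) = some v → ∃ u, W s t = some u ∧ nx u = some v := by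
    intro s t v h
    rw [hWs] at h
    rwa [Option.bind_eq_some_iff] at h
  -- layers along the walk
  have hlay : ∀ s, ℓ s = 0 → ∀ t, ∀ v, W s t = some v → ℓ v = t := by
    intro s hs t
    induction t using Nat.strong_induction_on with
    | _ t ih =>
      intro v hv
      rcases t with _ | t
      · rw [hW0] at hv
        have : s = v := by simpa using hv
        rw [← this]; exact hs
      · obtain ⟨u, hu, huv⟩ := hWstep s t v hv
        have hlu := ih t (Nat.lt_succ_self t) u hu
        rcases hnxE u v huv with h | h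
        · exfalso
          subst h
          obtain ⟨_, hpos, _⟩ := hnx1 u u huv
          rcases t with _ | t
          · omega
          · obtain ⟨u', hu', hu'v⟩ := hWstep s t u hu
            have h1 := ih t (by omega) u' hu'
            have h2 := hnxinj _ _ _ huv hu'v
            rw [← h2] at h1
            omega
        · have := hE u v h
          omega
  have hedge : ∀ s, ℓ s = 0 → ∀ t u v, W s t = some u → W s (t + 1) = some v → E u v := by
    intro s hs t u v hu hv
    obtain ⟨u', hu', huv⟩ := hWstep s t v hv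
    have : u' = u := by
      rw [hu] at hu'
      exact (Option.some.inj hu').symm
    subst this
    rcases hnxE u' v huv with h | h
    · exfalso
      have h1 := hlay s hs t u' hu
      have h2 := hlay s hs (t + 1) v hv
      rw [h] at h1
      omega
    · exact h
  have hWinj : ∀ t s s' v, W s t = some v → W s' t = some v → s = s' := by
    intro t
    induction t with
    | zero =>
      intro s s' v h h'
      rw [hW0] at h h'
      have h1 := Option.some.inj h
      have h2 := Option.some.inj h'
      rw [h1, h2]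
    | succ t ih =>
      intro s s' v h h'
      obtain ⟨u, hu, huv⟩ := hWstep s t v h
      obtain ⟨u', hu', huv'⟩ := hWstep s' t v h'
      have := hnxinj _ _ _ huv huv'
      subst this
      exact ih s s' u hu hu'
  have hback : ∀ s t, W s (t + 1) ≠ none → W s t ≠ none := by
    intro s t h h0
    apply h
    rw [hWs, h0]
    rfl
  have hback' : ∀ s n, W s n ≠ none → ∀ t, t ≤ n → W s t ≠ none := by
    intro s n
    induction n with
    | zero =>
      intro h t ht
      have : t = 0 := by omega
      rw [this]; exact h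
    | succ n ih =>
      intro h t ht
      rcases Nat.lt_or_ge n t with h1 | h1
      · have : t = n + 1 := by omega
        rw [this]; exact h
      · exact ih (hback s n h) t h1
  refine ⟨Finset.univ.filter (fun s => ℓ s = 0 ∧ W s m ≠ none), fun s t => (W s t).getD s, ?_, ?_, ?_, ?_, ?_⟩
  · intro s hs
    simp only [Finset.mem_filter, Finset.mem_univ, true_and] at hs
    exact hs.1
  · -- the missing sources inject into the dummies
    have hdead : ∀ n s, W s n = none → ∃ t, t < n ∧ ∃ u, W s t = some u ∧ nx u = none := by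
      intro n
      induction n with
      | zero =>
        intro s h
        rw [hW0] at h
        exact absurd h (by simp)
      | succ n ih =>
        intro s h
        by_cases h' : W s n = none
        · obtain ⟨t, ht, u, hu, hn⟩ := ih s h'
          exact ⟨t, by omega, u, hu, hn⟩
        · obtain ⟨u, hu⟩ := Option.ne_none_iff_exists'.mp h'
          refine ⟨n, by omega, u, hu, ?_⟩
          rw [hWs, hu] at h
          simpa using h
    have hD : ∀ s, ℓ s = 0 ∧ W s m = none → ∃ j : Fin d, ∃ t u, ∃ hu : ℓ u < m,
        W s t = some u ∧ M ⟨u, hu⟩ = Sum.inr j := by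
      intro s hs
      obtain ⟨t, ht, u, hu, hn⟩ := hdead m s hs.2
      have h1 := hlay s hs.1 t u hu
      have h2 : ℓ u < m := by omega
      obtain ⟨j, hj⟩ := hnx2 u h2 hn
      exact ⟨j, t, u, h2, hu, hj⟩
    have hcard : (Finset.univ.filter (fun s => ℓ s = 0 ∧ W s m = none)).card ≤ d := by
      rcases Nat.eq_zero_or_pos d with h0 | hpos
      · subst h0
        rw [Nat.le_zero, Finset.card_eq_zero, Finset.eq_empty_iff_forall_notMem]
        intro s hs
        simp only [Finset.mem_filter, Finset.mem_univ, true_and] at hs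
        obtain ⟨j, _⟩ := hD s hs
        exact j.elim0
      · have : ∀ s, ∃ j : Fin d, (ℓ s = 0 ∧ W s m = none) → ∃ t u, ∃ hu : ℓ u < m,
            W s t = some u ∧ M ⟨u, hu⟩ = Sum.inr j := by
          intro s
          by_cases hs : ℓ s = 0 ∧ W s m = none
          · obtain ⟨j, hj⟩ := hD s hs
            exact ⟨j, fun _ => hj⟩
          · exact ⟨⟨0, hpos⟩, fun h => absurd h hs⟩
        choose J hJ using this
        have hle := Finset.card_le_card_of_injOn (s := Finset.univ.filter (fun s => ℓ s = 0 ∧ W s m = none))
          (t := (Finset.univ : Finset (Fin d))) J (fun _ _ => Finset.mem_coe.mpr (Finset.mem_univ _)) (by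
            intro s hs s' hs' hss
            simp only [Finset.coe_filter, Finset.mem_univ, true_and, Set.mem_ofPred_eq] at hs hs'
            obtain ⟨t, u, hu, hW1, hM1⟩ := hJ s hs
            obtain ⟨t', u', hu', hW2, hM2⟩ := hJ s' hs'
            rw [hss] at hM1
            have h1 := hMinj (hM1.trans hM2.symm)
            have h2 : u = u' := congrArg Subtype.val h1
            subst h2
            have h3 := hlay s hs.1 t u hW1
            have h4 := hlay s' hs'.1 t' u hW2
            have h5 : t = t' := by omega
            subst h5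
            exact hWinj t s s' u hW1 hW2)
        simpa using hle
    have hsplit : (Finset.univ.filter (fun u => ℓ u = 0))
        ⊆ (Finset.univ.filter (fun s => ℓ s = 0 ∧ W s m ≠ none)) ∪
          (Finset.univ.filter (fun s => ℓ s = 0 ∧ W s m = none)) := by
      intro s hs
      simp only [Finset.mem_filter, Finset.mem_univ, true_and, Finset.mem_union] at hs ⊢
      by_cases h : W s m = none
      · exact Or.inr ⟨hs, h⟩
      · exact Or.inl ⟨hs, h⟩
    calc (Finset.univ.filter (fun u => ℓ u = 0)).card
        ≤ ((Finset.univ.filter (fun s => ℓ s = 0 ∧ W s m ≠ none)) ∪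
          (Finset.univ.filter (fun s => ℓ s = 0 ∧ W s m = none))).card := Finset.card_le_card hsplit
      _ ≤ (Finset.univ.filter (fun s => ℓ s = 0 ∧ W s m ≠ none)).card +
          (Finset.univ.filter (fun s => ℓ s = 0 ∧ W s m = none)).card := Finset.card_union_le _ _
      _ ≤ (Finset.univ.filter (fun s => ℓ s = 0 ∧ W s m ≠ none)).card + d := by
          exact Nat.add_le_add_left hcard _
  · intro s _
    show (W s 0).getD s = s
    rw [hW0]
    rfl
  · intro s hs t ht
    simp only [Finset.mem_filter, Finset.mem_univ, true_and] at hs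
    obtain ⟨u, hu⟩ := Option.ne_none_iff_exists'.mp (hback' s m hs.2 t (by omega))
    obtain ⟨v, hv⟩ := Option.ne_none_iff_exists'.mp (hback' s m hs.2 (t + 1) (by omega))
    show E ((W s t).getD s) ((W s (t + 1)).getD s)
    rw [hu, hv]
    exact hedge s hs.1 t u v hu hv
  · intro s hs s' hs' t ht hss
    simp only [Finset.mem_filter, Finset.mem_univ, true_and] at hs hs'
    obtain ⟨u, hu⟩ := Option.ne_none_iff_exists'.mp (hback' s m hs.2 t ht)
    obtain ⟨v, hv⟩ := Option.ne_none_iff_exists'.mp (hback' s' m hs'.2 t ht)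
    have hss' : (W s t).getD s = (W s' t).getD s' := hss
    rw [hu, hv] at hss'
    have h1 : u = v := hss'
    subst h1
    exact hWinj t s s' u hu hv

end Pool.Agent.SCW
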