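import Mathlib
import Pool.Agent.SCW.Def
import Pool.Agent.SCW.Menger

set_option autoImplicit false

open scoped BigOperators

namespace Pool.Agent.SCW

namespace ExtNet

variable {α : Type} [Fintype α] [DecidableEq α]

theorem out_bar (P : FP α) (v : α) : P.out (P.bar v) = P.inn v := by
  unfold FP.out FP.inn
  have hinv : Function.Involutive P.bar := P.bar_bar
  rw [← Equiv.sum_comp (hinv.toPerm P.bar) (fun w => P.f (P.bar v) w)]
  apply Finset.sum_congr rfl
  intro u _
  simpa using P.f_bar u v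

theorem inn_bar (P : FP α) (v : α) : P.inn (P.bar v) = P.out v := by
  have h := out_bar P (P.bar v)
  rw [P.bar_bar] at h
  exact h.symm

/-- damping factor -/
noncomputable def psi (θ : ℕ → ℝ) (a k : ℕ) : ℝ := ∏ r ∈ Finset.Ioc a k, (1 - θ r)

theorem psi_self (θ : ℕ → ℝ) (a : ℕ) : psi θ a a = 1 := by simp [psi]

theorem psi_succ (θ : ℕ → ℝ) (a k : ℕ) (h : a < k) : psi θ a k = psi θ a (k - 1) * (1 - θ k) := by
  unfold psi
  obtain ⟨j, rfl⟩ : ∃ j, k = j + 1 := ⟨k - 1, by omega⟩
  rw [Nat.add_sub_cancel, ← Finset.insert_Ioc_right_eq_Ioc_add_one (by omega)] 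
  rw [Finset.prod_insert (by simp)]
  ring

theorem psi_bd (θ : ℕ → ℝ) (a b : ℕ) (hθ : ∀ r, a ≤ r → r ≤ b → 0 ≤ θ r ∧ θ r ≤ 1) (k : ℕ)
    (hk : k ≤ b) : 0 ≤ psi θ a k ∧ psi θ a k ≤ 1 := by
  unfold psi
  constructor
  · apply Finset.prod_nonneg
    intro r hr
    rw [Finset.mem_Ioc] at hr
    have := (hθ r (by omega) (by omega)).2
    linarith
  · apply Finset.prod_le_one
    · intro r hr
      rw [Finset.mem_Ioc] at hr
      have := (hθ r (by omega) (by omega)).2
      linarith
    · intro r hr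
      rw [Finset.mem_Ioc] at hr
      have := (hθ r (by omega) (by omega)).1
      linarith

/-- Layer function. -/
def lay (P : FP α) (a b : ℕ) : Bool × α → ℕ
  | (false, v) => if a ≤ P.rk v ∧ P.rk v ≤ b then P.rk v - a else 2 * (b - a) + 2
  | (true, v) => if P.N - b ≤ P.rk v ∧ P.rk v ≤ P.N - a then P.rk v - (P.N - b) + (b - a) + 1
      else 2 * (b - a) + 2

/-- Edges. -/
def edg (P : FP α) {ι : Type} (a b : ℕ) (xb yt : ι → α) : Bool × α → Bool × α → Prop
  | (false, v), (false, w) => P.cov v w ∧ a ≤ P.rk v ∧ P.rk w ≤ b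
  | (false, v), (true, w) => ∃ i, xb i = v ∧ yt i = w
  | (true, v), (true, w) => P.cov v w ∧ P.N - b ≤ P.rk v ∧ P.rk w ≤ P.N - a
  | (true, _), (false, _) => False

open Classical in
/-- Weights. -/
noncomputable def wgt (P : FP α) {ι : Type} (a b : ℕ) (xb yt : ι → α) (θ : ℕ → ℝ) (Λ ε : ℝ) :
    Bool × α → Bool × α → ℝ
  | (false, v), (false, w) =>
      if a ≤ P.rk v ∧ P.rk w ≤ b then psi θ a (P.rk v) * P.f v w / ((1 + ε) * Λ) else 0
  | (false, v), (true, w) => if ∃ i, xb i = v ∧ yt i = w then psi θ a b / (1 + ε) else 0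
  | (true, v), (true, w) =>
      if P.N - b ≤ P.rk v ∧ P.rk w ≤ P.N - a then
        psi θ a (P.N - P.rk w) * P.f v w / ((1 + ε) * Λ) else 0
  | (true, _), (false, _) => 0

open Classical in
/-- Idle weights. -/
noncomputable def idl (P : FP α) {ι : Type} (a b : ℕ) (xb yt : ι → α) (θ : ℕ → ℝ) (Λ ε : ℝ) :
    Bool × α → ℝ
  | (false, v) =>
      if P.rk v < b then max (1 - psi θ a (P.rk v) * P.out v / ((1 + ε) * Λ)) 0
      else if ∃ i, xb i = v then 1 - psi θ a b / (1 + ε) else 1
  | (true, v) =>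
      if P.N - b < P.rk v then max (1 - psi θ a (P.N - P.rk v) * P.inn v / ((1 + ε) * Λ)) 0
      else if ∃ i, yt i = v then 1 - psi θ a b / (1 + ε) else 1

section

variable (P : FP α) {ι : Type} [Fintype ι] [DecidableEq ι]
    (a b : ℕ) (hab : a < b) (hb : 2 * b ≤ P.N) (xb yt : ι → α)
    (hxb : ∀ i, P.rk (xb i) = b) (hyt : ∀ i, P.rk (yt i) + b = P.N)
    (hxi : Function.Injective xb) (hyi : Function.Injective yt)
    (θ : ℕ → ℝ) (Λ ε : ℝ) (hΛ : 0 < Λ) (hε : 0 < ε)
    (hθ : ∀ r, a ≤ r → r ≤ b → 0 ≤ θ r ∧ θ r ≤ 1)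

include hab hb hxb hyt in
theorem edg_lay (u v : Bool × α) (h : edg P a b xb yt u v) : lay P a b v = lay P a b u + 1 := by
  obtain ⟨c, u⟩ := u
  obtain ⟨d, v⟩ := v
  cases c <;> cases d
  · simp only [edg] at h
    obtain ⟨h1, h2, h3⟩ := h
    have h4 := P.cov_rk _ _ h1
    simp only [lay]
    rw [if_pos (by omega), if_pos (by omega)]
    omega
  · simp only [edg] at h
    obtain ⟨i, rfl, rfl⟩ := h
    have h4 := hxb i
    have h5 := hyt i
    simp only [lay]
    rw [if_pos (by omega), if_pos (by omega)]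
    omega
  · exact absurd h (by simp [edg])
  · simp only [edg] at h
    obtain ⟨h1, h2, h3⟩ := h
    have h4 := P.cov_rk _ _ h1
    simp only [lay]
    rw [if_pos (by omega), if_pos (by omega)]
    omega

include hΛ hε hθ hb in
theorem wgt_nonneg (u v : Bool × α) : 0 ≤ wgt P a b xb yt θ Λ ε u v := by
  obtain ⟨c, u⟩ := u
  obtain ⟨d, v⟩ := v
  cases c <;> cases d
  · simp only [wgt]
    split_ifs with h
    · by_cases hf : P.f u v = 0
      · simp [hf]
      · have h4 := P.cov_rk _ _ (P.f_cov _ _ hf)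
        have h5 := (psi_bd θ a b hθ (P.rk u) (by omega)).1
        have h6 := P.f_nonneg u v
        positivity
    · exact le_rfl
  · simp only [wgt]
    split_ifs with h
    · have h5 := (psi_bd θ a b hθ b le_rfl).1
      positivity
    · exact le_rfl
  · simp [wgt]
  · simp only [wgt]
    split_ifs with h
    · by_cases hf : P.f u v = 0
      · simp [hf]
      · have h4 := P.cov_rk _ _ (P.f_cov _ _ hf)
        have h5 := (psi_bd θ a b hθ (P.N - P.rk v) (by omega)).1
        have h6 := P.f_nonneg u v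
        positivity
    · exact le_rfl

theorem wgt_edg (u v : Bool × α) (h : wgt P a b xb yt θ Λ ε u v ≠ 0) : edg P a b xb yt u v := by
  obtain ⟨c, u⟩ := u
  obtain ⟨d, v⟩ := v
  cases c <;> cases d
  · simp only [wgt] at h
    simp only [edg]
    split_ifs at h with h1
    · refine ⟨P.f_cov _ _ ?_, h1.1, h1.2⟩
      intro h2
      rw [h2] at h
      simp at h
    · exact absurd rfl h
  · simp only [wgt] at h
    simp only [edg]
    split_ifs at h with h1
    · exact h1
    · exact absurd rfl h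
  · simp [wgt] at h
  · simp only [wgt] at h
    simp only [edg]
    split_ifs at h with h1
    · refine ⟨P.f_cov _ _ ?_, h1.1, h1.2⟩
      intro h2
      rw [h2] at h
      simp at h
    · exact absurd rfl h

include hε hθ in
theorem gam_le : psi θ a b / (1 + ε) ≤ 1 := by
  have h5 := (psi_bd θ a b hθ b le_rfl).2
  rw [div_le_one (by linarith)]
  linarith

include hε hθ in
theorem idl_nonneg (u : Bool × α) : 0 ≤ idl P a b xb yt θ Λ ε u := by
  have h1 := gam_le a b θ ε hε hθ
  obtain ⟨c, u⟩ := u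
  cases c
  · simp only [idl]
    split_ifs
    · exact le_max_right _ _
    · linarith
    · norm_num
  · simp only [idl]
    split_ifs
    · exact le_max_right _ _
    · linarith
    · norm_num

theorem sumB (g : Bool × α → ℝ) : ∑ z, g z = (∑ v, g (false, v)) + ∑ v, g (true, v) := by
  rw [Fintype.sum_prod_type, Fintype.sum_bool]
  ring

include hxb in
/-- Row sum at a lower vertex below rank `b`. -/
theorem row_lo (v : α) (h1 : a ≤ P.rk v) (h2 : P.rk v < b) :
    ∑ z, wgt P a b xb yt θ Λ ε (false, v) z = psi θ a (P.rk v) * P.out v / ((1 + ε) * Λ) := by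
  rw [sumB]
  have e1 : ∑ w, wgt P a b xb yt θ Λ ε (false, v) (true, w) = 0 := by
    apply Finset.sum_eq_zero
    intro w _
    simp only [wgt]
    rw [if_neg]
    rintro ⟨i, h3, _⟩
    have := hxb i
    rw [h3] at this
    omega
  rw [e1, add_zero]
  unfold FP.out
  rw [Finset.mul_sum, Finset.sum_div]
  apply Finset.sum_congr rfl
  intro w _
  simp only [wgt]
  by_cases hf : P.f v w = 0
  · simp [hf]
  · have h4 := P.cov_rk _ _ (P.f_cov _ _ hf)
    rw [if_pos (by omega)]

/-- Row sum at the lower copy of a chain bottom. -/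
theorem row_lob (i : ι)
    (hw : ∀ u v, 0 ≤ wgt P a b xb yt θ Λ ε u v) :
    psi θ a b / (1 + ε) ≤ ∑ z, wgt P a b xb yt θ Λ ε (false, xb i) z := by
  have h1 : wgt P a b xb yt θ Λ ε (false, xb i) (true, yt i) = psi θ a b / (1 + ε) := by
    simp only [wgt]
    rw [if_pos ⟨i, rfl, rfl⟩]
  rw [← h1]
  exact Finset.single_le_sum (f := fun z => wgt P a b xb yt θ Λ ε (false, xb i) z)
    (fun z _ => hw _ z) (Finset.mem_univ _)

/-- Row sum at an upper vertex. -/
theorem row_up (v : α) (h1 : P.N - b ≤ P.rk v) (h2 : P.rk v < P.N - a) :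
    ∑ z, wgt P a b xb yt θ Λ ε (true, v) z =
      psi θ a (P.N - P.rk v - 1) * P.out v / ((1 + ε) * Λ) := by
  rw [sumB]
  have e1 : ∑ w, wgt P a b xb yt θ Λ ε (true, v) (false, w) = 0 := by
    apply Finset.sum_eq_zero
    intro w _
    simp only [wgt]
  rw [e1, zero_add]
  unfold FP.out
  rw [Finset.mul_sum, Finset.sum_div]
  apply Finset.sum_congr rfl
  intro w _
  simp only [wgt]
  by_cases hf : P.f v w = 0
  · simp [hf]
  · have h4 := P.cov_rk _ _ (P.f_cov _ _ hf)
    rw [if_pos (by omega), h4, show P.N - (P.rk v + 1) = P.N - P.rk v - 1 by omega]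

/-- Column sum at a lower vertex. -/
theorem col_lo (w : α) (h1 : a < P.rk w) (h2 : P.rk w ≤ b) :
    ∑ z, wgt P a b xb yt θ Λ ε z (false, w) =
      psi θ a (P.rk w - 1) * P.inn w / ((1 + ε) * Λ) := by
  rw [sumB]
  have e1 : ∑ v, wgt P a b xb yt θ Λ ε (true, v) (false, w) = 0 := by
    apply Finset.sum_eq_zero
    intro v _
    simp only [wgt]
  rw [e1, add_zero]
  unfold FP.inn
  rw [Finset.mul_sum, Finset.sum_div]
  apply Finset.sum_congr rfl
  intro v _
  simp only [wgt]
  by_cases hf : P.f v w = 0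
  · simp [hf]
  · have h4 := P.cov_rk _ _ (P.f_cov _ _ hf)
    rw [if_pos (by omega)]
    congr 4
    omega

include hyt in
/-- Column sum at an upper vertex above rank `N-b`. -/
theorem col_up (w : α) (h1 : P.N - b < P.rk w) (h2 : P.rk w ≤ P.N - a) :
    ∑ z, wgt P a b xb yt θ Λ ε z (true, w) =
      psi θ a (P.N - P.rk w) * P.inn w / ((1 + ε) * Λ) := by
  rw [sumB]
  have e1 : ∑ v, wgt P a b xb yt θ Λ ε (false, v) (true, w) = 0 := by
    apply Finset.sum_eq_zero
    intro v _
    simp only [wgt]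
    rw [if_neg]
    rintro ⟨i, _, h3⟩
    have := hyt i
    rw [h3] at this
    omega
  rw [e1, zero_add]
  unfold FP.inn
  rw [Finset.mul_sum, Finset.sum_div]
  apply Finset.sum_congr rfl
  intro v _
  simp only [wgt]
  by_cases hf : P.f v w = 0
  · simp [hf]
  · have h4 := P.cov_rk _ _ (P.f_cov _ _ hf)
    rw [if_pos (by omega)]

include hyi in
/-- Column sum at an upper vertex of rank `N-b`. -/
theorem col_upb (hγ : 0 ≤ psi θ a b / (1 + ε)) (w : α) (h1 : P.rk w = P.N - b) :
    (∑ z, wgt P a b xb yt θ Λ ε z (true, w)) ≤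
      psi θ a b / (1 + ε) ∧
    ((¬ ∃ i, yt i = w) → (∑ z, wgt P a b xb yt θ Λ ε z (true, w)) = 0) := by
  rw [sumB]
  have e1 : ∑ v, wgt P a b xb yt θ Λ ε (true, v) (true, w) = 0 := by
    apply Finset.sum_eq_zero
    intro v _
    simp only [wgt]
    by_cases hf : P.f v w = 0
    · simp [hf]
    · have h4 := P.cov_rk _ _ (P.f_cov _ _ hf)
      rw [if_neg (by omega)]
  rw [e1, add_zero]
  constructor
  · by_cases h : ∃ i, yt i = w
    · obtain ⟨i, rfl⟩ := h
      have e2 : ∑ v, wgt P a b xb yt θ Λ ε (false, v) (true, yt i)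
          = ∑ v, if v = xb i then psi θ a b / (1 + ε) else 0 := by
        apply Finset.sum_congr rfl
        intro v _
        simp only [wgt]
        by_cases h3 : v = xb i
        · rw [if_pos ⟨i, h3.symm, rfl⟩, if_pos h3]
        · rw [if_neg, if_neg h3]
          rintro ⟨j, h4, h5⟩
          have := hyi h5
          subst this
          exact h3 h4.symm
      rw [e2, Finset.sum_ite_eq' Finset.univ (xb i) (fun _ => psi θ a b / (1 + ε)),
        if_pos (Finset.mem_univ _)]
    · have e2 : ∑ v, wgt P a b xb yt θ Λ ε (false, v) (true, w) = 0 := by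
        apply Finset.sum_eq_zero
        intro v _
        simp only [wgt]
        rw [if_neg]
        rintro ⟨j, _, h5⟩
        exact h ⟨j, h5⟩
      rw [e2]
      exact hγ
  · intro h
    apply Finset.sum_eq_zero
    intro v _
    simp only [wgt]
    rw [if_neg]
    rintro ⟨j, _, h5⟩
    exact h ⟨j, h5⟩

end

end ExtNet

end Pool.Agent.SCW
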