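import Mathlib
import Pool.Agent.SCW.Def
import Pool.Agent.SCW.Menger
import Pool.Agent.SCW.ExtA

set_option autoImplicit false
set_option linter.unusedSectionVars false

open scoped BigOperators

namespace Pool.Agent.SCW

namespace ExtNet

variable {α : Type} [Fintype α] [DecidableEq α]

/-- capacity excess -/
noncomputable def EE (P : FP α) (Λ ε : ℝ) (v : α) : ℝ := max (|P.out v / Λ - 1| - ε) 0

/-- flow defect -/
noncomputable def DD (P : FP α) (θ : ℕ → ℝ) (Λ ε : ℝ) (a : ℕ) (v : α) : ℝ :=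
  psi θ a (P.rk v - 1) * P.inn v / ((1 + ε) * Λ) - psi θ a (P.rk v) * P.out v / ((1 + ε) * Λ)

section

variable (P : FP α) {ι : Type} [Fintype ι] [DecidableEq ι]
    (a b : ℕ) (hab : a < b) (hb : 2 * b ≤ P.N) (xb yt : ι → α)
    (hxb : ∀ i, P.rk (xb i) = b) (hyt : ∀ i, P.rk (yt i) + b = P.N)
    (hxi : Function.Injective xb) (hyi : Function.Injective yt)
    (θ : ℕ → ℝ) (Λ ε : ℝ) (hΛ : 0 < Λ) (hε : 0 < ε)
    (hθ : ∀ r, a ≤ r → r ≤ b → 0 ≤ θ r ∧ θ r ≤ 1)

theorem EE_nonneg (v : α) : 0 ≤ EE P Λ ε v := le_max_right _ _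

include hΛ hε in
theorem cap_le (v : α) (s : ℝ) (hs0 : 0 ≤ s) (hs1 : s ≤ 1) :
    s * P.out v / ((1 + ε) * Λ) ≤ 1 + EE P Λ ε v := by
  have h1 : |P.out v / Λ - 1| - ε ≤ EE P Λ ε v := le_max_left _ _
  have h2 : P.out v / Λ - 1 ≤ |P.out v / Λ - 1| := le_abs_self _
  have h0 : 0 ≤ P.out v := Finset.sum_nonneg (fun w _ => P.f_nonneg v w)
  have h3 : P.out v / Λ ≤ (1 + ε) * (1 + EE P Λ ε v) := by
    have := EE_nonneg P Λ ε v
    nlinarith
  have h4 : s * P.out v / ((1 + ε) * Λ) ≤ P.out v / ((1 + ε) * Λ) := by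
    apply div_le_div_of_nonneg_right _ (by positivity)
    nlinarith
  refine h4.trans ?_
  have h5 : P.out v / ((1 + ε) * Λ) = (P.out v / Λ) / (1 + ε) := by
    field_simp
  rw [h5, div_le_iff₀ (by linarith)]
  linarith

include hΛ hε in
theorem cap_ge (v : α) : 1 - P.out v / ((1 + ε) * Λ) ≤ 2 * ε + EE P Λ ε v := by
  have h1 : |P.out v / Λ - 1| - ε ≤ EE P Λ ε v := le_max_left _ _
  have h2 : -(P.out v / Λ - 1) ≤ |P.out v / Λ - 1| := neg_le_abs _
  have hE := EE_nonneg P Λ ε v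
  have h5 : P.out v / ((1 + ε) * Λ) = (P.out v / Λ) / (1 + ε) := by
    field_simp
  have h6 : 1 - ε - EE P Λ ε v ≤ P.out v / Λ := by linarith
  have h7 : (1 - ε - EE P Λ ε v) / (1 + ε) ≤ (P.out v / Λ) / (1 + ε) :=
    div_le_div_of_nonneg_right h6 (by linarith)
  have h8 : 1 - (2 * ε + EE P Λ ε v) ≤ (1 - ε - EE P Λ ε v) / (1 + ε) := by
    rw [le_div_iff₀ (by linarith)]
    nlinarith
  rw [h5]
  linarith

include hΛ hε hθ in
/-- The flow defect plus twice the capacity excess is at most `G`. -/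
theorem DD_le (v : α) (h1 : a < P.rk v) (h2 : P.rk v ≤ b) :
    |DD P θ Λ ε a v| + 2 * EE P Λ ε v ≤ P.G θ Λ ε v := by
  unfold FP.G DD EE
  have hp := psi_bd θ a b hθ (P.rk v - 1) (by omega)
  have hs := psi_succ θ a (P.rk v) h1
  have ht := hθ (P.rk v) (by omega) h2
  rw [hs]
  set ψ := psi θ a (P.rk v - 1)
  set t := θ (P.rk v)
  set o := P.out v
  set i := P.inn v
  have e1 : ψ * i / ((1 + ε) * Λ) - ψ * (1 - t) * o / ((1 + ε) * Λ)
      = ψ * (t * (o - Λ) - (o - i - t * Λ)) / ((1 + ε) * Λ) := by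
    ring
  rw [e1, abs_div, abs_mul, abs_of_nonneg hp.1, abs_of_pos (show (0:ℝ) < (1 + ε) * Λ by positivity)]
  have e2 : |t * (o - Λ) - (o - i - t * Λ)| ≤ t * |o - Λ| + |o - i - t * Λ| := by
    refine (abs_sub _ _).trans ?_
    rw [abs_mul, abs_of_nonneg ht.1]
  have e3 : ψ * |t * (o - Λ) - (o - i - t * Λ)| / ((1 + ε) * Λ) ≤ (t * |o - Λ| + |o - i - t * Λ|) / Λ := by
    have h3 : ψ * |t * (o - Λ) - (o - i - t * Λ)| ≤ t * |o - Λ| + |o - i - t * Λ| := by
      have := abs_nonneg (t * (o - Λ) - (o - i - t * Λ))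
      nlinarith [hp.2]
    have h4 : 0 ≤ t * |o - Λ| + |o - i - t * Λ| := by
      have := ht.1
      positivity
    rw [div_le_div_iff₀ (by positivity) hΛ]
    nlinarith [mul_nonneg h4 hΛ.le, mul_le_mul_of_nonneg_right h3 hΛ.le, mul_nonneg (mul_nonneg h4 hΛ.le) hε.le]
  linarith

include hΛ hε hθ in
theorem EE_le_G (v : α) (h1 : a ≤ P.rk v) (h2 : P.rk v ≤ b) :
    2 * EE P Λ ε v ≤ P.G θ Λ ε v := by
  unfold FP.G EE
  have ht := (hθ (P.rk v) h1 h2).1
  have : 0 ≤ (θ (P.rk v) * |P.out v - Λ| + |P.out v - P.inn v - θ (P.rk v) * Λ|) / Λ := by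
    positivity
  linarith

/-- violation of a row -/
noncomputable def vR (z : Bool × α) : ℝ :=
  max (1 - idl P a b xb yt θ Λ ε z - ∑ y, wgt P a b xb yt θ Λ ε z y) 0

/-- violation of a column -/
noncomputable def vC (z : Bool × α) : ℝ :=
  max (idl P a b xb yt θ Λ ε z + (∑ y, wgt P a b xb yt θ Λ ε y z) - 1) 0

include hΛ hε hθ hxb in
theorem vR_lo_src (v : α) (h : P.rk v = a) (hab : a < b) :
    max (1 - ∑ y, wgt P a b xb yt θ Λ ε (false, v) y) 0 ≤ 2 * ε + EE P Λ ε v := by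
  rw [row_lo P a b xb yt hxb θ Λ ε v (by omega) (by omega), h, psi_self, one_mul]
  apply max_le
  · exact cap_ge P Λ ε hΛ hε v
  · have := EE_nonneg P Λ ε v
    linarith

include hΛ hε hθ hxb in
theorem vR_lo (hw : ∀ u v, 0 ≤ wgt P a b xb yt θ Λ ε u v)
    (v : α) (h1 : a < P.rk v) (h2 : P.rk v ≤ b) : vR P a b xb yt θ Λ ε (false, v) = 0 := by
  unfold vR
  apply max_eq_right
  by_cases h3 : P.rk v < b
  · rw [row_lo P a b xb yt hxb θ Λ ε v (by omega) h3]
    simp only [idl]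
    rw [if_pos h3]
    have := le_max_left (1 - psi θ a (P.rk v) * P.out v / ((1 + ε) * Λ)) 0
    linarith
  · simp only [idl]
    rw [if_neg h3]
    split_ifs with h4
    · obtain ⟨i, rfl⟩ := h4
      have := row_lob P a b xb yt θ Λ ε i hw
      linarith
    · have : 0 ≤ ∑ y, wgt P a b xb yt θ Λ ε (false, v) y := Finset.sum_nonneg (fun y _ => hw _ y)
      linarith

include hΛ hε hθ in
theorem vC_lo (v : α) (h1 : a < P.rk v) (h2 : P.rk v < b) :
    vC P a b xb yt θ Λ ε (false, v) ≤ max (DD P θ Λ ε a v) 0 + EE P Λ ε v := by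
  unfold vC
  have hE := EE_nonneg P Λ ε v
  have hD0 := le_max_left (DD P θ Λ ε a v) 0
  have hD1 := le_max_right (DD P θ Λ ε a v) 0
  apply max_le _ (by linarith)
  rw [col_lo P a b xb yt θ Λ ε v h1 (by omega)]
  simp only [idl]
  rw [if_pos h2]
  have hp := psi_bd θ a b hθ (P.rk v) (by omega)
  have hc := cap_le P Λ ε hΛ hε v _ hp.1 hp.2
  have hd : DD P θ Λ ε a v = psi θ a (P.rk v - 1) * P.inn v / ((1 + ε) * Λ)
      - psi θ a (P.rk v) * P.out v / ((1 + ε) * Λ) := rfl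
  rcases max_cases (1 - psi θ a (P.rk v) * P.out v / ((1 + ε) * Λ)) 0 with ⟨h, _⟩ | ⟨h, _⟩
  · rw [h]
    linarith
  · rw [h]
    linarith

open Classical in
include hΛ hε hθ in
theorem vC_lob (v : α) (h1 : a < P.rk v) (h2 : P.rk v = b) :
    vC P a b xb yt θ Λ ε (false, v) ≤ max (DD P θ Λ ε a v) 0 + EE P Λ ε v + ε
      + (if ∃ i, xb i = v then 0 else 1) := by
  unfold vC
  have hE := EE_nonneg P Λ ε v
  have hD0 := le_max_left (DD P θ Λ ε a v) 0
  have hD1 := le_max_right (DD P θ Λ ε a v) 0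
  apply max_le _ (by split_ifs <;> linarith)
  rw [col_lo P a b xb yt θ Λ ε v h1 (by omega)]
  simp only [idl]
  rw [if_neg (by omega)]
  have hp := psi_bd θ a b hθ (P.rk v) (by omega)
  have hc := cap_le P Λ ε hΛ hε v _ hp.1 hp.2
  have hd : DD P θ Λ ε a v = psi θ a (P.rk v - 1) * P.inn v / ((1 + ε) * Λ)
      - psi θ a (P.rk v) * P.out v / ((1 + ε) * Λ) := rfl
  split_ifs with h3
  · -- chain bottom
    have h5 : psi θ a (P.rk v) * P.out v / ((1 + ε) * Λ)
        = (psi θ a b / (1 + ε)) * (P.out v / Λ) := by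
      rw [h2]
      field_simp
    have h6 : P.out v / Λ ≤ 1 + ε + EE P Λ ε v := by
      have h1 : |P.out v / Λ - 1| - ε ≤ EE P Λ ε v := le_max_left _ _
      have h2 : P.out v / Λ - 1 ≤ |P.out v / Λ - 1| := le_abs_self _
      linarith
    have h7 : 0 ≤ psi θ a b / (1 + ε) := by
      have := (psi_bd θ a b hθ b le_rfl).1
      positivity
    have h8 := gam_le a b θ ε hε hθ
    have h9 : (psi θ a b / (1 + ε)) * (P.out v / Λ)
        ≤ (psi θ a b / (1 + ε)) + ε + EE P Λ ε v := by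
      nlinarith
    linarith
  · linarith

include hΛ hε hθ hyi in
theorem vC_upb (v : α) (h1 : P.rk v = P.N - b) :
    vC P a b xb yt θ Λ ε (true, v) = 0 := by
  unfold vC
  apply max_eq_right
  have h7 : 0 ≤ psi θ a b / (1 + ε) := by
    have := (psi_bd θ a b hθ b le_rfl).1
    positivity
  have hc := col_upb P a b xb yt hyi θ Λ ε h7 v h1
  simp only [idl]
  rw [if_neg (by omega)]
  split_ifs with h3
  · linarith [hc.1]
  · rw [hc.2 h3]
    norm_num

include hΛ hε hθ hyt in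
theorem vC_up (v : α) (h1 : P.N - b < P.rk v) (h2 : P.rk v ≤ P.N - a) :
    vC P a b xb yt θ Λ ε (true, v) ≤ EE P Λ ε (P.bar v) := by
  unfold vC
  have hE := EE_nonneg P Λ ε (P.bar v)
  apply max_le _ hE
  rw [col_up P a b xb yt hyt θ Λ ε v h1 h2]
  simp only [idl]
  rw [if_pos h1]
  have hp := psi_bd θ a b hθ (P.N - P.rk v) (by omega)
  have hc := cap_le P Λ ε hΛ hε (P.bar v) _ hp.1 hp.2
  rw [out_bar] at hc
  rcases max_cases (1 - psi θ a (P.N - P.rk v) * P.inn v / ((1 + ε) * Λ)) 0 with ⟨h, _⟩ | ⟨h, _⟩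
  · rw [h]
    linarith
  · rw [h]
    linarith

include hΛ hε hθ in
theorem vR_up (v : α) (h1 : P.N - b < P.rk v) (h2 : P.rk v < P.N - a) :
    vR P a b xb yt θ Λ ε (true, v) ≤ max (-DD P θ Λ ε a (P.bar v)) 0 := by
  unfold vR
  apply max_le _ (le_max_right _ _)
  refine le_trans ?_ (le_max_left _ _)
  rw [row_up P a b xb yt θ Λ ε v (by omega) h2]
  simp only [idl]
  rw [if_pos h1]
  have hb1 := P.rk_bar v
  have hd : DD P θ Λ ε a (P.bar v) = psi θ a (P.N - P.rk v - 1) * P.out v / ((1 + ε) * Λ)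
      - psi θ a (P.N - P.rk v) * P.inn v / ((1 + ε) * Λ) := by
    unfold DD
    rw [inn_bar, out_bar, show P.rk (P.bar v) = P.N - P.rk v by omega]
  have := le_max_left (1 - psi θ a (P.N - P.rk v) * P.inn v / ((1 + ε) * Λ)) 0
  linarith

include hΛ hε hθ hb in
theorem vR_upb (hw : ∀ u v, 0 ≤ wgt P a b xb yt θ Λ ε u v)
    (v : α) (h1 : P.N - b = P.rk v) (h2 : P.rk v < P.N - a) :
    vR P a b xb yt θ Λ ε (true, v) ≤ max (-DD P θ Λ ε a (P.bar v)) 0 + ε + EE P Λ ε (P.bar v) := by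
  unfold vR
  have hE := EE_nonneg P Λ ε (P.bar v)
  have hD0 := le_max_left (-DD P θ Λ ε a (P.bar v)) 0
  have hD1 := le_max_right (-DD P θ Λ ε a (P.bar v)) 0
  apply max_le _ (by linarith)
  simp only [idl]
  rw [if_neg (by omega)]
  have hb1 := P.rk_bar v
  split_ifs with h3
  · rw [row_up P a b xb yt θ Λ ε v (by omega) h2]
    have hd : DD P θ Λ ε a (P.bar v) = psi θ a (P.N - P.rk v - 1) * P.out v / ((1 + ε) * Λ)
        - psi θ a (P.N - P.rk v) * P.inn v / ((1 + ε) * Λ) := by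
      unfold DD
      rw [inn_bar, out_bar, show P.rk (P.bar v) = P.N - P.rk v by omega]
    have hk : P.N - P.rk v = b := by omega
    rw [hk] at hd
    rw [hk]
    have h5 : psi θ a b * P.inn v / ((1 + ε) * Λ)
        = (psi θ a b / (1 + ε)) * (P.inn v / Λ) := by
      field_simp
    have h6 : 1 - ε - EE P Λ ε (P.bar v) ≤ P.inn v / Λ := by
      have h1 : |P.out (P.bar v) / Λ - 1| - ε ≤ EE P Λ ε (P.bar v) := le_max_left _ _
      have h2 : -(P.out (P.bar v) / Λ - 1) ≤ |P.out (P.bar v) / Λ - 1| := neg_le_abs _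
      rw [out_bar] at h1 h2
      linarith
    have h7 : 0 ≤ psi θ a b / (1 + ε) := by
      have := (psi_bd θ a b hθ b le_rfl).1
      positivity
    have h8 := gam_le a b θ ε hε hθ
    have h9 : (psi θ a b / (1 + ε)) * (1 - P.inn v / Λ) ≤ ε + EE P Λ ε (P.bar v) := by
      nlinarith
    linarith
  · have : 0 ≤ ∑ y, wgt P a b xb yt θ Λ ε (true, v) y := Finset.sum_nonneg (fun y _ => hw _ y)
    linarith

end

end ExtNet

end Pool.Agent.SCW
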