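import Mathlib
import Pool.Agent.SCW.Def
import Pool.Agent.SCW.Menger
import Pool.Agent.SCW.ExtA
import Pool.Agent.SCW.ExtB

set_option autoImplicit false
set_option linter.unusedSectionVars false

open scoped BigOperators

namespace Pool.Agent.SCW

namespace ExtNet

variable {α : Type} [Fintype α] [DecidableEq α]

section

variable (P : FP α) {ι : Type} [Fintype ι] [DecidableEq ι]
    (a b : ℕ) (hab : a < b) (hb : 2 * b ≤ P.N) (xb yt : ι → α)
    (hxb : ∀ i, P.rk (xb i) = b) (hyt : ∀ i, P.rk (yt i) + b = P.N)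
    (hxi : Function.Injective xb) (hyi : Function.Injective yt)
    (θ : ℕ → ℝ) (Λ ε : ℝ) (hΛ : 0 < Λ) (hε : 0 < ε)
    (hθ : ∀ r, a ≤ r → r ≤ b → 0 ≤ θ r ∧ θ r ≤ 1)

/-- source violation -/
noncomputable def q1 (z : Bool × α) : ℝ :=
  if lay P a b z = 0 then max (1 - ∑ y, wgt P a b xb yt θ Λ ε z y) 0 else 0
/-- inner row violation -/
noncomputable def q2 (z : Bool × α) : ℝ :=
  if 0 < lay P a b z ∧ lay P a b z < 2 * (b - a) + 1 then vR P a b xb yt θ Λ ε z else 0
/-- inner column violation -/
noncomputable def q3 (z : Bool × α) : ℝ :=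
  if 0 < lay P a b z ∧ lay P a b z < 2 * (b - a) + 1 then vC P a b xb yt θ Λ ε z else 0
/-- sink violation -/
noncomputable def q4 (z : Bool × α) : ℝ :=
  if lay P a b z = 2 * (b - a) + 1 then max ((∑ y, wgt P a b xb yt θ Λ ε y z) - 1) 0 else 0

open Classical in
/-- indicator of not being a chain bottom -/
noncomputable def nb {ι : Type} (xb : ι → α) (v : α) : ℝ := if ∃ i, xb i = v then 0 else 1

/-- pointwise bound -/
noncomputable def BB (v : α) : ℝ :=
  (if P.rk v = a then 2 * ε else 0) + (if P.rk v = b then 2 * ε + nb xb v else 0)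
    + (if a ≤ P.rk v ∧ P.rk v ≤ b then P.G θ Λ ε v else 0)

include hab hb hxb hyt hyi hΛ hε hθ in
theorem point_le (v : α) :
    q1 P a b xb yt θ Λ ε (false, v) + q1 P a b xb yt θ Λ ε (true, P.bar v)
    + (q2 P a b xb yt θ Λ ε (false, v) + q2 P a b xb yt θ Λ ε (true, P.bar v))
    + (q3 P a b xb yt θ Λ ε (false, v) + q3 P a b xb yt θ Λ ε (true, P.bar v))
    + (q4 P a b xb yt θ Λ ε (false, v) + q4 P a b xb yt θ Λ ε (true, P.bar v))
      ≤ BB P a b xb θ Λ ε v := by
  have hbr := P.rk_bar v
  have hw : ∀ u v, 0 ≤ wgt P a b xb yt θ Λ ε u v :=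
    fun u v => wgt_nonneg P a b hb xb yt θ Λ ε hΛ hε hθ u v
  have hE := EE_nonneg P Λ ε v
  by_cases hin : a ≤ P.rk v ∧ P.rk v ≤ b
  · have hl1 : lay P a b (false, v) = P.rk v - a := by
      simp only [lay]
      rw [if_pos hin]
    have hl2 : lay P a b (true, P.bar v) = P.rk (P.bar v) - (P.N - b) + (b - a) + 1 := by
      simp only [lay]
      rw [if_pos (by omega)]
    have hEG := EE_le_G P a b θ Λ ε hΛ hε hθ v hin.1 hin.2
    rcases Nat.lt_or_ge a (P.rk v) with h1 | h1
    · have hDG := DD_le P a b θ Λ ε hΛ hε hθ v h1 hin.2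
      have hDs : max (DD P θ Λ ε a v) 0 + max (-DD P θ Λ ε a v) 0 = |DD P θ Λ ε a v| := by
        rcases le_total 0 (DD P θ Λ ε a v) with h | h
        · rw [max_eq_left h, max_eq_right (by linarith), abs_of_nonneg h]
          ring
        · rw [max_eq_right h, max_eq_left (by linarith), abs_of_nonpos h]
          ring
      have z1 : q1 P a b xb yt θ Λ ε (false, v) = 0 := by
        unfold q1
        rw [if_neg (by omega)]
      have z2 : q1 P a b xb yt θ Λ ε (true, P.bar v) = 0 := by
        unfold q1
        rw [if_neg (by omega)]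
      have z3 : q2 P a b xb yt θ Λ ε (false, v) = 0 := by
        unfold q2
        rw [if_pos (by omega)]
        exact vR_lo P a b xb yt hxb θ Λ ε hΛ hε hθ hw v h1 hin.2
      have z4 : q4 P a b xb yt θ Λ ε (false, v) = 0 := by
        unfold q4
        rw [if_neg (by omega)]
      rcases Nat.lt_or_ge (P.rk v) b with h2 | h2
      · -- inner
        have z5 : q3 P a b xb yt θ Λ ε (false, v) ≤ max (DD P θ Λ ε a v) 0 + EE P Λ ε v := by
          unfold q3
          rw [if_pos (by omega)]
          exact vC_lo P a b xb yt θ Λ ε hΛ hε hθ v h1 h2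
        have z6 : q2 P a b xb yt θ Λ ε (true, P.bar v) ≤ max (-DD P θ Λ ε a v) 0 := by
          unfold q2
          rw [if_pos (by omega)]
          have := vR_up P a b xb yt θ Λ ε hΛ hε hθ (P.bar v) (by omega) (by omega)
          rwa [P.bar_bar] at this
        have z7 : q3 P a b xb yt θ Λ ε (true, P.bar v) ≤ EE P Λ ε v := by
          unfold q3
          rw [if_pos (by omega)]
          have := vC_up P a b xb yt hyt θ Λ ε hΛ hε hθ (P.bar v) (by omega) (by omega)
          rwa [P.bar_bar] at this
        have z8 : q4 P a b xb yt θ Λ ε (true, P.bar v) = 0 := by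
          unfold q4
          rw [if_neg (by omega)]
        have z9 : BB P a b xb θ Λ ε v = P.G θ Λ ε v := by
          unfold BB
          rw [if_neg (by omega), if_neg (by omega), if_pos hin]
          ring
        rw [z1, z2, z3, z4, z8, z9]
        linarith
      · -- rank b
        have h3 : P.rk v = b := by omega
        have z5 : q3 P a b xb yt θ Λ ε (false, v) ≤
            max (DD P θ Λ ε a v) 0 + EE P Λ ε v + ε + nb xb v := by
          unfold q3
          rw [if_pos (by omega)]
          refine (vC_lob P a b xb yt θ Λ ε hΛ hε hθ v h1 h3).trans (le_of_eq ?_)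
          unfold nb
          congr
        have z6 : q2 P a b xb yt θ Λ ε (true, P.bar v)
            ≤ max (-DD P θ Λ ε a v) 0 + ε + EE P Λ ε v := by
          unfold q2
          rw [if_pos (by omega)]
          have := vR_upb P a b hb xb yt θ Λ ε hΛ hε hθ hw (P.bar v) (by omega) (by omega)
          rwa [P.bar_bar] at this
        have z7 : q3 P a b xb yt θ Λ ε (true, P.bar v) = 0 := by
          unfold q3
          rw [if_pos (by omega)]
          exact vC_upb P a b xb yt hyi θ Λ ε hΛ hε hθ (P.bar v) (by omega)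
        have z8 : q4 P a b xb yt θ Λ ε (true, P.bar v) = 0 := by
          unfold q4
          rw [if_neg (by omega)]
        have z9 : BB P a b xb θ Λ ε v = 2 * ε + nb xb v + P.G θ Λ ε v := by
          unfold BB
          rw [if_neg (by omega), if_pos h3, if_pos hin]
          ring
        rw [z1, z2, z3, z4, z7, z8, z9]
        linarith
    · -- rank a
      have h3 : P.rk v = a := by omega
      have z1 : q1 P a b xb yt θ Λ ε (false, v) ≤ 2 * ε + EE P Λ ε v := by
        unfold q1
        rw [if_pos (by omega)]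
        exact vR_lo_src P a b xb yt hxb θ Λ ε hΛ hε hθ v h3 hab
      have z2 : q1 P a b xb yt θ Λ ε (true, P.bar v) = 0 := by
        unfold q1
        rw [if_neg (by omega)]
      have z3 : q2 P a b xb yt θ Λ ε (false, v) = 0 := by
        unfold q2
        rw [if_neg (by omega)]
      have z4 : q2 P a b xb yt θ Λ ε (true, P.bar v) = 0 := by
        unfold q2
        rw [if_neg (by omega)]
      have z5 : q3 P a b xb yt θ Λ ε (false, v) = 0 := by
        unfold q3
        rw [if_neg (by omega)]
      have z6 : q3 P a b xb yt θ Λ ε (true, P.bar v) = 0 := by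
        unfold q3
        rw [if_neg (by omega)]
      have z7 : q4 P a b xb yt θ Λ ε (false, v) = 0 := by
        unfold q4
        rw [if_neg (by omega)]
      have z8 : q4 P a b xb yt θ Λ ε (true, P.bar v) ≤ EE P Λ ε v := by
        unfold q4
        rw [if_pos (by omega)]
        apply max_le _ hE
        rw [col_up P a b xb yt hyt θ Λ ε (P.bar v) (by omega) (by omega), inn_bar]
        have hp := psi_bd θ a b hθ (P.N - P.rk (P.bar v)) (by omega)
        have := cap_le P Λ ε hΛ hε v _ hp.1 hp.2
        linarith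
      have z9 : BB P a b xb θ Λ ε v = 2 * ε + P.G θ Λ ε v := by
        unfold BB
        rw [if_pos h3, if_neg (by omega), if_pos hin]
        ring
      rw [z2, z3, z4, z5, z6, z7, z9]
      linarith
  · have hl1 : lay P a b (false, v) = 2 * (b - a) + 2 := by
      simp only [lay]
      rw [if_neg hin]
    have hl2 : lay P a b (true, P.bar v) = 2 * (b - a) + 2 := by
      simp only [lay]
      rw [if_neg (by omega)]
    have z9 : BB P a b xb θ Λ ε v = 0 := by
      unfold BB
      rw [if_neg (by omega), if_neg (by omega), if_neg hin]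
      ring
    unfold q1 q2 q3 q4
    rw [z9, hl1, hl2]
    rw [if_neg (by omega), if_neg (by omega), if_neg (by omega), if_neg (by omega),
      if_neg (by omega), if_neg (by omega), if_neg (by omega), if_neg (by omega)]
    norm_num

include hxb hxi in
theorem sum_BB :
    ∑ v, BB P a b xb θ Λ ε v = ((P.M b : ℝ) - Fintype.card ι) + 2 * ε * ((P.M a : ℝ) + P.M b)
        + ∑ v ∈ P.Rg a b, P.G θ Λ ε v := by
  classical
  unfold BB
  rw [Finset.sum_add_distrib, Finset.sum_add_distrib]
  have e1 : ∑ v, (if P.rk v = a then 2 * ε else 0) = 2 * ε * (P.M a : ℝ) := by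
    rw [← Finset.sum_filter, Finset.sum_const, nsmul_eq_mul]
    unfold FP.M
    ring
  have e3 : ∑ v, (if a ≤ P.rk v ∧ P.rk v ≤ b then P.G θ Λ ε v else 0)
      = ∑ v ∈ P.Rg a b, P.G θ Λ ε v := by
    rw [← Finset.sum_filter]
    rfl
  have e2 : ∑ v, (if P.rk v = b then 2 * ε + nb xb v else 0)
      = 2 * ε * (P.M b : ℝ) + ((P.M b : ℝ) - Fintype.card ι) := by
    rw [← Finset.sum_filter, Finset.sum_add_distrib, Finset.sum_const, nsmul_eq_mul]
    have e4 : ∑ v ∈ Finset.univ.filter (fun v => P.rk v = b), nb xb v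
        = (P.M b : ℝ) - Fintype.card ι := by
      have e5 : ∀ v, nb xb v
          = 1 - (if v ∈ Finset.univ.image xb then (1:ℝ) else 0) := by
        intro v
        unfold nb
        by_cases h : ∃ i, xb i = v
        · rw [if_pos h, if_pos (by simpa using h)]
          ring
        · rw [if_neg h, if_neg (by simpa using h)]
          ring
      rw [Finset.sum_congr rfl (fun v _ => e5 v), Finset.sum_sub_distrib, Finset.sum_const,
        nsmul_eq_mul, mul_one]
      have e6 : ∑ v ∈ Finset.univ.filter (fun v => P.rk v = b),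
          (if v ∈ Finset.univ.image xb then (1:ℝ) else 0) = Fintype.card ι := by
        rw [← Finset.sum_filter, Finset.sum_const, nsmul_eq_mul, mul_one]
        have e7 : (Finset.univ.filter (fun v => P.rk v = b)).filter
            (fun v => v ∈ Finset.univ.image xb) = Finset.univ.image xb := by
          ext v
          simp only [Finset.mem_filter, Finset.mem_univ, true_and, Finset.mem_image]
          constructor
          · exact fun h => h.2
          · rintro ⟨i, rfl⟩
            exact ⟨hxb i, i, rfl⟩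
        rw [e7, Finset.card_image_of_injective _ hxi, Finset.card_univ]
      rw [e6]
      rfl
    rw [e4]
    unfold FP.M
    ring
  rw [e1, e2, e3]
  ring

include hab hb hxb hyt hxi hyi hΛ hε hθ in
theorem total_le :
    (∑ u ∈ Finset.univ.filter (fun u => lay P a b u = 0),
        max (1 - ∑ v, wgt P a b xb yt θ Λ ε u v) 0)
      + (∑ u ∈ Finset.univ.filter (fun u => 0 < lay P a b u ∧ lay P a b u < 2 * (b - a) + 1),
        max (1 - idl P a b xb yt θ Λ ε u - ∑ v, wgt P a b xb yt θ Λ ε u v) 0)
      + (∑ v ∈ Finset.univ.filter (fun v => 0 < lay P a b v ∧ lay P a b v < 2 * (b - a) + 1),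
        max (idl P a b xb yt θ Λ ε v + (∑ u, wgt P a b xb yt θ Λ ε u v) - 1) 0)
      + (∑ v ∈ Finset.univ.filter (fun v => lay P a b v = 2 * (b - a) + 1),
        max ((∑ u, wgt P a b xb yt θ Λ ε u v) - 1) 0)
      ≤ ((P.M b : ℝ) - Fintype.card ι) + 2 * ε * ((P.M a : ℝ) + P.M b)
        + ∑ v ∈ P.Rg a b, P.G θ Λ ε v := by
  have hinv : Function.Involutive P.bar := P.bar_bar
  have key : ∀ q : Bool × α → ℝ, ∑ z, q z = ∑ v, (q (false, v) + q (true, P.bar v)) := by
    intro q
    rw [sumB, Finset.sum_add_distrib]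
    congr 1
    exact (Equiv.sum_comp (hinv.toPerm P.bar) (fun v => q (true, v))).symm
  rw [Finset.sum_filter, Finset.sum_filter, Finset.sum_filter, Finset.sum_filter]
  have e1 := key (q1 P a b xb yt θ Λ ε)
  have e2 := key (q2 P a b xb yt θ Λ ε)
  have e3 := key (q3 P a b xb yt θ Λ ε)
  have e4 := key (q4 P a b xb yt θ Λ ε)
  have h : (∑ z, q1 P a b xb yt θ Λ ε z) + (∑ z, q2 P a b xb yt θ Λ ε z)
      + (∑ z, q3 P a b xb yt θ Λ ε z) + (∑ z, q4 P a b xb yt θ Λ ε z) ≤
      ((P.M b : ℝ) - Fintype.card ι) + 2 * ε * ((P.M a : ℝ) + P.M b)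
        + ∑ v ∈ P.Rg a b, P.G θ Λ ε v := by
    rw [e1, e2, e3, e4, ← Finset.sum_add_distrib, ← Finset.sum_add_distrib,
      ← Finset.sum_add_distrib, ← sum_BB P a b xb hxb hxi θ Λ ε]
    apply Finset.sum_le_sum
    intro v _
    exact point_le P a b hab hb xb yt hxb hyt hyi θ Λ ε hΛ hε hθ v
  exact h

end

end ExtNet

end Pool.Agent.SCW
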