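import Mathlib
import Pool.Agent.SCW.Def
import Pool.Agent.SCW.Menger
import Pool.Agent.SCW.ExtA
import Pool.Agent.SCW.ExtB
import Pool.Agent.SCW.ExtC

set_option autoImplicit false

open scoped BigOperators

namespace Pool.Agent.SCW

open ExtNet in
/-- Block extension: given disjoint pairs `(xb i, yt i)` at ranks `b`, `N-b`, many of them can be extended
simultaneously by disjoint saturated chains down to rank `a` and up to rank `N-a`. -/
theorem ext {α : Type} [Fintype α] [DecidableEq α] (P : FP α) {ι : Type} [Fintype ι] [DecidableEq ι]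
    (a b : ℕ) (hab : a < b) (hb : 2 * b ≤ P.N) (xb yt : ι → α)
    (hxb : ∀ i, P.rk (xb i) = b) (hyt : ∀ i, P.rk (yt i) + b = P.N)
    (hxi : Function.Injective xb) (hyi : Function.Injective yt)
    (θ : ℕ → ℝ) (Λ ε : ℝ) (hΛ : 0 < Λ) (hε : 0 < ε)
    (hθ : ∀ r, a ≤ r → r ≤ b → 0 ≤ θ r ∧ θ r ≤ 1) :
    ∃ (S : Finset ι) (lo hi : ι → ℕ → α),
      (∀ i ∈ S, lo i b = xb i) ∧ (∀ i ∈ S, hi i (P.N - b) = yt i) ∧
      (∀ i ∈ S, ∀ r, a ≤ r → r ≤ b → P.rk (lo i r) = r) ∧
      (∀ i ∈ S, ∀ r, P.N - b ≤ r → r ≤ P.N - a → P.rk (hi i r) = r) ∧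
      (∀ i ∈ S, ∀ r, a ≤ r → r < b → P.cov (lo i r) (lo i (r + 1))) ∧
      (∀ i ∈ S, ∀ r, P.N - b ≤ r → r < P.N - a → P.cov (hi i r) (hi i (r + 1))) ∧
      (∀ i ∈ S, ∀ j ∈ S, ∀ r, a ≤ r → r ≤ b → lo i r = lo j r → i = j) ∧
      (∀ i ∈ S, ∀ j ∈ S, ∀ r, P.N - b ≤ r → r ≤ P.N - a → hi i r = hi j r → i = j) ∧
      (P.M a : ℝ) - S.card ≤ ((P.M b : ℝ) - Fintype.card ι) + 2 * ε * ((P.M a : ℝ) + P.M b)
        + ∑ v ∈ P.Rg a b, P.G θ Λ ε v := by
  classical
  set T : ℝ := ((P.M b : ℝ) - Fintype.card ι) + 2 * ε * ((P.M a : ℝ) + P.M b)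
        + ∑ v ∈ P.Rg a b, P.G θ Λ ε v with hT
  have htot := total_le P a b hab hb xb yt hxb hyt hxi hyi θ Λ ε hΛ hε hθ
  rw [← hT] at htot
  have hT0 : 0 ≤ T := by
    refine le_trans ?_ htot
    have h0 : ∀ (s : Finset (Bool × α)) (g : Bool × α → ℝ), 0 ≤ ∑ z ∈ s, max (g z) 0 :=
      fun s g => Finset.sum_nonneg (fun _ _ => le_max_right _ _)
    have := h0 (Finset.univ.filter (fun u => lay P a b u = 0))
      (fun u => 1 - ∑ v, wgt P a b xb yt θ Λ ε u v)
    have := h0 (Finset.univ.filter (fun u => 0 < lay P a b u ∧ lay P a b u < 2 * (b - a) + 1))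
      (fun u => 1 - idl P a b xb yt θ Λ ε u - ∑ v, wgt P a b xb yt θ Λ ε u v)
    have := h0 (Finset.univ.filter (fun u => 0 < lay P a b u ∧ lay P a b u < 2 * (b - a) + 1))
      (fun v => idl P a b xb yt θ Λ ε v + (∑ u, wgt P a b xb yt θ Λ ε u v) - 1)
    have := h0 (Finset.univ.filter (fun v => lay P a b v = 2 * (b - a) + 1))
      (fun v => (∑ u, wgt P a b xb yt θ Λ ε u v) - 1)
    linarith
  obtain ⟨S, p, hS0, hScard, hp0, hpE, hpinj⟩ := menger (lay P a b) (2 * (b - a) + 1) (by omega)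
    (edg P a b xb yt) (fun u v h => edg_lay P a b hab hb xb yt hxb hyt u v h)
    (wgt P a b xb yt θ Λ ε) (fun u v => wgt_nonneg P a b hb xb yt θ Λ ε hΛ hε hθ u v)
    (fun u v h => wgt_edg P a b xb yt θ Λ ε u v h)
    (idl P a b xb yt θ Λ ε) (fun u => idl_nonneg P a b xb yt θ Λ ε hε hθ u)
    ⌊T⌋₊ (lt_of_le_of_lt htot (Nat.lt_floor_add_one T))
  -- layers along the paths
  have hlay : ∀ s ∈ S, ∀ t, t ≤ 2 * (b - a) + 1 → lay P a b (p s t) = t := by
    intro s hs t
    induction t with
    | zero =>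
      intro _
      rw [hp0 s hs]
      exact hS0 s hs
    | succ t ih =>
      intro ht
      have h1 := edg_lay P a b hab hb xb yt hxb hyt _ _ (hpE s hs t (by omega))
      rw [h1, ih (by omega)]
  have hlow : ∀ z : Bool × α, ∀ t, t ≤ b - a → lay P a b z = t →
      z.1 = false ∧ P.rk z.2 = a + t := by
    rintro ⟨c, v⟩ t ht h
    cases c
    · simp only [lay] at h
      split_ifs at h with h1
      · exact ⟨rfl, by simp only; omega⟩
      · omega
    · simp only [lay] at h
      split_ifs at h with h1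
      · omega
      · omega
  have hupp : ∀ z : Bool × α, ∀ t, b - a < t → t ≤ 2 * (b - a) + 1 → lay P a b z = t →
      z.1 = true ∧ P.rk z.2 = (P.N - b) + (t - (b - a) - 1) := by
    rintro ⟨c, v⟩ t ht ht2 h
    cases c
    · simp only [lay] at h
      split_ifs at h with h1
      · omega
      · omega
    · simp only [lay] at h
      split_ifs at h with h1
      · exact ⟨rfl, by simp only; omega⟩
      · omega
  have hchain : ∀ s ∈ S, ∃ i, xb i = (p s (b - a)).2 ∧ yt i = (p s (b - a + 1)).2 := by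
    intro s hs
    have h1 := hpE s hs (b - a) (by omega)
    have h2 := (hlow _ _ le_rfl (hlay s hs (b - a) (by omega))).1
    have h3 := (hupp _ _ (by omega) (by omega) (hlay s hs (b - a + 1) (by omega))).1
    rcases hz : p s (b - a) with ⟨c, v⟩
    rcases hz' : p s (b - a + 1) with ⟨d, w⟩
    rw [hz] at h1 h2
    rw [hz'] at h1 h3
    simp only at h2 h3
    subst h2
    subst h3
    simpa only [edg] using h1
  have h2 : P.M a = (Finset.univ.filter (fun u => lay P a b u = 0)).card := by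
    unfold FP.M
    apply Finset.card_bij (fun v _ => ((false, v) : Bool × α))
    · intro v hv
      simp only [Finset.mem_filter, Finset.mem_univ, true_and] at hv ⊢
      simp only [lay]
      rw [if_pos (by omega)]
      omega
    · intro v _ w _ h
      exact (Prod.ext_iff.mp h).2
    · intro z hz
      simp only [Finset.mem_filter, Finset.mem_univ, true_and] at hz
      have h3 := hlow z 0 (by omega) hz
      refine ⟨z.2, ?_, ?_⟩
      · simp only [Finset.mem_filter, Finset.mem_univ, true_and]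
        omega
      · exact Prod.ext h3.1.symm rfl
  have h3 : (P.M a : ℝ) ≤ S.card + (⌊T⌋₊ : ℝ) := by
    rw [h2]
    exact_mod_cast hScard
  have h4 := Nat.floor_le hT0
  rcases isEmpty_or_nonempty ι with hι | hι
  · have hSe : S = ∅ := by
      rw [Finset.eq_empty_iff_forall_notMem]
      intro s hs
      obtain ⟨i, _⟩ := hchain s hs
      exact isEmptyElim i
    refine ⟨∅, fun i => isEmptyElim i, fun i => isEmptyElim i, ?_, ?_, ?_, ?_, ?_, ?_, ?_, ?_, ?_⟩
    · intro i; exact isEmptyElim i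
    · intro i; exact isEmptyElim i
    · intro i; exact isEmptyElim i
    · intro i; exact isEmptyElim i
    · intro i; exact isEmptyElim i
    · intro i; exact isEmptyElim i
    · intro i; exact isEmptyElim i
    · intro i; exact isEmptyElim i
    · rw [hSe] at h3
      simp only [Finset.card_empty, Nat.cast_zero] at h3 ⊢
      linarith
  have : Nonempty α := ⟨xb (Classical.arbitrary ι)⟩
  choose! ci hci1 hci2 using hchain
  have heq : ∀ s ∈ S, ∀ s' ∈ S, ∀ t, t ≤ 2 * (b - a) + 1 → (p s t).2 = (p s' t).2 → s = s' := by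
    intro s hs s' hs' t ht h
    apply hpinj s hs s' hs' t ht
    have e1 := hlay s hs t ht
    have e2 := hlay s' hs' t ht
    apply Prod.ext _ h
    by_cases hc : t ≤ b - a
    · rw [(hlow _ _ hc e1).1, (hlow _ _ hc e2).1]
    · rw [(hupp _ _ (by omega) ht e1).1, (hupp _ _ (by omega) ht e2).1]
  have hciinj : ∀ s ∈ S, ∀ s' ∈ S, ci s = ci s' → s = s' := by
    intro s hs s' hs' h
    apply heq s hs s' hs' (b - a) (by omega)
    rw [← hci1 s hs, ← hci1 s' hs', h]
  have hback : ∀ i ∈ S.image ci, ∃ s ∈ S, ci s = i := by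
    intro i hi
    simpa using hi
  choose! si hsi1 hsi2 using hback
  refine ⟨S.image ci, fun i r => (p (si i) (r - a)).2,
    fun i r => (p (si i) (r - (P.N - b) + (b - a) + 1)).2, ?_, ?_, ?_, ?_, ?_, ?_, ?_, ?_, ?_⟩
  · intro i hi
    have := hci1 (si i) (hsi1 i hi)
    rw [hsi2 i hi] at this
    exact this.symm
  · intro i hi
    have := hci2 (si i) (hsi1 i hi)
    rw [hsi2 i hi] at this
    simp only
    rw [this]
    congr 2
    omega
  · intro i hi r h1 h2
    have := (hlow _ _ (by omega) (hlay (si i) (hsi1 i hi) (r - a) (by omega))).2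
    simp only
    omega
  · intro i hi r h1 h2
    have := (hupp _ _ (by omega) (by omega) (hlay (si i) (hsi1 i hi)
      (r - (P.N - b) + (b - a) + 1) (by omega))).2
    simp only
    omega
  · intro i hi r h1 h2
    have h3 := hpE (si i) (hsi1 i hi) (r - a) (by omega)
    have h4 := (hlow _ _ (by omega) (hlay (si i) (hsi1 i hi) (r - a) (by omega))).1
    have h5 := (hlow _ _ (by omega) (hlay (si i) (hsi1 i hi) (r - a + 1) (by omega))).1
    simp only
    rw [show r + 1 - a = r - a + 1 by omega]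
    rcases hz : p (si i) (r - a) with ⟨c, v⟩
    rcases hz' : p (si i) (r - a + 1) with ⟨d, w⟩
    rw [hz] at h3 h4
    rw [hz'] at h3 h5
    simp only at h4 h5
    subst h4
    subst h5
    simp only [edg] at h3
    exact h3.1
  · intro i hi r h1 h2
    have h3 := hpE (si i) (hsi1 i hi) (r - (P.N - b) + (b - a) + 1) (by omega)
    have h4 := (hupp _ _ (by omega) (by omega) (hlay (si i) (hsi1 i hi)
      (r - (P.N - b) + (b - a) + 1) (by omega))).1
    have h5 := (hupp _ _ (by omega) (by omega) (hlay (si i) (hsi1 i hi)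
      (r - (P.N - b) + (b - a) + 1 + 1) (by omega))).1
    simp only
    rw [show r + 1 - (P.N - b) + (b - a) + 1 = r - (P.N - b) + (b - a) + 1 + 1 by omega]
    rcases hz : p (si i) (r - (P.N - b) + (b - a) + 1) with ⟨c, v⟩
    rcases hz' : p (si i) (r - (P.N - b) + (b - a) + 1 + 1) with ⟨d, w⟩
    rw [hz] at h3 h4
    rw [hz'] at h3 h5
    simp only at h4 h5
    subst h4
    subst h5
    simp only [edg] at h3
    exact h3.1
  · intro i hi j hj r h1 h2 h
    have := heq (si i) (hsi1 i hi) (si j) (hsi1 j hj) (r - a) (by omega) h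
    rw [← hsi2 i hi, ← hsi2 j hj, this]
  · intro i hi j hj r h1 h2 h
    have := heq (si i) (hsi1 i hi) (si j) (hsi1 j hj) _ (by omega) h
    rw [← hsi2 i hi, ← hsi2 j hj, this]
  · have h1 : (S.image ci).card = S.card := by
      apply Finset.card_image_of_injOn
      intro s hs s' hs' h
      exact hciinj s (by simpa using hs) s' (by simpa using hs') h
    rw [h1]
    linarith

end Pool.Agent.SCW
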