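import Mathlib
import Pool.Agent.SCW.Def
import Pool.Agent.SCW.Ext

set_option autoImplicit false

open scoped BigOperators

namespace Pool.Agent.SCW

/-- Block step for families. -/
theorem step {α : Type} [Fintype α] [DecidableEq α] (P : FP α)
    (a b : ℕ) (hab : a < b) (hb : 2 * b ≤ P.N)
    (θ : ℕ → ℝ) (Λ ε : ℝ) (hΛ : 0 < Λ) (hε : 0 < ε)
    (hθ : ∀ r, a ≤ r → r ≤ b → 0 ≤ θ r ∧ θ r ≤ 1) (u t : ℕ) (hF : P.Fam b u t) :
    ∃ u' : ℕ, P.Fam a u' (t + 2 * (b - a) * u') ∧
      (P.M a : ℝ) - u' ≤ ((P.M b : ℝ) - u) + 2 * ε * ((P.M a : ℝ) + P.M b)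
        + ∑ v ∈ P.Rg a b, P.G θ Λ ε v := by
  classical
  obtain ⟨p, s, c, h1, h2, h3, h4, h5, h6⟩ := hF
  obtain ⟨S, lo, hi, l1, l2, l3, l4, l5, l6, l7, l8, l9⟩ :=
    ext P (ι := {i : Fin p // s i = b}) a b hab hb (fun i => c i.1 b) (fun i => c i.1 (P.N - b))
      (by
        intro i
        have := i.2
        exact h2 i.1 b (by omega) (by omega))
      (by
        intro i
        have := i.2
        rw [h2 i.1 (P.N - b) (by omega) (by omega)]
        omega)
      (by
        intro i j hij
        have e1 := i.2
        have e2 := j.2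
        exact Subtype.ext (h4 i.1 j.1 b (by omega) (by omega) (by omega) (by omega) hij))
      (by
        intro i j hij
        have e1 := i.2
        have e2 := j.2
        exact Subtype.ext (h4 i.1 j.1 (P.N - b) (by omega) (by omega) (by omega) (by omega) hij))
      θ Λ ε hΛ hε hθ
  set E : Fin p → Prop := fun i => ∃ h : s i = b, (⟨i, h⟩ : {i : Fin p // s i = b}) ∈ S with hE
  set s' : Fin p → ℕ := fun i => if E i then a else s i with hs'
  set c' : Fin p → ℕ → α := fun i r =>
    if h : E i then
      (if r < b then lo ⟨i, h.choose⟩ r else if r ≤ P.N - b then c i r else hi ⟨i, h.choose⟩ r)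
    else c i r with hc'
  have s'E : ∀ i, E i → s' i = a := fun i h => if_pos h
  have s'N : ∀ i, ¬ E i → s' i = s i := fun i h => if_neg h
  have hES : ∀ i (h : E i), (⟨i, h.choose⟩ : {i : Fin p // s i = b}) ∈ S :=
    fun i h => h.choose_spec
  have hsb : ∀ i, E i → s i = b := fun i h => h.choose
  have c'lo : ∀ i (h : E i) r, r < b → c' i r = lo ⟨i, h.choose⟩ r := by
    intro i h r hr
    simp only [hc']
    rw [dif_pos h, if_pos hr]
  have c'mid : ∀ i (_ : E i) r, b ≤ r → r ≤ P.N - b → c' i r = c i r := by
    intro i h r hr hr'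
    simp only [hc']
    rw [dif_pos h, if_neg (by omega), if_pos hr']
  have c'hi : ∀ i (h : E i) r, P.N - b < r → c' i r = hi ⟨i, h.choose⟩ r := by
    intro i h r hr
    simp only [hc']
    rw [dif_pos h, if_neg (by omega), if_neg (by omega)]
  have c'N : ∀ i, ¬ E i → ∀ r, c' i r = c i r := by
    intro i h r
    simp only [hc']
    rw [dif_neg h]
  have hcard : S.card = (Finset.univ.filter (fun i => E i)).card := by
    refine Finset.card_bij (fun i _ => i.1) ?_ ?_ ?_
    · intro i hi
      simp only [Finset.mem_filter, Finset.mem_univ, true_and]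
      exact ⟨i.2, hi⟩
    · intro i _ j _ hij
      exact Subtype.ext hij
    · intro i hi
      simp only [Finset.mem_filter, Finset.mem_univ, true_and] at hi
      exact ⟨⟨i, hi.choose⟩, hi.choose_spec, rfl⟩
  refine ⟨S.card, ⟨p, s', c', ?_, ?_, ?_, ?_, ?_, ?_⟩, ?_⟩
  · intro i
    by_cases h : E i
    · rw [s'E i h]
      exact ⟨le_rfl, by omega⟩
    · rw [s'N i h]
      have := h1 i
      omega
  · intro i r hr1 hr2
    by_cases h : E i
    · rw [s'E i h] at hr1 hr2
      have hs := hsb i h
      rcases lt_or_ge r b with hlt | hge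
      · rw [c'lo i h r hlt]
        exact l3 _ (hES i h) r hr1 hlt.le
      · rcases le_or_gt r (P.N - b) with hle | hgt
        · rw [c'mid i h r hge hle]
          exact h2 i r (by omega) (by omega)
        · rw [c'hi i h r hgt]
          exact l4 _ (hES i h) r hgt.le (by omega)
    · rw [s'N i h] at hr1 hr2
      rw [c'N i h]
      exact h2 i r hr1 hr2
  · intro i r hr1 hr2
    by_cases h : E i
    · rw [s'E i h] at hr1 hr2
      have hs := hsb i h
      rcases lt_or_ge r b with hlt | hge
      · rw [c'lo i h r hlt]
        rcases lt_or_ge (r + 1) b with hlt' | hge'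
        · rw [c'lo i h (r + 1) hlt']
          exact l5 _ (hES i h) r hr1 hlt
        · have hrb : r + 1 = b := by omega
          rw [c'mid i h (r + 1) hge' (by omega)]
          have e := l5 _ (hES i h) r hr1 hlt
          have e2 := l1 _ (hES i h)
          rw [hrb, e2] at e
          rw [hrb]
          exact e
      · rcases lt_or_ge (P.N - b) r with hgt | hle
        · rw [c'hi i h r hgt, c'hi i h (r + 1) (by omega)]
          exact l6 _ (hES i h) r hgt.le (by omega)
        · rw [c'mid i h r hge hle]
          rcases lt_or_ge (P.N - b) (r + 1) with hgt' | hle'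
          · have hrb : r = P.N - b := by omega
            rw [c'hi i h (r + 1) hgt']
            have e := l6 _ (hES i h) (P.N - b) le_rfl (by omega)
            have e2 := l2 _ (hES i h)
            rw [e2] at e
            rw [hrb]
            exact e
          · rw [c'mid i h (r + 1) (by omega) hle']
            exact h3 i r (by omega) (by omega)
    · rw [s'N i h] at hr1 hr2
      rw [c'N i h, c'N i h]
      exact h3 i r hr1 hr2
  · intro i j r hi1 hi2 hj1 hj2 hij
    by_cases h : E i
    · rw [s'E i h] at hi1 hi2
      have hs := hsb i h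
      by_cases h' : E j
      · rw [s'E j h'] at hj1 hj2
        have hs' := hsb j h'
        rcases lt_or_ge r b with hlt | hge
        · rw [c'lo i h r hlt, c'lo j h' r hlt] at hij
          have := l7 _ (hES i h) _ (hES j h') r hi1 hlt.le hij
          exact congrArg Subtype.val this
        · rcases le_or_gt r (P.N - b) with hle | hgt
          · rw [c'mid i h r hge hle, c'mid j h' r hge hle] at hij
            exact h4 i j r (by omega) (by omega) (by omega) (by omega) hij
          · rw [c'hi i h r hgt, c'hi j h' r hgt] at hij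
            have := l8 _ (hES i h) _ (hES j h') r hgt.le (by omega) hij
            exact congrArg Subtype.val this
      · rw [s'N j h'] at hj1 hj2
        have := h1 j
        rw [c'mid i h r (by omega) (by omega), c'N j h'] at hij
        exact h4 i j r (by omega) (by omega) hj1 hj2 hij
    · rw [s'N i h] at hi1 hi2
      have h1i := h1 i
      by_cases h' : E j
      · rw [s'E j h'] at hj1 hj2
        have hs' := hsb j h'
        rw [c'mid j h' r (by omega) (by omega), c'N i h] at hij
        exact h4 i j r hi1 hi2 (by omega) (by omega) hij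
      · rw [s'N j h'] at hj1 hj2
        rw [c'N i h, c'N j h'] at hij
        exact h4 i j r hi1 hi2 hj1 hj2 hij
  · rw [hcard]
    apply Finset.card_le_card
    intro i hi
    simp only [Finset.mem_filter, Finset.mem_univ, true_and] at hi ⊢
    exact s'E i hi
  · have e1 : ∀ i, P.N + 1 - 2 * s' i =
        (P.N + 1 - 2 * s i) + (if E i then 2 * (b - a) else 0) := by
      intro i
      have := h1 i
      by_cases h : E i
      · rw [s'E i h, if_pos h]
        have := hsb i h
        omega
      · rw [s'N i h, if_neg h]
        omega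
    rw [Finset.sum_congr rfl (fun i _ => e1 i), Finset.sum_add_distrib, ← Finset.sum_filter,
      Finset.sum_const, smul_eq_mul, hcard, mul_comm (2 * (b - a))]
    omega
  · have e1 : Fintype.card {i : Fin p // s i = b} =
        (Finset.univ.filter (fun i => s i = b)).card := Fintype.card_subtype _
    have e2 : (u : ℝ) ≤ (Fintype.card {i : Fin p // s i = b} : ℝ) := by
      rw [e1]
      exact_mod_cast h5
    linarith

end Pool.Agent.SCW
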