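import Mathlib
import Pool.Agent.SCW.Def
import Pool.Agent.SCW.Step
import Pool.Agent.SCW.Base

set_option autoImplicit false

open scoped BigOperators

namespace Pool.Agent.SCW

namespace IterAux

variable {α : Type} [Fintype α] [DecidableEq α] (P : FP α)

/-- sum over one rank -/
noncomputable def W (g : α → ℝ) (r : ℕ) : ℝ := ∑ v ∈ Finset.univ.filter (fun v => P.rk v = r), g v

theorem sum_Rg (g : α → ℝ) (a b : ℕ) :
    ∑ v ∈ P.Rg a b, g v = ∑ r ∈ Finset.Ico a (b + 1), W P g r := by
  have h := Finset.sum_fiberwise_of_maps_to (s := P.Rg a b) (t := Finset.Ico a (b + 1))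
    (g := P.rk) (fun v hv => by
      unfold FP.Rg at hv
      rw [Finset.mem_filter] at hv
      rw [Finset.mem_Ico]
      omega) g
  rw [← h]
  refine Finset.sum_congr rfl fun r hr => ?_
  rw [Finset.mem_Ico] at hr
  unfold W
  refine Finset.sum_congr ?_ fun _ _ => rfl
  ext v
  unfold FP.Rg
  simp only [Finset.mem_filter, Finset.mem_univ, true_and]
  omega

theorem card_Rg (a b : ℕ) : ((P.Rg a b).card : ℝ) = ∑ r ∈ Finset.Ico a (b + 1), (P.M r : ℝ) := by
  have h := sum_Rg P (fun _ => (1 : ℝ)) a b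
  rw [Finset.sum_const, nsmul_eq_mul, mul_one] at h
  rw [h]
  refine Finset.sum_congr rfl fun r _ => ?_
  unfold W FP.M
  rw [Finset.sum_const, nsmul_eq_mul, mul_one]

theorem M_bar {r : ℕ} (hr : r ≤ P.N) : P.M (P.N - r) = P.M r := by
  unfold FP.M
  refine Finset.card_bij' (fun v _ => P.bar v) (fun v _ => P.bar v) ?_ ?_ ?_ ?_
  · intro v hv
    rw [Finset.mem_filter] at hv ⊢
    have := P.rk_bar v
    refine ⟨Finset.mem_univ _, ?_⟩
    have h2 := hv.2
    omega
  · intro v hv
    rw [Finset.mem_filter] at hv ⊢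
    have := P.rk_bar v
    refine ⟨Finset.mem_univ _, ?_⟩
    have h2 := hv.2
    omega
  · intro v _
    exact P.bar_bar v
  · intro v _
    exact P.bar_bar v

theorem M_mono {m : ℕ} (hmono : ∀ r, r < m → P.M r ≤ P.M (r + 1)) {r s : ℕ} (hrs : r ≤ s)
    (hs : s ≤ m) : P.M r ≤ P.M s := by
  induction s, hrs using Nat.le_induction with
  | base => exact le_rfl
  | succ k hk ih => exact (ih (by omega)).trans (hmono k (by omega))

end IterAux

open IterAux in
/-- Iteration of the block step `K` times with block length `L`. -/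
theorem iter {α : Type} [Fintype α] [DecidableEq α] (P : FP α)
    (m : ℕ) (hm : 2 * m = P.N ∨ 2 * m + 1 = P.N) (K L : ℕ) (hL : 1 ≤ L) (hKL : K * L ≤ m)
    (hmono : ∀ r, r < m → P.M r ≤ P.M (r + 1))
    (θ : ℕ → ℝ) (Λ ε : ℝ) (hΛ : 0 < Λ) (hε : 0 < ε)
    (hθ : ∀ r, m - K * L ≤ r → r ≤ m → 0 ≤ θ r ∧ θ r ≤ 1) :
    ∃ u t : ℕ, P.Fam (m - K * L) u t ∧
      ((P.Rg (m - K * L) (P.N - (m - K * L))).card : ℝ) - t ≤
        2 * L * P.M m + (2 + 2 * L * K) * ((4 * K + 2) * ε * P.M m
          + 3 * ∑ v ∈ P.Rg (m - K * L) m, P.G θ Λ ε v) := by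
  set g : α → ℝ := P.G θ Λ ε with hg
  set w : ℕ → ℝ := W P g with hw
  have hw0 : ∀ r, m - K * L ≤ r → r ≤ m → 0 ≤ w r := by
    intro r h1 h2
    rw [hw]
    unfold W
    refine Finset.sum_nonneg fun v hv => ?_
    rw [Finset.mem_filter] at hv
    rw [hg]
    unfold FP.G
    have h3 := (hθ r h1 h2).1
    rw [hv.2]
    have h4 : 0 ≤ θ r * |P.out v - Λ| + |P.out v - P.inn v - θ r * Λ| :=
      add_nonneg (mul_nonneg h3 (abs_nonneg _)) (abs_nonneg _)
    have h5 : 0 ≤ max (|P.out v / Λ - 1| - ε) 0 := le_max_right _ _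
    have h6 := div_nonneg h4 hΛ.le
    linarith
  have hMm : (0 : ℝ) ≤ P.M m := Nat.cast_nonneg _
  -- the sum of all errors
  set ST : ℝ := ∑ r ∈ Finset.Ico (m - K * L) (m + 1), w r with hST
  have hS0 : 0 ≤ ST := Finset.sum_nonneg fun r hr => by
    rw [Finset.mem_Ico] at hr
    exact hw0 r hr.1 (by omega)
  set U : ℝ := (4 * K + 2) * ε * P.M m + 3 * ST with hU
  have hKR : (0 : ℝ) ≤ K := Nat.cast_nonneg _
  have hU0 : 0 ≤ U := by
    rw [hU]
    positivity
  have key : ∀ j, j ≤ K → ∃ u t : ℕ, P.Fam (m - j * L) u t ∧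
      (P.M (m - j * L) : ℝ) - u ≤ (4 * j + 2) * ε * P.M m +
        (2 * ∑ r ∈ Finset.Ico (m - j * L) (m + 1), w r - w (m - j * L)) ∧
      ((P.Rg (m - j * L) (P.N - (m - j * L))).card : ℝ) - t ≤
        2 * L * ((P.M m : ℝ) - P.M (m - j * L)) + (2 + 2 * L * j) * U := by
    intro j
    induction j with
    | zero =>
      intro _
      rw [Nat.zero_mul, Nat.sub_zero]
      obtain ⟨u, h1, h2⟩ := base P m hm θ Λ ε hΛ hε (hθ m (by omega) le_rfl).1
      have h3 : ∑ v ∈ P.Rg m m, P.G θ Λ ε v = w m := by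
        rw [← hg, sum_Rg P g m m, Finset.sum_Ico_succ_top le_rfl, Finset.Ico_self,
          Finset.sum_empty, zero_add]
      rw [h3] at h2
      have h4 : ∑ r ∈ Finset.Ico m (m + 1), w r = w m := by
        rw [Finset.sum_Ico_succ_top le_rfl, Finset.Ico_self, Finset.sum_empty, zero_add]
      have h5 : w m ≤ ST := Finset.single_le_sum (f := w) (fun r hr => by
        rw [Finset.mem_Ico] at hr
        exact hw0 r hr.1 (by omega)) (Finset.mem_Ico.2 ⟨by omega, by omega⟩)
      refine ⟨u, _, h1, ?_, ?_⟩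
      · rw [h4]
        push_cast
        linarith
      · have h6 : (P.M m : ℝ) - u ≤ U := by
          rw [hU]
          have : 0 ≤ (4 * (K : ℝ)) * ε * P.M m := by positivity
          nlinarith
        have h7 : ((P.Rg m (P.N - m)).card : ℝ) = ((P.N + 1 - 2 * m : ℕ) : ℝ) * P.M m := by
          rw [card_Rg]
          rcases hm with hm' | hm'
          · have e1 : P.N - m = m := by omega
            have e2 : P.N + 1 - 2 * m = 1 := by omega
            rw [e1, e2, Finset.sum_Ico_succ_top le_rfl, Finset.Ico_self, Finset.sum_empty]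
            push_cast
            ring
          · have e1 : P.N - m = m + 1 := by omega
            have e2 : P.N + 1 - 2 * m = 2 := by omega
            have e3 : P.M (m + 1) = P.M m := by
              rw [← e1]
              exact M_bar P (by omega)
            rw [e1, e2, Finset.sum_Ico_succ_top (by omega), Finset.sum_Ico_succ_top le_rfl,
              Finset.Ico_self, Finset.sum_empty, e3]
            push_cast
            ring
        have h8 : ((P.N + 1 - 2 * m : ℕ) : ℝ) ≤ 2 := by
          have : P.N + 1 - 2 * m ≤ 2 := by omega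
          exact_mod_cast this
        have h9 : (0 : ℝ) ≤ ((P.N + 1 - 2 * m : ℕ) : ℝ) := Nat.cast_nonneg _
        rw [h7]
        push_cast
        have h10 : ((P.N + 1 - 2 * m : ℕ) : ℝ) * ((P.M m : ℝ) - u) ≤ 2 * U := by
          rcases le_or_gt 0 ((P.M m : ℝ) - u) with h | h
          · exact mul_le_mul h8 h6 h (by norm_num)
          · have := mul_nonneg h9 (neg_nonneg.2 h.le)
            linarith
        linarith
    | succ j ih =>
      intro hj
      obtain ⟨u, t, h1, h2, h3⟩ := ih (by omega)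
      have hjL : (j + 1) * L ≤ K * L := Nat.mul_le_mul_right _ hj
      have hj1 : (j + 1) * L = j * L + L := by ring
      set a := m - (j + 1) * L with ha
      set b := m - j * L with hb
      have hab : b = a + L := by omega
      have hbm : b ≤ m := by omega
      have hbN : 2 * b ≤ P.N := by omega
      obtain ⟨u', h4, h5⟩ := step P a b (by omega) hbN θ Λ ε hΛ hε
        (fun r hr1 hr2 => hθ r (by omega) (by omega)) u t h1
      have e1 : ∑ v ∈ P.Rg a b, P.G θ Λ ε v = ∑ r ∈ Finset.Ico a b, w r + w b := by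
        rw [← hg, sum_Rg P g a b, Finset.sum_Ico_succ_top (by omega)]
      have e2 : ∑ r ∈ Finset.Ico a (m + 1), w r =
          ∑ r ∈ Finset.Ico a b, w r + ∑ r ∈ Finset.Ico b (m + 1), w r :=
        (Finset.sum_Ico_consecutive _ (by omega) (by omega)).symm
      have e3 : w a ≤ ∑ r ∈ Finset.Ico a b, w r :=
        Finset.single_le_sum (f := w) (fun r hr => by
          rw [Finset.mem_Ico] at hr
          exact hw0 r (by omega) (by omega)) (Finset.mem_Ico.2 ⟨le_rfl, by omega⟩)
      have e4 : (P.M a : ℝ) ≤ P.M m := by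
        exact_mod_cast M_mono P hmono (show a ≤ m by omega) le_rfl
      have e5 : (P.M b : ℝ) ≤ P.M m := by
        exact_mod_cast M_mono P hmono hbm le_rfl
      rw [e1] at h5
      have h6 : (P.M a : ℝ) - u' ≤ (4 * ((j + 1 : ℕ) : ℝ) + 2) * ε * P.M m +
          (2 * ∑ r ∈ Finset.Ico a (m + 1), w r - w a) := by
        rw [e2]
        push_cast
        have h7 : 2 * ε * ((P.M a : ℝ) + P.M b) ≤ 4 * ε * P.M m := by nlinarith
        nlinarith
      refine ⟨u', _, h4, h6, ?_⟩
      -- the bound by `U`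
      have h8 : (P.M a : ℝ) - u' ≤ U := by
        have h9 : ∑ r ∈ Finset.Ico a (m + 1), w r ≤ ST := by
          have h10 : ST = ∑ r ∈ Finset.Ico (m - K * L) a, w r +
              ∑ r ∈ Finset.Ico a (m + 1), w r :=
            (Finset.sum_Ico_consecutive _ (by omega) (by omega)).symm
          have h11 : 0 ≤ ∑ r ∈ Finset.Ico (m - K * L) a, w r := Finset.sum_nonneg fun r hr => by
            rw [Finset.mem_Ico] at hr
            exact hw0 r (by omega) (by omega)
          linarith
        have h12 : 0 ≤ w a := hw0 a (by omega) (by omega)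
        have h13 : ((j + 1 : ℕ) : ℝ) ≤ K := by exact_mod_cast hj
        have h14 : (4 * ((j + 1 : ℕ) : ℝ) + 2) * ε * P.M m ≤ (4 * K + 2) * ε * P.M m := by
          gcongr
        rw [hU]
        linarith
      -- the number of the elements
      have c1 : ((P.Rg a (P.N - a)).card : ℝ) = ∑ r ∈ Finset.Ico a b, (P.M r : ℝ) +
          ((P.Rg b (P.N - b)).card : ℝ) +
          ∑ r ∈ Finset.Ico (P.N - b + 1) (P.N - a + 1), (P.M r : ℝ) := by
        rw [card_Rg, card_Rg, Finset.sum_Ico_consecutive _ (by omega) (by omega),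
          Finset.sum_Ico_consecutive _ (by omega) (by omega)]
      have c2 : ∑ r ∈ Finset.Ico a b, (P.M r : ℝ) ≤ L * P.M b := by
        have : ∑ r ∈ Finset.Ico a b, (P.M r : ℝ) ≤ ∑ r ∈ Finset.Ico a b, (P.M b : ℝ) := by
          refine Finset.sum_le_sum fun r hr => ?_
          rw [Finset.mem_Ico] at hr
          exact_mod_cast M_mono P hmono (show r ≤ b by omega) hbm
        rw [Finset.sum_const, Nat.card_Ico, nsmul_eq_mul, hab, Nat.add_sub_cancel_left] at this
        rw [← hab] at this
        exact this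
      have c3 : ∑ r ∈ Finset.Ico (P.N - b + 1) (P.N - a + 1), (P.M r : ℝ) ≤ L * P.M b := by
        have : ∑ r ∈ Finset.Ico (P.N - b + 1) (P.N - a + 1), (P.M r : ℝ) ≤
            ∑ r ∈ Finset.Ico (P.N - b + 1) (P.N - a + 1), (P.M b : ℝ) := by
          refine Finset.sum_le_sum fun r hr => ?_
          rw [Finset.mem_Ico] at hr
          have d1 : P.M r = P.M (P.N - r) := (M_bar P (by omega)).symm
          rw [d1]
          exact_mod_cast M_mono P hmono (show P.N - r ≤ b by omega) hbm
        rw [Finset.sum_const, Nat.card_Ico, nsmul_eq_mul] at this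
        have d2 : P.N - a + 1 - (P.N - b + 1) = L := by omega
        rw [d2] at this
        exact this
      have d3 : b - a = L := by omega
      rw [c1, d3]
      have hLR : (0 : ℝ) ≤ L := Nat.cast_nonneg _
      have h15 : (L : ℝ) * ((P.M a : ℝ) - u') ≤ L * U := mul_le_mul_of_nonneg_left h8 hLR
      push_cast
      nlinarith
  obtain ⟨u, t, h1, -, h3⟩ := key K le_rfl
  refine ⟨u, t, h1, ?_⟩
  have h4 : ∑ v ∈ P.Rg (m - K * L) m, P.G θ Λ ε v = ST := by
    rw [← hg, sum_Rg P g]
  rw [h4]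
  have h5 : (0 : ℝ) ≤ P.M (m - K * L) := Nat.cast_nonneg _
  have h6 : (0 : ℝ) ≤ L := Nat.cast_nonneg _
  have h7 : 0 ≤ 2 * (L : ℝ) * P.M (m - K * L) := by positivity
  have h8 : 2 * (L : ℝ) * ((P.M m : ℝ) - P.M (m - K * L)) =
    2 * L * P.M m - 2 * (L : ℝ) * P.M (m - K * L) := by ring
  linarith

end Pool.Agent.SCW
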