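import Mathlib
import Pool.Agent.SCW.Def

set_option autoImplicit false

open scoped BigOperators

namespace Pool.Agent.SCW

/-- Slow variation of the rank sizes below the middle. -/
theorem midvar {α : Type} [Fintype α] [DecidableEq α] (P : FP α)
    (m r0 : ℕ) (hr0 : r0 ≤ m)
    (hmono : ∀ r, r < m → P.M r ≤ P.M (r + 1))
    (θ : ℕ → ℝ) (Λ ε : ℝ) (hΛ : 0 < Λ) (hε : 0 < ε)
    (hθ : ∀ r, r0 ≤ r → r ≤ m → 0 ≤ θ r) :
    (1 - ε - ∑ r ∈ Finset.Ioc r0 m, θ r) * (P.M m : ℝ) ≤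
      (1 + ε) * P.M r0 + ∑ v ∈ P.Rg r0 m, P.G θ Λ ε v := by
  classical
  -- notation
  set lev : ℕ → Finset α := fun r => Finset.univ.filter (fun v => P.rk v = r) with hlev
  set A : ℕ → ℝ := fun r => ∑ v ∈ lev r, P.out v with hA
  set E : α → ℝ := fun v => max (|P.out v / Λ - 1| - ε) 0 with hE
  set D : α → ℝ := fun v => (θ (P.rk v) * |P.out v - Λ| + |P.out v - P.inn v - θ (P.rk v) * Λ|) / Λ
    with hD
  have hGDE : ∀ v, P.G θ Λ ε v = D v + 2 * E v := fun v => rfl
  have hcardM : ∀ r, ((lev r).card : ℝ) = P.M r := fun r => rfl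
  have hE0 : ∀ v, 0 ≤ E v := fun v => le_max_right _ _
  have hEl : ∀ v, |P.out v / Λ - 1| ≤ ε + E v := by
    intro v
    have := le_max_left (|P.out v / Λ - 1| - ε) 0
    have h2 : |P.out v / Λ - 1| - ε ≤ E v := this
    linarith
  -- sum of inn on level r+1 equals sum of out on level r
  have hinn : ∀ r, ∑ v ∈ lev (r + 1), P.inn v = A r := by
    intro r
    have h1 : ∑ v ∈ lev (r + 1), P.inn v = ∑ u, ∑ v ∈ lev (r + 1), P.f u v := by
      simp only [FP.inn]
      exact Finset.sum_comm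
    have h2 : A r = ∑ u ∈ lev r, ∑ v, P.f u v := rfl
    rw [h1, h2]
    have h3 : ∀ u : α, u ∉ lev r → ∑ v ∈ lev (r + 1), P.f u v = 0 := by
      intro u hu
      apply Finset.sum_eq_zero
      intro v hv
      by_contra hne
      have hc := P.cov_rk u v (P.f_cov u v hne)
      apply hu
      simp only [hlev, Finset.mem_filter, Finset.mem_univ, true_and] at hv ⊢
      omega
    rw [← Finset.sum_subset (Finset.subset_univ (lev r)) (fun u _ hu => h3 u hu)]
    apply Finset.sum_congr rfl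
    intro u hu
    apply Finset.sum_subset (Finset.subset_univ _)
    intro v _ hv
    by_contra hne
    have hc := P.cov_rk u v (P.f_cov u v hne)
    apply hv
    simp only [hlev, Finset.mem_filter, Finset.mem_univ, true_and] at hu ⊢
    omega
  -- monotone
  have hMle : ∀ r, r ≤ m → P.M r ≤ P.M m := by
    intro r hr
    obtain ⟨d, rfl⟩ := Nat.exists_eq_add_of_le hr
    clear hr hr0 hθ
    induction d with
    | zero => exact le_rfl
    | succ d ih =>
      have h1 := ih (fun r hr => hmono r (by omega))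
      exact h1.trans (by simpa [add_assoc] using hmono (r + d) (by omega))
  -- telescoping
  have htel : ∀ s, r0 ≤ s → s ≤ m →
      A s ≤ A r0 + ∑ r ∈ Finset.Ioc r0 s, (θ r * Λ * (P.M m : ℝ) + ∑ v ∈ lev r, Λ * D v) := by
    intro s hs
    induction s, hs using Nat.le_induction with
    | base => intro _; simp
    | succ s hs ih =>
      intro hsm
      have ih' := ih (by omega)
      rw [← Finset.insert_Ioc_right_eq_Ioc_add_one hs, Finset.sum_insert (by simp)]
      have h1 : A (s + 1) - A s = ∑ v ∈ lev (s + 1), (P.out v - P.inn v) := by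
        rw [Finset.sum_sub_distrib, hinn s]
      have h2 : ∑ v ∈ lev (s + 1), (P.out v - P.inn v) ≤
          ∑ v ∈ lev (s + 1), (θ (s + 1) * Λ + Λ * D v) := by
        apply Finset.sum_le_sum
        intro v hv
        have hrk : P.rk v = s + 1 := by
          simpa [hlev] using hv
        have hDv : Λ * D v = θ (s + 1) * |P.out v - Λ| + |P.out v - P.inn v - θ (s + 1) * Λ| := by
          simp only [hD, hrk]
          field_simp
        rw [hDv]
        have h3 := le_abs_self (P.out v - P.inn v - θ (s + 1) * Λ)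
        have h4 : 0 ≤ θ (s + 1) * |P.out v - Λ| :=
          mul_nonneg (hθ _ (by omega) hsm) (abs_nonneg _)
        linarith
      have h5 : ∑ v ∈ lev (s + 1), (θ (s + 1) * Λ + Λ * D v) =
          θ (s + 1) * Λ * (P.M (s + 1) : ℝ) + ∑ v ∈ lev (s + 1), Λ * D v := by
        rw [Finset.sum_add_distrib, Finset.sum_const, nsmul_eq_mul, hcardM]
        ring
      have h6 : θ (s + 1) * Λ * (P.M (s + 1) : ℝ) ≤ θ (s + 1) * Λ * (P.M m : ℝ) := by
        apply mul_le_mul_of_nonneg_left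
        · exact_mod_cast hMle _ hsm
        · exact mul_nonneg (hθ _ (by omega) hsm) hΛ.le
      linarith
  have htm := htel m hr0 le_rfl
  -- bounds at the two ends
  have hlow : (1 - ε) * (P.M m : ℝ) - ∑ v ∈ lev m, E v ≤ A m / Λ := by
    have h1 : ∑ v ∈ lev m, (1 - ε - E v) ≤ ∑ v ∈ lev m, P.out v / Λ := by
      apply Finset.sum_le_sum
      intro v _
      have := abs_le.mp (hEl v)
      linarith [this.1]
    rw [Finset.sum_sub_distrib, Finset.sum_const, nsmul_eq_mul, hcardM, ← Finset.sum_div] at h1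
    have h2 : A m = ∑ v ∈ lev m, P.out v := rfl
    rw [h2]
    linarith
  have hup : A r0 / Λ ≤ (1 + ε) * (P.M r0 : ℝ) + ∑ v ∈ lev r0, E v := by
    have h1 : ∑ v ∈ lev r0, P.out v / Λ ≤ ∑ v ∈ lev r0, (1 + ε + E v) := by
      apply Finset.sum_le_sum
      intro v _
      have := abs_le.mp (hEl v)
      linarith [this.2]
    rw [Finset.sum_add_distrib, Finset.sum_const, nsmul_eq_mul, hcardM, ← Finset.sum_div] at h1
    have h2 : A r0 = ∑ v ∈ lev r0, P.out v := rfl
    rw [h2]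
    linarith
  have hmid : A m / Λ ≤ A r0 / Λ + (∑ r ∈ Finset.Ioc r0 m, θ r) * (P.M m : ℝ) +
      ∑ r ∈ Finset.Ioc r0 m, ∑ v ∈ lev r, D v := by
    have h1 : A r0 + ∑ r ∈ Finset.Ioc r0 m, (θ r * Λ * (P.M m : ℝ) + ∑ v ∈ lev r, Λ * D v) =
        (A r0 / Λ + (∑ r ∈ Finset.Ioc r0 m, θ r) * (P.M m : ℝ) +
      ∑ r ∈ Finset.Ioc r0 m, ∑ v ∈ lev r, D v) * Λ := by
      rw [Finset.sum_add_distrib, add_mul, add_mul, div_mul_cancel₀ _ hΛ.ne', Finset.sum_mul,
        Finset.sum_mul, Finset.sum_mul]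
      have e1 : ∀ r ∈ Finset.Ioc r0 m, ∑ v ∈ lev r, Λ * D v = (∑ v ∈ lev r, D v) * Λ := by
        intro r _
        rw [← Finset.mul_sum, mul_comm]
      rw [Finset.sum_congr rfl e1]
      have e2 : ∀ r ∈ Finset.Ioc r0 m, θ r * Λ * (P.M m : ℝ) = θ r * (P.M m : ℝ) * Λ := by
        intro r _; ring
      rw [Finset.sum_congr rfl e2]
      ring
    rw [div_le_iff₀ hΛ]
    rw [← h1]
    exact htm
  -- the right side
  have hR : ∑ v ∈ P.Rg r0 m, P.G θ Λ ε v = ∑ r ∈ Finset.Icc r0 m, ∑ v ∈ lev r, P.G θ Λ ε v := by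
    have : ∀ v ∈ P.Rg r0 m, P.rk v ∈ Finset.Icc r0 m := by
      intro v hv
      simpa [FP.Rg] using hv
    rw [← Finset.sum_fiberwise_of_maps_to this]
    apply Finset.sum_congr rfl
    intro r hr
    apply Finset.sum_congr _ (fun _ _ => rfl)
    ext v
    simp only [FP.Rg, hlev, Finset.mem_filter, Finset.mem_univ, true_and]
    constructor
    · rintro ⟨_, h⟩; exact h
    · intro h
      rw [Finset.mem_Icc] at hr
      exact ⟨by omega, h⟩
  have hD0 : ∀ v, r0 ≤ P.rk v → P.rk v ≤ m → 0 ≤ D v := by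
    intro v h1 h2
    apply div_nonneg _ hΛ.le
    exact add_nonneg (mul_nonneg (hθ _ h1 h2) (abs_nonneg _)) (abs_nonneg _)
  have hlevD : ∀ r, r0 ≤ r → r ≤ m → 0 ≤ ∑ v ∈ lev r, D v := by
    intro r h1 h2
    apply Finset.sum_nonneg
    intro v hv
    have hrk : P.rk v = r := by simpa [hlev] using hv
    exact hD0 v (by omega) (by omega)
  have hlevE : ∀ r, 0 ≤ ∑ v ∈ lev r, E v := fun r => Finset.sum_nonneg (fun v _ => hE0 v)
  have hsplit : ∀ r, ∑ v ∈ lev r, P.G θ Λ ε v = ∑ v ∈ lev r, D v + 2 * ∑ v ∈ lev r, E v := by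
    intro r
    simp only [hGDE]
    rw [Finset.sum_add_distrib, Finset.mul_sum]
  have hfin : ∑ v ∈ lev m, E v + ∑ v ∈ lev r0, E v + ∑ r ∈ Finset.Ioc r0 m, ∑ v ∈ lev r, D v ≤
      ∑ r ∈ Finset.Icc r0 m, ∑ v ∈ lev r, P.G θ Λ ε v := by
    rw [← Finset.Ioc_insert_left hr0, Finset.sum_insert (by simp)]
    have h0 := hsplit r0
    have h0D := hlevD r0 le_rfl hr0
    have h0E := hlevE r0
    have hI : ∑ r ∈ Finset.Ioc r0 m, ∑ v ∈ lev r, P.G θ Λ ε v =
        ∑ r ∈ Finset.Ioc r0 m, ∑ v ∈ lev r, D v + 2 * ∑ r ∈ Finset.Ioc r0 m, ∑ v ∈ lev r, E v := by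
      rw [Finset.mul_sum, ← Finset.sum_add_distrib]
      exact Finset.sum_congr rfl (fun r _ => hsplit r)
    rw [h0, hI]
    rcases Nat.eq_or_lt_of_le hr0 with h | h
    · subst h
      simp only [Finset.Ioc_self, Finset.sum_empty]
      linarith
    · have h7 : ∑ v ∈ lev m, E v ≤ ∑ r ∈ Finset.Ioc r0 m, ∑ v ∈ lev r, E v :=
        Finset.single_le_sum (f := fun r => ∑ v ∈ lev r, E v) (fun r _ => hlevE r)
          (Finset.mem_Ioc.mpr ⟨h, le_rfl⟩)
      have h8 : 0 ≤ ∑ r ∈ Finset.Ioc r0 m, ∑ v ∈ lev r, E v :=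
        Finset.sum_nonneg (fun r _ => hlevE r)
      linarith
  rw [hR]
  have hexp : (1 - ε - ∑ r ∈ Finset.Ioc r0 m, θ r) * (P.M m : ℝ) =
      (1 - ε) * (P.M m : ℝ) - (∑ r ∈ Finset.Ioc r0 m, θ r) * (P.M m : ℝ) := by ring
  rw [hexp]
  linarith

end Pool.Agent.SCW
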