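import Mathlib
import Pool.Agent.SCW.Def
import Pool.Agent.SCW.Perm

set_option autoImplicit false

open scoped BigOperators

namespace Pool.Agent.SCW

/-- Number of permutations of `Fin n` with `r` inversions. -/
def mah (n r : ℕ) : ℕ := (Finset.univ.filter (fun σ : Equiv.Perm (Fin n) => inv σ = r)).card

/-- The word with first letter `p` and the remaining letters ordered as `s`. -/
def Uni_w {n : ℕ} (x : Fin (n + 1) × Equiv.Perm (Fin n)) : Equiv.Perm (Fin (n + 1)) :=
  (finSuccEquiv' 0).trans ((Equiv.optionCongr x.2).trans (finSuccEquiv' x.1).symm)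

theorem Uni_w_zero {n : ℕ} (x : Fin (n + 1) × Equiv.Perm (Fin n)) : Uni_w x 0 = x.1 := by
  simp [Uni_w]

theorem Uni_w_succ {n : ℕ} (x : Fin (n + 1) × Equiv.Perm (Fin n)) (i : Fin n) :
    Uni_w x i.succ = x.1.succAbove (x.2 i) := by
  have : (finSuccEquiv' (0 : Fin (n + 1))) i.succ = some i := by
    have := finSuccEquiv'_succAbove (0 : Fin (n + 1)) i
    rwa [Fin.zero_succAbove] at this
  simp [Uni_w, this]

theorem Uni_w_inj {n : ℕ} : Function.Injective (Uni_w (n := n)) := by
  rintro ⟨p, s⟩ ⟨q, t⟩ h
  have h0 : p = q := by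
    have := congrArg (fun w : Equiv.Perm (Fin (n + 1)) => w 0) h
    simpa only [Uni_w_zero] using this
  subst h0
  congr 1
  ext i
  have := congrArg (fun w : Equiv.Perm (Fin (n + 1)) => w i.succ) h
  simp only [Uni_w_succ] at this
  exact congrArg Fin.val (Fin.succAbove_right_injective this)

theorem Uni_w_bij {n : ℕ} : Function.Bijective (Uni_w (n := n)) := by
  rw [Fintype.bijective_iff_injective_and_card]
  refine ⟨Uni_w_inj, ?_⟩
  simp [Fintype.card_perm, Nat.factorial_succ]

theorem Uni_inv_sum {n : ℕ} (σ : Equiv.Perm (Fin n)) :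
    inv σ = ∑ i, ∑ j, if i < j ∧ σ j < σ i then 1 else 0 := by
  rw [← Finset.sum_product', Finset.univ_product_univ, inv, Finset.card_filter]

theorem Uni_count {n : ℕ} (p : Fin (n + 1)) (s : Equiv.Perm (Fin n)) :
    (∑ j, if p.succAbove (s j) < p then 1 else 0) = p.val := by
  rw [Equiv.sum_comp s (fun v => if p.succAbove v < p then 1 else 0), ← Finset.card_filter]
  have : (Finset.univ.filter (fun v : Fin n => p.succAbove v < p)) =
      Finset.univ.filter (fun v : Fin n => v.val < p.val) := by
    ext v
    simp only [Finset.mem_filter, Finset.mem_univ, true_and]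
    rw [Fin.succAbove_lt_iff_castSucc_lt]
    rfl
  rw [this]
  rw [Fin.card_filter_val_lt]
  have := p.isLt
  omega

theorem Uni_inv_w {n : ℕ} (x : Fin (n + 1) × Equiv.Perm (Fin n)) :
    inv (Uni_w x) = x.1.val + inv x.2 := by
  rw [Uni_inv_sum, Fin.sum_univ_succ]
  congr 1
  · rw [Fin.sum_univ_succ]
    simp only [lt_self_iff_false, false_and, if_false, Fin.succ_pos, true_and, zero_add,
      Uni_w_zero, Uni_w_succ]
    exact Uni_count x.1 x.2
  · rw [Uni_inv_sum]
    refine Finset.sum_congr rfl (fun i _ => ?_)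
    rw [Fin.sum_univ_succ]
    simp only [Fin.not_lt_zero, false_and, if_false, zero_add, Uni_w_succ,
      Fin.succ_lt_succ_iff, Fin.succAbove_lt_succAbove_iff]

theorem Uni_rec (n r : ℕ) :
    mah (n + 1) r = ∑ i ∈ Finset.range (n + 1), if i ≤ r then mah n (r - i) else 0 := by
  have h1 : mah (n + 1) r =
      (Finset.univ.filter (fun x : Fin (n + 1) × Equiv.Perm (Fin n) =>
        x.1.val + inv x.2 = r)).card := by
    unfold mah
    refine (Finset.card_bij (fun x _ => Uni_w x) ?_ ?_ ?_).symm
    · intro x hx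
      simp only [Finset.mem_filter, Finset.mem_univ, true_and] at hx ⊢
      rw [Uni_inv_w, hx]
    · intro x _ y _ h
      exact Uni_w_inj h
    · intro w hw
      obtain ⟨x, rfl⟩ := Uni_w_bij.2 w
      simp only [Finset.mem_filter, Finset.mem_univ, true_and, Uni_inv_w] at hw
      exact ⟨x, by simp [hw], rfl⟩
  rw [h1, Finset.card_filter, ← Finset.univ_product_univ, Finset.sum_product]
  rw [← Fin.sum_univ_eq_sum_range (fun i => if i ≤ r then mah n (r - i) else 0) (n + 1)]
  refine Finset.sum_congr rfl (fun i _ => ?_)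
  simp only
  split_ifs with hi
  · unfold mah
    rw [Finset.card_filter]
    refine Finset.sum_congr rfl (fun s _ => ?_)
    congr 1
    apply propext
    omega
  · refine Finset.sum_eq_zero (fun s _ => ?_)
    rw [if_neg (by omega)]

theorem Uni_symm (n r : ℕ) (h : r ≤ n * (n - 1) / 2) : mah n r = mah n (n * (n - 1) / 2 - r) := by
  unfold mah
  refine Finset.card_bij (fun σ _ => σ * Fin.revPerm) ?_ ?_ ?_
  · intro σ hσ
    simp only [Finset.mem_filter, Finset.mem_univ, true_and] at hσ ⊢
    have := inv_rev σ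
    omega
  · intro a _ b _ hab
    exact mul_right_cancel hab
  · intro σ hσ
    simp only [Finset.mem_filter, Finset.mem_univ, true_and] at hσ
    refine ⟨σ * Fin.revPerm, ?_, ?_⟩
    · simp only [Finset.mem_filter, Finset.mem_univ, true_and]
      have := inv_rev σ
      omega
    · ext x
      simp

theorem Uni_tri (n : ℕ) : (n + 1) * (n + 1 - 1) / 2 = n * (n - 1) / 2 + n := by
  rcases n with _ | n
  · rfl
  · have : (n + 1 + 1) * (n + 1 + 1 - 1) = (n + 1) * (n + 1 - 1) + (n + 1) * 2 := by
      simp only [Nat.add_sub_cancel]; ring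
    rw [this, Nat.add_mul_div_right _ _ (by norm_num)]

/-- Monotonicity away from the centre. -/
theorem Uni_gen (n : ℕ)
    (ih : ∀ r, 2 * (r + 1) ≤ n * (n - 1) / 2 → mah n r ≤ mah n (r + 1)) (a b : ℕ)
    (hab : a ≤ b) (h : a + b ≤ n * (n - 1) / 2) : mah n a ≤ mah n b := by
  have key : ∀ b, a ≤ b → 2 * b ≤ n * (n - 1) / 2 → mah n a ≤ mah n b := by
    intro b hb
    induction b, hb using Nat.le_induction with
    | base => intro _; exact le_rfl
    | succ b _ ihb =>
      intro h2
      exact (ihb (by omega)).trans (ih b (by omega))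
  by_cases h2 : 2 * b ≤ n * (n - 1) / 2
  · exact key b hab h2
  · rw [Uni_symm n b (by omega)]
    exact key _ (by omega) (by omega)

/-- Unimodality of the Mahonian numbers (lower half). -/
theorem mah_mono (n r : ℕ) (h : 2 * (r + 1) ≤ n * (n - 1) / 2) : mah n r ≤ mah n (r + 1) := by
  induction n generalizing r with
  | zero => simp at h
  | succ n ih =>
    rw [Uni_tri] at h
    rw [Uni_rec, Uni_rec, Finset.sum_range_succ, Finset.sum_range_succ']
    simp only [Nat.zero_le, if_true, Nat.sub_zero]
    have h1 : ∀ i ∈ Finset.range n, (if i + 1 ≤ r + 1 then mah n (r + 1 - (i + 1)) else 0)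
        = (if i ≤ r then mah n (r - i) else 0) := by
      intro i _
      by_cases hi : i ≤ r
      · rw [if_pos (by omega), if_pos hi]
        congr 1
        omega
      · rw [if_neg (by omega), if_neg hi]
    rw [Finset.sum_congr rfl h1]
    apply Nat.add_le_add_left
    split_ifs with hn
    · exact Uni_gen n ih (r - n) (r + 1) (by omega) (by omega)
    · exact Nat.zero_le _

end Pool.Agent.SCW
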