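import Mathlib
import Pool.Agent.SCW.Def
import Pool.Agent.SCW.Perm
import Pool.Agent.SCW.Mid
import Pool.Agent.SCW.Uni
import Pool.Agent.SCW.GSum

set_option autoImplicit false

open scoped BigOperators

namespace Pool.Agent.SCW

theorem M_le_fact (k r : ℕ) : ((wP k).M r : ℝ) ≤ ((k + 1).factorial : ℝ) := by
  have h : (wP k).M r ≤ (k + 1).factorial := by
    unfold FP.M
    refine (Finset.card_le_univ _).trans ?_
    rw [Fintype.card_perm, Fintype.card_fin]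
  exact_mod_cast h

/-- Lower bound for the number of permutations of rank a little below the middle. -/
theorem mid_step (k : ℕ) (hk : 1 ≤ k) (h : ℕ) (hh : 144 * (h : ℝ) ^ 2 ≤ ((k : ℝ) + 1) ^ 3)
    (j : ℕ) (hj : j < h) (hm : j ≤ (wP k).N / 2) :
    5 / 8 * ((wP k).M ((wP k).N / 2) : ℝ) ≤ 9 / 8 * ((wP k).M ((wP k).N / 2 - j) : ℝ)
      + ((k + 1).factorial : ℝ) * (7128 * (2 * (h : ℝ) + 1) / ((k : ℝ) + 1) ^ ((7 : ℝ) / 2)
        + 36 / ((k : ℝ) + 1) ^ 2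
        + 82944 / (1 / 8 * ((k : ℝ) + 1)) * Real.exp (-((1 / 8) ^ 2 * ((k : ℝ) + 1) / 20736))) := by
  have hn : (0 : ℝ) < (k : ℝ) + 1 := by positivity
  have hLam : 0 < LamW k := by
    unfold LamW
    have : (1 : ℝ) ≤ k := by exact_mod_cast hk
    positivity
  have hmono : ∀ r, r < (wP k).N / 2 → (wP k).M r ≤ (wP k).M (r + 1) := by
    intro r hr
    have h1 : (wP k).N = (k + 1) * (k + 1 - 1) / 2 := rfl
    have := mah_mono (k + 1) r (by omega)
    exact this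
  have hθ : ∀ r, (wP k).N / 2 - j ≤ r → r ≤ (wP k).N / 2 → 0 ≤ thW k r := by
    intro r h1 h2
    exact (thW_bd k hk j r h1 h2).1
  have hmv := midvar (wP k) ((wP k).N / 2) ((wP k).N / 2 - j) (by omega) hmono (thW k) (LamW k)
    (1 / 8) hLam (by norm_num) hθ
  have hg := gsum k hk j (1 / 8) (by norm_num)
  have hjh : (j : ℝ) ≤ (h : ℝ) := by exact_mod_cast hj.le
  have hjh1 : (j : ℝ) + 1 ≤ (h : ℝ) := by exact_mod_cast hj
  have hsum : ∑ r ∈ Finset.Ioc ((wP k).N / 2 - j) ((wP k).N / 2), thW k r ≤ 1 / 4 := by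
    have h1 : ∀ r ∈ Finset.Ioc ((wP k).N / 2 - j) ((wP k).N / 2),
        thW k r ≤ 18 * (2 * (j : ℝ) + 1) / ((k : ℝ) + 1) ^ 3 := by
      intro r hr
      rw [Finset.mem_Ioc] at hr
      exact (thW_bd k hk j r (by omega) hr.2).2
    have h2 := Finset.sum_le_card_nsmul _ _ _ h1
    rw [Nat.card_Ioc, nsmul_eq_mul] at h2
    have h3 : (wP k).N / 2 - ((wP k).N / 2 - j) = j := by omega
    rw [h3] at h2
    refine h2.trans ?_
    have hj0 : (0 : ℝ) ≤ j := Nat.cast_nonneg j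
    have h4 : (j : ℝ) * (18 * (2 * (j : ℝ) + 1) / ((k : ℝ) + 1) ^ 3)
        = 18 * ((j : ℝ) * (2 * (j : ℝ) + 1)) / ((k : ℝ) + 1) ^ 3 := by ring
    rw [h4, div_le_iff₀ (by positivity)]
    have h5 : (j : ℝ) * (2 * (j : ℝ) + 1) ≤ 2 * (h : ℝ) ^ 2 := by nlinarith
    linarith
  have hM0 : (0 : ℝ) ≤ ((wP k).M ((wP k).N / 2) : ℝ) := Nat.cast_nonneg _
  have hL : 5 / 8 * ((wP k).M ((wP k).N / 2) : ℝ) ≤
      (1 - 1 / 8 - ∑ r ∈ Finset.Ioc ((wP k).N / 2 - j) ((wP k).N / 2), thW k r)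
        * ((wP k).M ((wP k).N / 2) : ℝ) := by
    apply mul_le_mul_of_nonneg_right _ hM0
    linarith
  have hfac : (0 : ℝ) ≤ ((k + 1).factorial : ℝ) := Nat.cast_nonneg _
  have hgs : ((k + 1).factorial : ℝ) * (7128 * (2 * (j : ℝ) + 1) / ((k : ℝ) + 1) ^ ((7 : ℝ) / 2)
        + 36 / ((k : ℝ) + 1) ^ 2
        + 82944 / (1 / 8 * ((k : ℝ) + 1)) * Real.exp (-((1 / 8) ^ 2 * ((k : ℝ) + 1) / 20736)))
      ≤ ((k + 1).factorial : ℝ) * (7128 * (2 * (h : ℝ) + 1) / ((k : ℝ) + 1) ^ ((7 : ℝ) / 2)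
        + 36 / ((k : ℝ) + 1) ^ 2
        + 82944 / (1 / 8 * ((k : ℝ) + 1)) * Real.exp (-((1 / 8) ^ 2 * ((k : ℝ) + 1) / 20736))) := by
    apply mul_le_mul_of_nonneg_left _ hfac
    have hpow : (0 : ℝ) < ((k : ℝ) + 1) ^ ((7 : ℝ) / 2) := Real.rpow_pos_of_pos hn _
    have : 7128 * (2 * (j : ℝ) + 1) / ((k : ℝ) + 1) ^ ((7 : ℝ) / 2)
        ≤ 7128 * (2 * (h : ℝ) + 1) / ((k : ℝ) + 1) ^ ((7 : ℝ) / 2) := by
      apply div_le_div_of_nonneg_right _ hpow.le
      linarith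
    linarith
  have := hL.trans (hmv.trans (add_le_add le_rfl (hg.trans hgs)))
  have e : (1 + 1 / 8 : ℝ) = 9 / 8 := by norm_num
  rw [e] at this
  exact this

/-- The error term is `O(n^{-2})`. -/
theorem gs_le (n : ℝ) (hn : 1 ≤ n) (h : ℝ) (hh : h ≤ n ^ ((3 : ℝ) / 2)) (h0 : 0 ≤ h) :
    7128 * (2 * h + 1) / n ^ ((7 : ℝ) / 2) + 36 / n ^ 2
      + 82944 / (1 / 8 * n) * Real.exp (-((1 / 8) ^ 2 * n / 20736)) ≤ 10 ^ 12 / n ^ 2 := by
  have hn0 : 0 < n := by linarith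
  have h32 : 1 ≤ n ^ ((3 : ℝ) / 2) := Real.one_le_rpow hn (by norm_num)
  have e1 : n ^ ((7 : ℝ) / 2) = n ^ ((3 : ℝ) / 2) * n ^ 2 := by
    rw [← Real.rpow_natCast n 2, ← Real.rpow_add hn0]
    norm_num
  have t1 : 7128 * (2 * h + 1) / n ^ ((7 : ℝ) / 2) ≤ 21384 / n ^ 2 := by
    rw [e1, div_le_div_iff₀ (by positivity) (by positivity)]
    have : 2 * h + 1 ≤ 3 * n ^ ((3 : ℝ) / 2) := by linarith
    have hn2 : 0 < n ^ 2 := by positivity
    nlinarith [mul_le_mul_of_nonneg_right this hn2.le]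
  have t2 : Real.exp (-((1 / 8) ^ 2 * n / 20736)) ≤ 1327104 / n := by
    rw [Real.exp_neg]
    have h1 : (1 / 8 : ℝ) ^ 2 * n / 20736 ≤ Real.exp ((1 / 8) ^ 2 * n / 20736) := by
      have := Real.add_one_le_exp ((1 / 8 : ℝ) ^ 2 * n / 20736)
      linarith
    have h2 : (0 : ℝ) < (1 / 8 : ℝ) ^ 2 * n / 20736 := by positivity
    refine (inv_anti₀ h2 h1).trans (le_of_eq ?_)
    field_simp
    norm_num
  have t3 : 82944 / (1 / 8 * n) * Real.exp (-((1 / 8) ^ 2 * n / 20736)) ≤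
      82944 / (1 / 8 * n) * (1327104 / n) :=
    mul_le_mul_of_nonneg_left t2 (by positivity)
  have t4 : 82944 / (1 / 8 * n) * (1327104 / n) = 880602513408 / n ^ 2 := by
    field_simp
    norm_num
  rw [t4] at t3
  have t5 : 21384 / n ^ 2 + 36 / n ^ 2 + 880602513408 / n ^ 2 ≤ 10 ^ 12 / n ^ 2 := by
    rw [← add_div, ← add_div]
    apply div_le_div_of_nonneg_right _ (by positivity)
    norm_num
  linarith

/-- The largest rank size is `O(n! / n^{3/2})`. -/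
theorem mid_bound : ∃ c0 : ℝ, 0 < c0 ∧ ∀ k : ℕ,
    ((wP k).M ((wP k).N / 2) : ℝ) ≤ c0 * ((k + 1).factorial : ℝ) / ((k : ℝ) + 1) ^ ((3 : ℝ) / 2) := by
  refine ⟨10 ^ 13, by norm_num, ?_⟩
  intro k
  have hn : (0 : ℝ) < (k : ℝ) + 1 := by positivity
  have hfac : (0 : ℝ) < ((k + 1).factorial : ℝ) := by
    exact_mod_cast Nat.factorial_pos _
  have h32 : (0 : ℝ) < ((k : ℝ) + 1) ^ ((3 : ℝ) / 2) := Real.rpow_pos_of_pos hn _
  rw [le_div_iff₀ h32]
  by_cases hk : k + 1 < 100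
  · have h1 := M_le_fact k ((wP k).N / 2)
    have h2 : ((k : ℝ) + 1) ^ ((3 : ℝ) / 2) ≤ 10 ^ 4 := by
      have h3 : (k : ℝ) + 1 ≤ 100 := by exact_mod_cast hk.le
      calc ((k : ℝ) + 1) ^ ((3 : ℝ) / 2) ≤ (100 : ℝ) ^ ((3 : ℝ) / 2) :=
            Real.rpow_le_rpow hn.le h3 (by norm_num)
        _ ≤ (100 : ℝ) ^ (2 : ℝ) := Real.rpow_le_rpow_of_exponent_le (by norm_num) (by norm_num)
        _ = 10 ^ 4 := by norm_num
    have hM0 : (0 : ℝ) ≤ ((wP k).M ((wP k).N / 2) : ℝ) := Nat.cast_nonneg _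
    nlinarith [mul_le_mul h1 h2 h32.le hfac.le]
  · push Not at hk
    set n : ℝ := (k : ℝ) + 1 with hnd
    have hn100 : (100 : ℝ) ≤ n := by
      rw [hnd]
      exact_mod_cast hk
    set q : ℝ := n ^ ((3 : ℝ) / 2) with hq
    have hq2 : q ^ 2 = n ^ 3 := by
      rw [hq, ← Real.rpow_natCast, ← Real.rpow_mul hn.le]
      norm_num
    have hqn : q ≤ n ^ 2 := by
      rw [hq, ← Real.rpow_natCast n 2]
      exact Real.rpow_le_rpow_of_exponent_le (by linarith) (by norm_num)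
    have hq1000 : 1000 ≤ q := by
      have h1 : (1000 : ℝ) ^ 2 ≤ q ^ 2 := by
        rw [hq2]
        calc (1000 : ℝ) ^ 2 = 100 ^ 3 := by norm_num
          _ ≤ n ^ 3 := by gcongr
      exact le_of_sq_le_sq h1 h32.le |> fun h => h
    set h : ℕ := ⌊q / 12⌋₊ with hh
    have hh1 : (h : ℝ) ≤ q / 12 := Nat.floor_le (by positivity)
    have hh2 : q / 12 < (h : ℝ) + 1 := Nat.lt_floor_add_one _
    have hh3 : q / 24 ≤ (h : ℝ) := by linarith
    have hhsq : 144 * (h : ℝ) ^ 2 ≤ n ^ 3 := by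
      rw [← hq2]
      have : (0 : ℝ) ≤ h := Nat.cast_nonneg h
      nlinarith
    have hNn : (wP k).N = (k + 1) * (k + 1 - 1) / 2 := rfl
    have hhm : h ≤ (wP k).N / 2 := by
      have h1 : 12 * (h : ℝ) ≤ n ^ 2 := by linarith
      have h2 : 12 * h ≤ (k + 1) ^ 2 := by
        have : (12 * (h : ℝ)) ≤ ((k + 1 : ℕ) : ℝ) ^ 2 := by
          push_cast
          exact h1
        exact_mod_cast this
      rw [hNn]
      have h3 : (k + 1) * (k + 1 - 1) = (k + 1) ^ 2 - (k + 1) := by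
        rw [Nat.add_sub_cancel, pow_two, Nat.mul_succ]
        simp
      have h4 : 100 * (k + 1) ≤ (k + 1) ^ 2 := by nlinarith
      omega
    have hk1 : 1 ≤ k := by omega
    set Y : ℝ := ((k + 1).factorial : ℝ) * (7128 * (2 * (h : ℝ) + 1) / n ^ ((7 : ℝ) / 2)
        + 36 / n ^ 2
        + 82944 / (1 / 8 * n) * Real.exp (-((1 / 8) ^ 2 * n / 20736))) with hY
    have hYle : Y ≤ ((k + 1).factorial : ℝ) * (10 ^ 12 / n ^ 2) := by
      apply mul_le_mul_of_nonneg_left _ hfac.le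
      exact gs_le n (by linarith) h (by rw [← hq]; linarith) (Nat.cast_nonneg h)
    have hstep : ∀ j ∈ Finset.range h, 5 / 8 * ((wP k).M ((wP k).N / 2) : ℝ)
        ≤ 9 / 8 * ((wP k).M ((wP k).N / 2 - j) : ℝ) + Y := by
      intro j hj
      rw [Finset.mem_range] at hj
      exact mid_step k hk1 h hhsq j hj (by omega)
    have hsum := Finset.sum_le_sum hstep
    rw [Finset.sum_const, Finset.card_range, nsmul_eq_mul, Finset.sum_add_distrib,
      Finset.sum_const, Finset.card_range, nsmul_eq_mul, ← Finset.mul_sum] at hsum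
    have htot : ∑ j ∈ Finset.range h, ((wP k).M ((wP k).N / 2 - j) : ℝ)
        ≤ ((k + 1).factorial : ℝ) := by
      have h1 : ∑ j ∈ Finset.range h, (wP k).M ((wP k).N / 2 - j) ≤ (k + 1).factorial := by
        unfold FP.M
        rw [← Finset.card_biUnion]
        · refine (Finset.card_le_univ _).trans ?_
          rw [Fintype.card_perm, Fintype.card_fin]
        · intro i hi j hj hij
          simp only [Finset.coe_range, Set.mem_Iio] at hi hj
          rw [Function.onFun, Finset.disjoint_left]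
          intro v hv hv'
          simp only [Finset.mem_filter, Finset.mem_univ, true_and] at hv hv'
          omega
      exact_mod_cast h1
    have hM0 : (0 : ℝ) ≤ ((wP k).M ((wP k).N / 2) : ℝ) := Nat.cast_nonneg _
    set M0 : ℝ := ((wP k).M ((wP k).N / 2) : ℝ) with hM0d
    set F : ℝ := ((k + 1).factorial : ℝ) with hF
    have hhpos : 0 < (h : ℝ) := by linarith
    -- h * (5/8 M0) ≤ 9/8 F + h Y
    have key : (h : ℝ) * (5 / 8 * M0) ≤ 9 / 8 * F + h * Y := by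
      linarith
    have k2 : (h : ℝ) * Y ≤ (h : ℝ) * (F * (10 ^ 12 / n ^ 2)) :=
      mul_le_mul_of_nonneg_left hYle hhpos.le
    have k3 : F * (10 ^ 12 / n ^ 2) ≤ F * (10 ^ 12 / q) := by
      apply mul_le_mul_of_nonneg_left _ hfac.le
      apply div_le_div_of_nonneg_left (by norm_num) h32 hqn
    have k4 : (h : ℝ) * (5 / 8 * M0) ≤ 9 / 8 * F + h * (F * (10 ^ 12 / q)) :=
      key.trans (by nlinarith)
    have k5 : (h : ℝ) * (5 / 8 * M0) * q ≤ 9 / 8 * F * q + h * (F * 10 ^ 12) := by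
      have := mul_le_mul_of_nonneg_right k4 h32.le
      have e : (9 / 8 * F + h * (F * (10 ^ 12 / q))) * q = 9 / 8 * F * q + h * (F * 10 ^ 12) := by
        field_simp
      linarith
    have k6 : 9 / 8 * F * q ≤ 27 * F * h := by nlinarith
    have k7 : (h : ℝ) * (M0 * q) ≤ h * (10 ^ 13 * F) := by nlinarith
    exact le_of_mul_le_mul_left k7 hhpos

end Pool.Agent.SCW
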