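import Mathlib
import Pool.Agent.SCW.Def
import Pool.Agent.SCW.Perm
import Pool.Agent.SCW.Iter
import Pool.Agent.SCW.Conv
import Pool.Agent.SCW.Uni
import Pool.Agent.SCW.GSum
import Pool.Agent.SCW.MidB

set_option autoImplicit false

open scoped BigOperators

namespace Pool.Agent.SCW

/-- The property proved: disjoint symmetric saturated chains of the weak order on `S_n` covering at
least `t` permutations. -/
def Packs (n : ℕ) (t : ℝ) : Prop :=
  ∃ (k : ℕ) (C : Fin k → List (Equiv.Perm (Fin n))),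
    (∀ i j, i ≠ j → ∀ σ, σ ∈ C i → σ ∉ C j) ∧
    (∀ i, (C i).Nodup) ∧
    (∀ i, ∀ j : ℕ, ∀ a b : Equiv.Perm (Fin n),
      (C i)[j]? = some a → (C i)[j + 1]? = some b → covW a b) ∧
    (∀ i, ∃ a b : Equiv.Perm (Fin n), (C i).head? = some a ∧ (C i).getLast? = some b ∧
      inv a + inv b = n * (n - 1) / 2) ∧
    t ≤ ((Finset.univ.filter (fun σ : Equiv.Perm (Fin n) => ∃ i, σ ∈ C i)).card : ℝ)

theorem Master_N (k : ℕ) : (wP k).N = (k + 1) * (k + 1 - 1) / 2 := rfl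

theorem Master_N2 (k : ℕ) : 2 * (wP k).N = (k + 1) * k := by
  rw [Master_N, Nat.add_sub_cancel]
  have h : 2 ∣ (k + 1) * k := by
    have := Nat.even_mul_succ_self k
    rw [mul_comm]
    exact this.two_dvd
  exact Nat.mul_div_cancel' h

/-- Most permutations lie in the middle ranks. -/
theorem Master_Rg (k h : ℕ) (hh : h ≤ (wP k).N / 2) :
    ((k + 1).factorial : ℝ) - ((k + 1).factorial : ℝ) *
      (2 * Real.exp (-((2 * (h : ℝ)) ^ 2 / (256 * ((k : ℝ) + 1) ^ 3)))) ≤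
      (((wP k).Rg ((wP k).N / 2 - h) ((wP k).N - ((wP k).N / 2 - h))).card : ℝ) := by
  classical
  have h1 := inv_tail k (2 * (h : ℝ)) (by positivity)
  have h2 : (Finset.univ : Finset (Equiv.Perm (Fin (k + 1)))).card = (k + 1).factorial := by
    rw [Finset.card_univ, Fintype.card_perm, Fintype.card_fin]
  have h3 : (Finset.univ : Finset (Equiv.Perm (Fin (k + 1)))) ⊆
      (wP k).Rg ((wP k).N / 2 - h) ((wP k).N - ((wP k).N / 2 - h)) ∪
      Finset.univ.filter (fun σ : Equiv.Perm (Fin (k + 1)) =>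
        2 * (h : ℝ) ≤ |((k : ℝ) + 1) * k / 2 - 2 * (inv σ : ℝ)|) := by
    intro σ _
    rw [Finset.mem_union]
    by_cases hσ : σ ∈ (wP k).Rg ((wP k).N / 2 - h) ((wP k).N - ((wP k).N / 2 - h))
    · exact Or.inl hσ
    · right
      rw [Finset.mem_filter]
      refine ⟨Finset.mem_univ _, ?_⟩
      unfold FP.Rg at hσ
      rw [Finset.mem_filter] at hσ
      have hσ2 : ¬((wP k).N / 2 - h ≤ inv σ ∧ inv σ ≤ (wP k).N - ((wP k).N / 2 - h)) :=
        fun hc => hσ ⟨Finset.mem_univ _, hc⟩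
      have hN2 : (2 : ℝ) * ((wP k).N : ℝ) = ((k : ℝ) + 1) * k := by
        exact_mod_cast Master_N2 k
      have hN3 : ((k : ℝ) + 1) * k / 2 = ((wP k).N : ℝ) := by linarith
      rw [hN3, le_abs]
      by_cases hc : (wP k).N / 2 - h ≤ inv σ
      · right
        have h4 : (wP k).N + 2 * h ≤ 2 * inv σ := by
          have : (wP k).N - ((wP k).N / 2 - h) < inv σ := by
            by_contra hcc
            push Not at hcc
            exact hσ2 ⟨hc, hcc⟩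
          omega
        have h5 : ((wP k).N : ℝ) + 2 * h ≤ 2 * (inv σ : ℝ) := by exact_mod_cast h4
        linarith
      · left
        have h4 : 2 * h + 2 * inv σ ≤ (wP k).N := by omega
        have h5 : 2 * (h : ℝ) + 2 * (inv σ : ℝ) ≤ ((wP k).N : ℝ) := by exact_mod_cast h4
        linarith
  have h4 := (Finset.card_le_card h3).trans (Finset.card_union_le _ _)
  rw [h2] at h4
  have h5 : ((k + 1).factorial : ℝ) ≤
      (((wP k).Rg ((wP k).N / 2 - h) ((wP k).N - ((wP k).N / 2 - h))).card : ℝ) +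
      ((Finset.univ.filter (fun σ : Equiv.Perm (Fin (k + 1)) =>
        2 * (h : ℝ) ≤ |((k : ℝ) + 1) * k / 2 - 2 * (inv σ : ℝ)|)).card : ℝ) := by
    exact_mod_cast h4
  linarith

/-- Master inequality. -/
theorem master (c0 : ℝ) (hc0 : ∀ k : ℕ,
    ((wP k).M ((wP k).N / 2) : ℝ) ≤ c0 * ((k + 1).factorial : ℝ) / ((k : ℝ) + 1) ^ ((3 : ℝ) / 2))
    (k : ℕ) (hk : 1 ≤ k) (K L : ℕ) (hL : 1 ≤ L) (hKL : K * L ≤ (wP k).N / 2)
    (hKL3 : 18 * (2 * ((K * L : ℕ) : ℝ) + 1) ≤ ((k : ℝ) + 1) ^ 3) (ε : ℝ) (hε : 0 < ε) :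
    Packs (k + 1) (((k + 1).factorial : ℝ) * (1
      - 2 * Real.exp (-((2 * ((K * L : ℕ) : ℝ)) ^ 2 / (256 * ((k : ℝ) + 1) ^ 3)))
      - 2 * L * (c0 / ((k : ℝ) + 1) ^ ((3 : ℝ) / 2))
      - (2 + 2 * L * K) * ((4 * K + 2) * ε * (c0 / ((k : ℝ) + 1) ^ ((3 : ℝ) / 2))
        + 3 * (7128 * (2 * ((K * L : ℕ) : ℝ) + 1) / ((k : ℝ) + 1) ^ ((7 : ℝ) / 2)
          + 36 / ((k : ℝ) + 1) ^ 2
          + 82944 / (ε * ((k : ℝ) + 1)) * Real.exp (-(ε ^ 2 * ((k : ℝ) + 1) / 20736)))))) := by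
  classical
  have hk1 : (0 : ℝ) < (k : ℝ) + 1 := by positivity
  have hΛ : 0 < LamW k := lt_of_lt_of_le (by positivity) (LamW_ge k hk)
  have hθ : ∀ r, (wP k).N / 2 - K * L ≤ r → r ≤ (wP k).N / 2 → 0 ≤ thW k r ∧ thW k r ≤ 1 := by
    intro r h1 h2
    obtain ⟨h3, h4⟩ := thW_bd k hk (K * L) r h1 h2
    refine ⟨h3, h4.trans ?_⟩
    rw [div_le_one (by positivity)]
    exact hKL3
  have hmono : ∀ r, r < (wP k).N / 2 → (wP k).M r ≤ (wP k).M (r + 1) := by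
    intro r hr
    refine mah_mono (k + 1) r ?_
    have := Master_N k
    omega
  obtain ⟨u, t, hF, hineq⟩ := iter (wP k) ((wP k).N / 2) (by omega) K L hL hKL hmono (thW k)
    (LamW k) ε hΛ hε hθ
  obtain ⟨p, C, hC1, hC2, hC3, hC4, hC5⟩ := conv (wP k) _ u t hF
  refine ⟨p, C, hC1, hC2, hC3, hC4, ?_⟩
  have hRg := Master_Rg k (K * L) hKL
  have hg := gsum k hk (K * L) ε hε
  have hM := hc0 k
  set n : ℝ := ((k + 1).factorial : ℝ) with hn
  have hn0 : 0 < n := by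
    rw [hn]
    exact_mod_cast (k + 1).factorial_pos
  set c1 : ℝ := c0 / ((k : ℝ) + 1) ^ ((3 : ℝ) / 2) with hc1
  have hM' : ((wP k).M ((wP k).N / 2) : ℝ) ≤ n * c1 := by
    refine hM.trans (le_of_eq ?_)
    rw [hc1]
    ring
  set g1 : ℝ := 7128 * (2 * ((K * L : ℕ) : ℝ) + 1) / ((k : ℝ) + 1) ^ ((7 : ℝ) / 2)
          + 36 / ((k : ℝ) + 1) ^ 2
          + 82944 / (ε * ((k : ℝ) + 1)) * Real.exp (-(ε ^ 2 * ((k : ℝ) + 1) / 20736)) with hg1
  set E1 : ℝ := Real.exp (-((2 * ((K * L : ℕ) : ℝ)) ^ 2 / (256 * ((k : ℝ) + 1) ^ 3))) with hE1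
  set M1 : ℝ := ((wP k).M ((wP k).N / 2) : ℝ) with hM1
  set S1 : ℝ := ∑ v ∈ (wP k).Rg ((wP k).N / 2 - K * L) ((wP k).N / 2),
    (wP k).G (thW k) (LamW k) ε v with hS1
  have a1 : (0 : ℝ) ≤ 2 * L := by positivity
  have a2 : (0 : ℝ) ≤ 2 + 2 * L * K := by positivity
  have a3 : (0 : ℝ) ≤ (4 * K + 2) * ε := by positivity
  have b1 : 2 * (L : ℝ) * M1 ≤ 2 * L * (n * c1) := mul_le_mul_of_nonneg_left hM' a1
  have b2 : (4 * (K : ℝ) + 2) * ε * M1 ≤ (4 * K + 2) * ε * (n * c1) :=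
    mul_le_mul_of_nonneg_left hM' a3
  have b3 : (2 + 2 * (L : ℝ) * K) * ((4 * K + 2) * ε * M1 + 3 * S1) ≤
      (2 + 2 * L * K) * ((4 * K + 2) * ε * (n * c1) + 3 * (n * g1)) :=
    mul_le_mul_of_nonneg_left (by linarith) a2
  have key : n * (1 - 2 * E1 - 2 * L * c1 - (2 + 2 * L * K) *
      ((4 * K + 2) * ε * c1 + 3 * g1)) ≤ (t : ℝ) := by
    have e1 : n * (1 - 2 * E1 - 2 * L * c1 - (2 + 2 * L * K) * ((4 * K + 2) * ε * c1 + 3 * g1)) =
      (n - n * (2 * E1)) - 2 * L * (n * c1) -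
        (2 + 2 * L * K) * ((4 * K + 2) * ε * (n * c1) + 3 * (n * g1)) := by ring
    rw [e1]
    linarith
  refine key.trans ?_
  have h5 : (t : ℝ) ≤ ((Finset.univ.filter
      (fun v : Equiv.Perm (Fin (k + 1)) => ∃ i, v ∈ C i)).card : ℝ) := by
    refine (Nat.cast_le.2 hC5).trans (le_of_eq ?_)
    congr 2
  exact h5.trans (le_of_eq (by congr 2))

end Pool.Agent.SCW
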