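import Mathlib
import Pool.Agent.SCW.Def
import Pool.Agent.SCW.Perm
import Pool.Agent.SCW.MidB
import Pool.Agent.SCW.Master

set_option autoImplicit false

open scoped BigOperators

namespace Pool.Agent.SCW

private theorem Final_exp {y : ℝ} (hy : 0 < y) (j : ℕ) :
    Real.exp (-y) ≤ (j.factorial : ℝ) / y ^ j := by
  have h1 := Real.pow_div_factorial_le_exp y hy.le j
  have hf : (0 : ℝ) < (j.factorial : ℝ) := by exact_mod_cast Nat.factorial_pos j
  have hp : 0 < y ^ j := pow_pos hy j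
  rw [Real.exp_neg, ← inv_div]
  exact inv_anti₀ (div_pos hp hf) h1

private theorem Final_floor {y : ℝ} (hy : 1 ≤ y) : y / 2 ≤ (⌊y⌋₊ : ℝ) := by
  have h1 : y < (⌊y⌋₊ : ℝ) + 1 := Nat.lt_floor_add_one y
  have h2 : (1 : ℝ) ≤ (⌊y⌋₊ : ℝ) := by
    exact_mod_cast (Nat.one_le_floor_iff y).2 hy
  linarith

private theorem Final_num {x c L K : ℝ} (hx : 1 ≤ x) (hc : 0 ≤ c) (hL0 : x ^ 52 / 2 ≤ L)
    (hL : L ≤ x ^ 52) (hK0 : x ^ 9 / 2 ≤ K) (hK : K ≤ x ^ 9) :
    2 * Real.exp (-((2 * (K * L)) ^ 2 / (256 * x ^ 120))) + 2 * L * (c / x ^ 60)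
      + (2 + 2 * L * K) * ((4 * K + 2) * (1 / x ^ 18) * (c / x ^ 60)
        + 3 * (7128 * (2 * (K * L) + 1) / x ^ 140 + 36 / x ^ 80
          + 82944 / ((1 / x ^ 18) * x ^ 40)
            * Real.exp (-((1 / x ^ 18) ^ 2 * x ^ 40 / 20736)))) ≤
    (48 * 1024 ^ 4 + 2 * c + 4 * (6 * c + 3 * (21384 + 36
      + 82944 * ((Nat.factorial 12 : ℕ) * 20736 ^ 12)))) / x ^ 8 := by
  have x0 : 0 < x := by linarith
  have hpow : ∀ m : ℕ, 0 < x ^ m := fun m => pow_pos x0 m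
  have hpow1 : ∀ m : ℕ, 1 ≤ x ^ m := fun m => one_le_pow₀ hx
  have hLp : 0 < L := lt_of_lt_of_le (by have := hpow 52; linarith) hL0
  have hKp : 0 < K := lt_of_lt_of_le (by have := hpow 9; linarith) hK0
  have hP : K * L ≤ x ^ 61 := by
    calc K * L ≤ x ^ 9 * x ^ 52 := mul_le_mul hK hL hLp.le (hpow 9).le
      _ = x ^ 61 := by rw [← pow_add]
  have hP0 : x ^ 61 / 4 ≤ K * L := by
    calc x ^ 61 / 4 = (x ^ 9 / 2) * (x ^ 52 / 2) := by ring
      _ ≤ K * L := mul_le_mul hK0 hL0 (by have := hpow 52; positivity) hKp.le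
  -- first term
  have h1 : 2 * Real.exp (-((2 * (K * L)) ^ 2 / (256 * x ^ 120))) ≤ 48 * 1024 ^ 4 / x ^ 8 := by
    have hy : x ^ 2 / 1024 ≤ (2 * (K * L)) ^ 2 / (256 * x ^ 120) := by
      have hb : x ^ 61 / 2 ≤ 2 * (K * L) := by linarith
      have hb2 : (x ^ 61 / 2) ^ 2 ≤ (2 * (K * L)) ^ 2 :=
        pow_le_pow_left₀ (by have := hpow 61; positivity) hb 2
      calc x ^ 2 / 1024 = (x ^ 61 / 2) ^ 2 / (256 * x ^ 120) := by
            field_simp
            ring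
        _ ≤ _ := div_le_div_of_nonneg_right hb2 (by have := hpow 120; positivity)
    have h2 : Real.exp (-((2 * (K * L)) ^ 2 / (256 * x ^ 120))) ≤ Real.exp (-(x ^ 2 / 1024)) :=
      Real.exp_le_exp.2 (by linarith)
    have h3 := Final_exp (y := x ^ 2 / 1024) (by have := hpow 2; positivity) 4
    have h4 : ((Nat.factorial 4 : ℕ) : ℝ) / (x ^ 2 / 1024) ^ 4 = 24 * 1024 ^ 4 / x ^ 8 := by
      rw [show Nat.factorial 4 = 24 from rfl]
      push_cast
      field_simp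
    rw [h4] at h3
    have h5 := h2.trans h3
    calc 2 * Real.exp (-((2 * (K * L)) ^ 2 / (256 * x ^ 120)))
        ≤ 2 * (24 * 1024 ^ 4 / x ^ 8) := by linarith
      _ = 48 * 1024 ^ 4 / x ^ 8 := by ring
  -- second term
  have h2 : 2 * L * (c / x ^ 60) ≤ 2 * c / x ^ 8 := by
    have hcp : 0 ≤ c / x ^ 60 := div_nonneg hc (hpow 60).le
    calc 2 * L * (c / x ^ 60) ≤ 2 * x ^ 52 * (c / x ^ 60) := by
          apply mul_le_mul_of_nonneg_right _ hcp
          linarith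
      _ = 2 * c / x ^ 8 := by
          field_simp
  have h3 : 2 + 2 * L * K ≤ 4 * x ^ 61 := by
    have := hpow1 61
    nlinarith [hP]
  have h4 : (4 * K + 2) * (1 / x ^ 18) * (c / x ^ 60) ≤ 6 * c / x ^ 69 := by
    have hcp : 0 ≤ c / x ^ 60 := div_nonneg hc (hpow 60).le
    have hK2 : 4 * K + 2 ≤ 6 * x ^ 9 := by
      have := hpow1 9
      linarith
    calc (4 * K + 2) * (1 / x ^ 18) * (c / x ^ 60)
        ≤ (6 * x ^ 9) * (1 / x ^ 18) * (c / x ^ 60) := by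
          apply mul_le_mul_of_nonneg_right _ hcp
          exact mul_le_mul_of_nonneg_right hK2 (by have := hpow 18; positivity)
      _ = 6 * c / x ^ 69 := by
          field_simp
  have hinv : ∀ m : ℕ, 69 ≤ m → ∀ a : ℝ, 0 ≤ a → a / x ^ m ≤ a / x ^ 69 := by
    intro m hm a ha
    exact div_le_div_of_nonneg_left ha (hpow 69) (pow_le_pow_right₀ hx hm)
  have h5 : 7128 * (2 * (K * L) + 1) / x ^ 140 ≤ 21384 / x ^ 69 := by
    have hb : 7128 * (2 * (K * L) + 1) ≤ 21384 * x ^ 61 := by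
      have := hpow1 61
      linarith
    calc 7128 * (2 * (K * L) + 1) / x ^ 140 ≤ 21384 * x ^ 61 / x ^ 140 :=
          div_le_div_of_nonneg_right hb (hpow 140).le
      _ = 21384 / x ^ 79 := by
          field_simp
      _ ≤ 21384 / x ^ 69 := hinv 79 (by norm_num) _ (by norm_num)
  have h6 : 36 / x ^ 80 ≤ 36 / x ^ 69 := hinv 80 (by norm_num) _ (by norm_num)
  have h7 : 82944 / ((1 / x ^ 18) * x ^ 40) * Real.exp (-((1 / x ^ 18) ^ 2 * x ^ 40 / 20736)) ≤
      82944 * ((Nat.factorial 12 : ℕ) * 20736 ^ 12) / x ^ 69 := by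
    have e1 : 82944 / ((1 / x ^ 18) * x ^ 40) = 82944 / x ^ 22 := by
      field_simp
    have e2 : (1 / x ^ 18) ^ 2 * x ^ 40 / 20736 = x ^ 4 / 20736 := by
      field_simp
    rw [e1, e2]
    have h8 := Final_exp (y := x ^ 4 / 20736) (by have := hpow 4; positivity) 12
    calc 82944 / x ^ 22 * Real.exp (-(x ^ 4 / 20736))
        ≤ 82944 / x ^ 22 * (((Nat.factorial 12 : ℕ) : ℝ) / (x ^ 4 / 20736) ^ 12) :=
          mul_le_mul_of_nonneg_left h8 (by have := hpow 22; positivity)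
      _ = 82944 * ((Nat.factorial 12 : ℕ) * 20736 ^ 12) / x ^ 70 := by
          rw [div_pow, ← pow_mul]
          field_simp
      _ ≤ _ := hinv 70 (by norm_num) _ (by positivity)
  have h9 : (2 + 2 * L * K) * ((4 * K + 2) * (1 / x ^ 18) * (c / x ^ 60)
        + 3 * (7128 * (2 * (K * L) + 1) / x ^ 140 + 36 / x ^ 80
          + 82944 / ((1 / x ^ 18) * x ^ 40)
            * Real.exp (-((1 / x ^ 18) ^ 2 * x ^ 40 / 20736)))) ≤
      (4 * x ^ 61) * (6 * c / x ^ 69 + 3 * (21384 / x ^ 69 + 36 / x ^ 69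
        + 82944 * ((Nat.factorial 12 : ℕ) * 20736 ^ 12) / x ^ 69)) := by
    apply mul_le_mul h3 _ _ (by have := hpow 61; positivity)
    · linarith
    · have i1 : 0 ≤ (4 * K + 2) * (1 / x ^ 18) * (c / x ^ 60) := by
        have := hpow 18
        have := hpow 60
        positivity
      have i2 : 0 ≤ 7128 * (2 * (K * L) + 1) / x ^ 140 := by
        have := hpow 140
        positivity
      have i3 : 0 ≤ 36 / x ^ 80 := by
        have := hpow 80
        positivity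
      have i4 : 0 ≤ 82944 / ((1 / x ^ 18) * x ^ 40)
            * Real.exp (-((1 / x ^ 18) ^ 2 * x ^ 40 / 20736)) := by
        have := hpow 18
        have := hpow 40
        positivity
      linarith
  have h10 : (4 * x ^ 61) * (6 * c / x ^ 69 + 3 * (21384 / x ^ 69 + 36 / x ^ 69
        + 82944 * ((Nat.factorial 12 : ℕ) * 20736 ^ 12) / x ^ 69)) =
      4 * (6 * c + 3 * (21384 + 36 + 82944 * ((Nat.factorial 12 : ℕ) * 20736 ^ 12))) / x ^ 8 := by
    field_simp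
  rw [h10] at h9
  have e : (48 * 1024 ^ 4 + 2 * c + 4 * (6 * c + 3 * (21384 + 36
      + 82944 * ((Nat.factorial 12 : ℕ) * 20736 ^ 12)))) / x ^ 8 =
      48 * 1024 ^ 4 / x ^ 8 + 2 * c / x ^ 8 + 4 * (6 * c + 3 * (21384 + 36
      + 82944 * ((Nat.factorial 12 : ℕ) * 20736 ^ 12))) / x ^ 8 := by
    rw [add_div, add_div]
  rw [e]
  linarith

private theorem Final_mono {n : ℕ} {t t' : ℝ} (h : t' ≤ t) (hp : Packs n t) : Packs n t' := by
  obtain ⟨k, C, h1, h2, h3, h4, h5⟩ := hp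
  exact ⟨k, C, h1, h2, h3, h4, h.trans h5⟩

private theorem Final_empty {n : ℕ} {t : ℝ} (h : t ≤ 0) : Packs n t := by
  refine ⟨0, fun i => i.elim0, fun i => i.elim0, fun i => i.elim0, fun i => i.elim0,
    fun i => i.elim0, h.trans (Nat.cast_nonneg _)⟩

private theorem Final_rpow {n : ℝ} (hn : 0 ≤ n) (m : ℕ) {r : ℝ} (hr : (1 : ℝ) / 40 * m = r) :
    n ^ r = (n ^ ((1 : ℝ) / 40)) ^ m := by
  rw [← Real.rpow_natCast (n ^ ((1 : ℝ) / 40)) m, ← Real.rpow_mul hn, hr]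

theorem final : ∃ A : ℝ, ∀ n : ℕ, 1 ≤ n →
    Packs n ((n.factorial : ℝ) * (1 - A / (n : ℝ) ^ ((1 : ℝ) / 5))) := by
  obtain ⟨c, hc, hmid⟩ := mid_bound
  set A0 : ℝ := 48 * 1024 ^ 4 + 2 * c + 4 * (6 * c + 3 * (21384 + 36
      + 82944 * ((Nat.factorial 12 : ℕ) * 20736 ^ 12))) with hA0
  have hA0p : 0 ≤ A0 := by positivity
  refine ⟨A0 + 256, fun n hn => ?_⟩
  have hn1 : (1 : ℝ) ≤ (n : ℝ) := by exact_mod_cast hn
  have hn0 : (0 : ℝ) ≤ (n : ℝ) := by linarith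
  have hfac : (0 : ℝ) ≤ (n.factorial : ℝ) := Nat.cast_nonneg _
  rcases lt_or_ge n 256 with hlt | hge
  · apply Final_empty
    have h1 : (n : ℝ) ^ ((1 : ℝ) / 5) ≤ 256 := by
      have h2 : (n : ℝ) ^ ((1 : ℝ) / 5) ≤ (n : ℝ) ^ (1 : ℝ) :=
        Real.rpow_le_rpow_of_exponent_le hn1 (by norm_num)
      rw [Real.rpow_one] at h2
      have h3 : (n : ℝ) < 256 := by exact_mod_cast hlt
      linarith
    have h2 : 0 < (n : ℝ) ^ ((1 : ℝ) / 5) := Real.rpow_pos_of_pos (by linarith) _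
    have h3 : 1 ≤ (A0 + 256) / (n : ℝ) ^ ((1 : ℝ) / 5) := by
      rw [le_div_iff₀ h2]
      linarith
    exact mul_nonpos_of_nonneg_of_nonpos hfac (by linarith)
  · obtain ⟨k, rfl⟩ : ∃ k, n = k + 1 := ⟨n - 1, by omega⟩
    have hcast : (((k + 1 : ℕ) : ℝ)) = (k : ℝ) + 1 := by push_cast; ring
    rw [hcast] at hn1 hn0
    set x : ℝ := ((k : ℝ) + 1) ^ ((1 : ℝ) / 40) with hxdef
    have hx : 1 ≤ x := Real.one_le_rpow hn1 (by norm_num)
    have x0 : 0 < x := by linarith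
    have p40 : (k : ℝ) + 1 = x ^ 40 := by
      have := Final_rpow hn0 40 (r := 1) (by norm_num)
      rw [Real.rpow_one] at this
      exact this
    have p8 : ((k : ℝ) + 1) ^ ((1 : ℝ) / 5) = x ^ 8 := Final_rpow hn0 8 (by norm_num)
    have p60 : ((k : ℝ) + 1) ^ ((3 : ℝ) / 2) = x ^ 60 := Final_rpow hn0 60 (by norm_num)
    have p140 : ((k : ℝ) + 1) ^ ((7 : ℝ) / 2) = x ^ 140 := Final_rpow hn0 140 (by norm_num)
    have p80 : ((k : ℝ) + 1) ^ 2 = x ^ 80 := by rw [p40, ← pow_mul]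
    have p120 : ((k : ℝ) + 1) ^ 3 = x ^ 120 := by rw [p40, ← pow_mul]
    have x5 : 2 ≤ x ^ 5 := by
      have h1 : (256 : ℝ) ≤ x ^ 40 := by
        rw [← p40]
        have : (256 : ℝ) ≤ ((k + 1 : ℕ) : ℝ) := by exact_mod_cast hge
        rw [hcast] at this
        exact this
      by_contra h
      push Not at h
      have h2 : (x ^ 5) ^ 8 < 2 ^ 8 := pow_lt_pow_left₀ h (by positivity) (by norm_num)
      rw [← pow_mul] at h2
      norm_num at h2
      linarith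
    obtain ⟨L, hL, hL0, hL1⟩ : ∃ L : ℕ, (L : ℝ) ≤ x ^ 52 ∧ x ^ 52 / 2 ≤ (L : ℝ) ∧ 1 ≤ L :=
      ⟨⌊x ^ 52⌋₊, Nat.floor_le (by positivity), Final_floor (one_le_pow₀ hx),
        (Nat.one_le_floor_iff _).2 (one_le_pow₀ hx)⟩
    obtain ⟨K, hK, hK0⟩ : ∃ K : ℕ, (K : ℝ) ≤ x ^ 9 ∧ x ^ 9 / 2 ≤ (K : ℝ) :=
      ⟨⌊x ^ 9⌋₊, Nat.floor_le (by positivity), Final_floor (one_le_pow₀ hx)⟩
    have hP : ((K * L : ℕ) : ℝ) ≤ x ^ 61 := by
      push_cast
      calc (K : ℝ) * L ≤ x ^ 9 * x ^ 52 :=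
            mul_le_mul hK hL (Nat.cast_nonneg _) (by positivity)
        _ = x ^ 61 := by rw [← pow_add]
    have hKL : K * L ≤ (wP k).N / 2 := by
      have h8 : 8 * (K * L) ≤ (k + 1) ^ 2 := by
        have hr : (8 : ℝ) * ((K * L : ℕ) : ℝ) ≤ ((k : ℝ) + 1) ^ 2 := by
          rw [p80]
          have h15 : (8 : ℝ) ≤ x ^ 19 := by
            have h16 : (2 : ℝ) ^ 3 ≤ (x ^ 5) ^ 3 := pow_le_pow_left₀ (by norm_num) x5 3
            rw [← pow_mul] at h16
            have h17 : x ^ (5 * 3) ≤ x ^ 19 := pow_le_pow_right₀ hx (by norm_num)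
            norm_num at h16 h17
            linarith
          calc (8 : ℝ) * ((K * L : ℕ) : ℝ) ≤ x ^ 19 * x ^ 61 :=
                mul_le_mul h15 hP (Nat.cast_nonneg _) (by positivity)
            _ = x ^ 80 := by rw [← pow_add]
        exact_mod_cast hr
      have hN : (wP k).N / 2 = (k + 1) * (k + 1 - 1) / 4 := by
        show (k + 1) * (k + 1 - 1) / 2 / 2 = _
        rw [Nat.div_div_eq_div_mul]
      rw [hN, Nat.le_div_iff_mul_le (by norm_num), Nat.add_sub_cancel]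
      have hk2 : k + 1 ≤ 2 * k := by omega
      have h9 : (k + 1) ^ 2 ≤ (k + 1) * (2 * k) := by
        rw [pow_two]
        exact Nat.mul_le_mul_left _ hk2
      have h10 : (k + 1) * (2 * k) = 2 * ((k + 1) * k) := by ring
      omega
    have hKL3 : 18 * (2 * ((K * L : ℕ) : ℝ) + 1) ≤ ((k : ℝ) + 1) ^ 3 := by
      rw [p120]
      have h59 : (54 : ℝ) ≤ x ^ 59 := by
        have h16 : (2 : ℝ) ^ 6 ≤ (x ^ 5) ^ 6 := pow_le_pow_left₀ (by norm_num) x5 6
        rw [← pow_mul] at h16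
        have h17 : x ^ (5 * 6) ≤ x ^ 59 := pow_le_pow_right₀ hx (by norm_num)
        norm_num at h16 h17
        linarith
      have h61 : (1 : ℝ) ≤ x ^ 61 := one_le_pow₀ hx
      have h120 : 54 * x ^ 61 ≤ x ^ 120 := by
        calc 54 * x ^ 61 ≤ x ^ 59 * x ^ 61 :=
              mul_le_mul_of_nonneg_right h59 (by positivity)
          _ = x ^ 120 := by rw [← pow_add]
      linarith
    have hε : 0 < 1 / x ^ 18 := by positivity
    have hM := master c hmid k (by omega) K L hL1 hKL hKL3 (1 / x ^ 18) hε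
    refine Final_mono ?_ hM
    rw [p60, p140, p80, p120, p40, hcast, p8]
    apply mul_le_mul_of_nonneg_left _ (Nat.cast_nonneg _)
    have hnum := Final_num hx hc.le hL0 hL hK0 hK
    rw [← hA0] at hnum
    have hA : A0 / x ^ 8 ≤ (A0 + 256) / x ^ 8 :=
      div_le_div_of_nonneg_right (by linarith) (by positivity)
    push_cast
    linarith

end Pool.Agent.SCW
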